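import Pool.Agent.Helper73.KT.Glue

/-!
# Endomorphisms which commute with a finite abelian group
-/

open Module

namespace Pool.Agent.Helper73.QW

section

variable {L V : Type} [Field L] [AddCommGroup V] [Module L V]

/-- the spaces on which a finite commuting group acts by characters span -/
theorem top_of_group [CharZero L] [IsAlgClosed L] [FiniteDimensional L V] {G : Type}
    [Group G] [Finite G] (ρ : G →* End L V) (hρ : ∀ g h, Commute (ρ g) (ρ h))
    (W : Submodule L V)
    (h : ∀ χ : G →* Lˣ, ∀ t : V, (∀ g, ρ g t = (χ g : L) • t) → t ∈ W) : W = ⊤ := by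
  classical
  rw [eq_top_iff]
  have hss : ∀ g, (ρ g).IsSemisimple := by
    intro g
    have hn : Nat.card G ≠ 0 := Nat.card_pos.ne'
    refine End.isSemisimple_of_squarefree_aeval_eq_zero
      (p := Polynomial.X ^ Nat.card G - Polynomial.C 1)
      (Polynomial.separable_X_pow_sub_C (1 : L) (by exact_mod_cast hn) one_ne_zero).squarefree ?_
    rw [map_sub, map_pow, Polynomial.aeval_X, Polynomial.aeval_C, map_one, ← map_pow,
      pow_card_eq_one', map_one, sub_self]
  have h1 := End.iSup_iInf_maxGenEigenspace_eq_top_of_iSup_maxGenEigenspace_eq_top_of_commute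
    (fun g => ρ g) (fun g h _ => hρ g h) (fun g => End.iSup_maxGenEigenspace_eq_top (ρ g))
  rw [← h1]
  refine iSup_le fun χ => ?_
  intro t ht
  have ht' : ∀ g, ρ g t = χ g • t := by
    intro g
    rw [Submodule.mem_iInf] at ht
    have h2 := ht g
    rw [(hss g).isFinitelySemisimple.maxGenEigenspace_eq_eigenspace] at h2
    exact End.mem_eigenspace_iff.1 h2
  by_cases h0 : t = 0
  · rw [h0]
    exact Submodule.zero_mem _
  let χ' : G →* L :=
    { toFun := χ
      map_one' := by
        have h2 := ht' 1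
        rw [map_one, End.one_apply] at h2
        have h3 : (χ 1 - 1) • t = 0 := by
          rw [sub_smul, one_smul, ← h2, sub_self]
        exact sub_eq_zero.1 ((smul_eq_zero.1 h3).resolve_right h0)
      map_mul' := fun a b => by
        have h2 := ht' (a * b)
        rw [map_mul, End.mul_apply, ht', map_smul, ht', smul_smul] at h2
        have h3 : (χ (a * b) - χ a * χ b) • t = 0 := by
          rw [sub_smul, ← h2, mul_comm (χ a), sub_self]
        exact sub_eq_zero.1 ((smul_eq_zero.1 h3).resolve_right h0) }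
  exact h χ'.toHomUnits t fun g => by
    rw [ht' g, MonoidHom.coe_toHomUnits]
    rfl

theorem semisimple_of_group [CharZero L] [IsAlgClosed L] [FiniteDimensional L V] {G : Type}
    [Group G] [Finite G] (ρ : G →* End L V) (hρ : ∀ g h, Commute (ρ g) (ρ h)) (Φ : End L V)
    (h : ∀ χ : G →* Lˣ, ∀ t : V, (∀ g, ρ g t = (χ g : L) • t) → t ∈ ⨆ c, Φ.eigenspace c) :
    ⨆ c, Φ.eigenspace c = ⊤ := top_of_group ρ hρ _ h

/-- a common eigenvector -/
theorem exists_common [IsAlgClosed L] [FiniteDimensional L V] {ι : Type} (A : ι → End L V)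
    (c : ι → L) (Φ : End L V) (hA : ∀ i, Commute (A i) Φ) {z : V} (hz : z ≠ 0)
    (hz' : ∀ i, A i z = c i • z) : ∃ (z' : V) (l : L), z' ≠ 0 ∧ (∀ i, A i z' = c i • z') ∧
      Φ z' = l • z' := by
  let U : Submodule L V := ⨅ i, (A i).eigenspace (c i)
  have hU : ∀ v, v ∈ U ↔ ∀ i, A i v = c i • v := by
    intro v
    rw [Submodule.mem_iInf]
    exact forall_congr' fun i => End.mem_eigenspace_iff
  have hst : ∀ v ∈ U, Φ v ∈ U := by
    intro v hv
    rw [hU] at hv ⊢
    intro i
    have h1 : A i (Φ v) = Φ (A i v) := LinearMap.congr_fun (hA i).eq v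
    rw [h1, hv i, map_smul]
  have hne : Nontrivial U := ⟨⟨⟨z, (hU z).2 hz'⟩, 0, fun h => hz (congrArg Subtype.val h)⟩⟩
  obtain ⟨l, hl⟩ := End.exists_eigenvalue (Φ.restrict hst)
  obtain ⟨v, hv⟩ := hl.exists_hasEigenvector
  refine ⟨v, l, fun h => hv.2 (Subtype.ext h), (hU _).1 v.2, ?_⟩
  have h1 := congrArg Subtype.val hv.apply_eq_smul
  exact h1

end

/-- a character of a group which embeds in a finite abelian group extends -/
theorem exists_extension {L : Type} [Field L] [CharZero L] [IsAlgClosed L] {G Γ : Type} [Group G]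
    [CommGroup Γ] [Finite Γ] (ι : G →* Γ) (hι : Function.Injective ι) (χ : G →* Lˣ) :
    ∃ ψ : Γ →* Lˣ, ∀ g, ψ (ι g) = χ g := by
  let e : G ≃* ι.range := MonoidHom.ofInjective hι
  have : HasEnoughRootsOfUnity L (Monoid.exponent Γ) := by
    have : NeZero (Monoid.exponent Γ) := ⟨Monoid.exponent_ne_zero_of_finite⟩
    have : NeZero ((Monoid.exponent Γ : ℕ) : L) := ⟨by exact_mod_cast this.out⟩
    infer_instance
  obtain ⟨ψ, hψ⟩ := MonoidHom.domRestrict_surjective L ι.range (χ.comp e.symm.toMonoidHom)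
  refine ⟨ψ, fun g => ?_⟩
  have h1 := DFunLike.congr_fun hψ (e g)
  simp at h1
  exact h1

end Pool.Agent.Helper73.QW
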