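import Pool.Agent.Helper73.QW.CrossZ
import Pool.Agent.Helper75.QC.Coniv
import Pool.Agent.Helper75.QC.Lin

/-!
# The characters whose square is not trivial on the first factor
-/

open IntermediateField Module

namespace Pool.Agent.Helper73.QW

open Pool.Agent.Helper75.QC

section

variable {p : ℕ} {Ω : Type} [Field Ω] (κ : Kind p Ω)

theorem Kind.frob' {E : Type} [Field E] [Algebra Ω E] (m : ℕ) (γ : κ.Γ) (a : E) :
    κ.op γ a ^ p ^ (κ.k * m) = κ.op γ (a ^ p ^ (κ.k * m)) := by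
  induction m generalizing a with
  | zero => simp
  | succ m ih =>
    rw [mul_add, mul_one, pow_add, pow_mul, ih, κ.frob, ← pow_mul]

theorem Kind.D_frob' {E : Type} [Field E] [Algebra Ω E] (m : ℕ) (a : E) :
    Polynomial.aeval (a ^ p ^ (κ.k * m)) κ.D = Polynomial.aeval a κ.D ^ p ^ (κ.k * m) := by
  induction m with
  | zero => simp
  | succ m ih => rw [mul_add, mul_one, pow_add, pow_mul, κ.D_frob, ih, ← pow_mul]

theorem Kind.op_transcendental {E : Type} [Field E] [Algebra Ω E] (γ : κ.Γ) {u : E}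
    (hu : Transcendental Ω u) : Transcendental Ω (κ.op γ u) := by
  intro h
  apply hu
  have h1 : κ.op γ u ∈ algebraicClosure Ω E := (mem_algebraicClosure_iff).2 h
  have h3 : κ.op γ⁻¹ (κ.op γ u) ∈ algebraicClosure Ω E := κ.op_mem _ _ _ h1
  rw [← κ.op_mul, inv_mul_cancel, κ.op_one] at h3
  exact (mem_algebraicClosure_iff).1 h3

/-- the first cohomology of the curve `s ^ 2 = D (u)` -/
def CurveHyp {L : Type} [Field L] (T : BaseTheory Ω L) : Prop :=
  ∀ (C : Type) [Field C] [Algebra Ω C] (u s : C), Transcendental Ω u →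
    s ^ 2 = Polynomial.aeval u κ.D → adjoin Ω {u, s} = ⊤ →
    (∀ γ, ∃ σ : C →ₐ[Ω] C, σ u = κ.op γ u ∧ σ s = s) → ∀ ψ : κ.Γ →* Lˣ, (∃ γ, ψ γ ^ 2 ≠ 1) →
    ∃ c : T.H 1 C, c ≠ 0 ∧ ∀ (γ : κ.Γ) (σ : C →ₐ[Ω] C), σ u = κ.op γ u → σ s = s →
      T.map 1 σ c = ((ψ γ : Lˣ) : L) • c

end

theorem alg_of_pow {Ω K : Type} [Field Ω] [Field K] [Algebra Ω K] (R : IntermediateField Ω K)
    (S : Set K) (hS : adjoin Ω S = ⊤) (m : ℕ) (hm : 0 < m) (h : ∀ s ∈ S, s ^ m ∈ R) (k : K) :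
    IsAlgebraic R k := by
  have h1 : adjoin Ω S ≤ (algebraicClosure R K).restrictScalars Ω := by
    rw [adjoin_le_iff]
    intro s hs
    have h2 : IsAlgebraic R s := by
      refine IsAlgebraic.of_pow hm ?_
      exact isAlgebraic_algebraMap (⟨s ^ m, h s hs⟩ : R)
    exact (mem_algebraicClosure_iff).2 h2
  have h3 : k ∈ (algebraicClosure R K).restrictScalars Ω := by
    apply h1
    rw [hS]
    exact mem_top
  exact (mem_algebraicClosure_iff).1 h3

section

variable {p : ℕ} {Ω L : Type} [Field Ω] [Field L] {κ : Kind p Ω} {K : Type} [Field K]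
    [Algebra Ω K] {f g x y w z : K}

theorem Cover.commute_frob (hC : Cover κ f g x y w z) (hpo : Odd p) (e : ℕ) (φ : K →ₐ[Ω] K)
    (hφ : φ x = x ^ p ^ (κ.k * e) ∧ φ y = y ^ p ^ (κ.k * e) ∧ φ w = w ^ p ^ (κ.k * e) ∧
      φ z = z ^ p ^ (κ.k * e)) (τ : Gp Ω x y) :
    (toHom τ).comp φ = φ.comp (toHom τ) := by
  refine hom_ext {x, y, w, z} hC.top _ _ ?_
  rintro c (rfl | rfl | rfl | hc)
  · rw [AlgHom.comp_apply, AlgHom.comp_apply, hφ.1, map_pow, toHom_x, hφ.1]
  · rw [AlgHom.comp_apply, AlgHom.comp_apply, hφ.2.1, map_pow, toHom_y, hφ.2.1]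
  · rw [AlgHom.comp_apply, AlgHom.comp_apply, hφ.2.2.1, map_pow, hC.gam_spec, κ.map_op,
      hφ.2.2.1, κ.frob']
  · rw [Set.mem_singleton_iff] at hc
    rw [hc, AlgHom.comp_apply, AlgHom.comp_apply, hφ.2.2.2, map_pow, hC.sgn_spec, map_mul,
      map_intCast, hφ.2.2.2, mul_pow]
    congr 1
    rcases Int.units_eq_one_or (hC.sgn τ) with h | h
    · rw [h]
      simp
    · rw [h]
      have : Odd (p ^ (κ.k * e)) := hpo.pow
      simp [this.neg_one_pow]

theorem Cover.good [CharZero L] [IsAlgClosed L] (T : Theory p Ω L)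
    (hC : Cover κ f g x y w z) (hpo : Odd p) (h2 : (2 : Ω) ≠ 0)
    (hG : Geo κ f g x y) (hcurve : CurveHyp κ T.toBaseTheory)
    (ψ : κ.Γ →* Lˣ) (hψ : ∃ γ, ψ γ ^ 2 ≠ 1) (δ : ℤˣ →* Lˣ) (e : ℕ) (φ : K →ₐ[Ω] K)
    (hφ : φ x = x ^ p ^ (κ.k * e) ∧ φ y = y ^ p ^ (κ.k * e) ∧ φ w = w ^ p ^ (κ.k * e) ∧
      φ z = z ^ p ^ (κ.k * e)) (t : T.H 2 K)
    (ht : ∀ τ : Gp Ω x y, T.map 2 (toHom τ) t =
      ((ψ (hC.gam τ) * δ (hC.sgn τ) : Lˣ) : L) • t) :
    t ∈ ⨆ c, End.eigenspace (T.map 2 φ) c := by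
  classical
  have hp : p ≠ 0 := by
    rintro rfl
    exact absurd hpo (by decide)
  set Q := p ^ (κ.k * e) with hQ
  have hQ0 : 0 < Q := pow_pos (Nat.pos_of_ne_zero hp) _
  have hfin : (⊤ : IntermediateField Ω K).FG := by
    rw [← hC.top]
    exact fg_adjoin_of_finite (Set.toFinite _)
  have : FiniteDimensional L (T.H 2 K) := T.fin 2 K hfin
  obtain ⟨C, N, iC, jC, iN, jN, u, s, a, b, hu, hs, hCt, hb, hN, huniv⟩ :=
    exists_curve κ.D κ.D_deg (fun F => κ.D_sqf) K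
  have hs0 : s ≠ 0 := by
    rintro rfl
    rw [zero_pow two_ne_zero] at hs
    exact hu ⟨κ.D, fun h => by
      have := κ.D_deg
      rw [h, Polynomial.natDegree_zero] at this
      exact this.false, hs.symm⟩
  have hsig : ∀ (γ : κ.Γ) (ε : ℤˣ), ∃ τ : C →ₐ[Ω] C, τ u = κ.op γ u ∧
      τ s = ((ε : ℤ) : C) * s := by
    intro γ ε
    refine huniv C _ _ (κ.op_transcendental γ hu) ?_
    rw [κ.D_op, ← hs, mul_pow]
    rcases Int.units_eq_one_or ε with h | h
    · rw [h]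
      simp
    · rw [h]
      simp
  obtain ⟨ψF, hF1, hF2⟩ := huniv C (u ^ Q) (s ^ Q) (by
    intro h
    exact hu (IsAlgebraic.of_pow hQ0 h)) (by
    rw [κ.D_frob', ← hs, ← pow_mul, ← pow_mul, mul_comm])
  have hfinC : (⊤ : IntermediateField Ω C).FG := by
    rw [← hCt]
    exact fg_adjoin_of_finite (Set.toFinite _)
  have : FiniteDimensional L (T.H 1 C) := T.fin 1 C hfinC
  obtain ⟨c0, hc0, hc0'⟩ := hcurve C u s hu hs hCt (fun γ => by
    obtain ⟨τ, h3, h4⟩ := hsig γ 1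
    exact ⟨τ, h3, by rw [h4]; simp⟩) ψ⁻¹ (by
    obtain ⟨γ, hγ⟩ := hψ
    refine ⟨γ, fun h => hγ ?_⟩
    rw [MonoidHom.inv_apply, inv_pow, inv_eq_one] at h
    exact h)
  choose σ hσ1 hσ2 using fun γ => hsig γ 1
  have hσ2' : ∀ γ, σ γ s = s := fun γ => by
    rw [hσ2]
    simp
  have hcomm : ∀ γ, Commute (T.map 1 (σ γ) : End L (T.H 1 C)) (T.map 1 ψF) := by
    intro γ
    have h3 : (σ γ).comp ψF = ψF.comp (σ γ) := by
      refine hom_ext {u, s} hCt _ _ ?_
      rintro c (rfl | hc)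
      · rw [AlgHom.comp_apply, AlgHom.comp_apply, hF1, map_pow, hσ1, κ.map_op, hF1, hQ,
          κ.frob']
      · rw [Set.mem_singleton_iff] at hc
        rw [hc, AlgHom.comp_apply, AlgHom.comp_apply, hF2, map_pow, hσ2', hF2]
    show (T.map 1 (σ γ) : End L (T.H 1 C)) * T.map 1 ψF = T.map 1 ψF * T.map 1 (σ γ)
    have h1 := T.map_comp 1 ψF (σ γ)
    have h4 := T.map_comp 1 (σ γ) ψF
    rw [h3, h4] at h1
    exact h1.symm
  obtain ⟨c, l, hc0'', hcσ, hcF⟩ := exists_common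
    (fun γ => (T.map 1 (σ γ) : End L (T.H 1 C))) (fun γ => ((ψ γ : Lˣ) : L)⁻¹)
    (T.map 1 ψF) hcomm hc0 (by
      intro γ
      have := hc0' γ (σ γ) (hσ1 γ) (hσ2' γ)
      rw [MonoidHom.inv_apply, Units.val_inv_eq_inv_val] at this
      exact this)
  have hc : ∀ (γ : κ.Γ) (τ : C →ₐ[Ω] C), τ u = κ.op γ u → τ s = s →
      T.map 1 τ c = ((ψ γ : Lˣ) : L)⁻¹ • c := by
    intro γ τ h3 h4
    have h5 : τ = σ γ := by
      refine hom_ext {u, s} hCt _ _ ?_
      rintro c (rfl | hc)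
      · rw [h3, hσ1]
      · rw [Set.mem_singleton_iff] at hc
        rw [hc, h4, hσ2']
    rw [h5]
    exact hcσ γ
  have hinjC : Function.Injective (T.map 1 ψF) := by
    refine T.inj 1 ψF fun a => alg_of_pow ψF.fieldRange {u, s} hCt Q hQ0 ?_ a
    rintro v (rfl | hv)
    · exact ⟨v, hF1⟩
    · rw [Set.mem_singleton_iff] at hv
      rw [hv]
      exact ⟨s, hF2⟩
  have hl : l ≠ 0 := by
    rintro rfl
    rw [zero_smul] at hcF
    exact hc0'' (hinjC (by rw [hcF, map_zero]))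
  obtain ⟨U, hU⟩ : ∃ U : Submodule L (T.H 2 K), ∀ t, t ∈ U ↔ ∀ τ : Gp Ω x y,
      T.map 2 (toHom τ) t = ((ψ (hC.gam τ) * δ (hC.sgn τ) : Lˣ) : L) • t := by
    refine ⟨⨅ τ : Gp Ω x y, End.eigenspace (T.map 2 (toHom τ))
      ((ψ (hC.gam τ) * δ (hC.sgn τ) : Lˣ) : L), fun t => ?_⟩
    rw [Submodule.mem_iInf]
    exact forall_congr' fun i => End.mem_eigenspace_iff
  have hUst : ∀ t ∈ U, (T.map 2 φ : End L (T.H 2 K)) t ∈ U := by
    intro t ht
    rw [hU] at ht ⊢
    intro τ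
    have h1 := LinearMap.congr_fun (T.map_comp 2 φ (toHom τ)) t
    have h3 := LinearMap.congr_fun (T.map_comp 2 (toHom τ) φ) t
    rw [hC.commute_frob hpo e φ hφ τ, h3, LinearMap.comp_apply, LinearMap.comp_apply, ht τ,
      map_smul] at h1
    exact h1.symm
  have hPP : ∀ t ∈ U.map ((TensorProduct.mk L (T.H 2 K) (T.H 1 C)).flip c),
      TensorProduct.map (T.map 2 φ) (T.map 1 ψF) t ∈
        U.map ((TensorProduct.mk L (T.H 2 K) (T.H 1 C)).flip c) := by
    rintro _ ⟨s, hs, rfl⟩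
    refine ⟨l • T.map 2 φ s, Submodule.smul_mem _ _ (hUst s hs), ?_⟩
    simp only [LinearMap.flip_apply, TensorProduct.mk_apply, TensorProduct.map_tmul]
    rw [hcF, TensorProduct.tmul_smul, TensorProduct.smul_tmul']
  have hss : End.IsSemisimple ((T.map 2 φ : End L (T.H 2 K)).restrict hUst) := by
    refine semisimple_of_tensor (T.map 2 φ) (T.map 1 ψF) c hc0'' l hl hcF U hUst hPP ?_
    refine T.coniveau hp a b x y u (κ.k * e) φ ψF hfin hfinC ?_ ?_ hb ?_ ?_ _ ?_ hPP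
    · intro k
      have : FiniteDimensional (adjoin Ω {x, y}) K := (hC.galois h2).1
      exact Algebra.IsAlgebraic.isAlgebraic k
    · intro k
      rw [← mem_AF]
      have h1 : adjoin Ω {u, s} ≤ AF Ω {u} := by
        rw [adjoin_le_iff]
        have hvm : u ∈ AF Ω {u} := subset_AF _ (by simp)
        rintro v (rfl | hv)
        · exact hvm
        · rw [Set.mem_singleton_iff] at hv
          rw [hv]
          apply AF_root two_pos
          rw [hs]
          have h3 := Polynomial.aeval_mem_adjoin_singleton (p := κ.D) Ω u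
          have h4 : Algebra.adjoin Ω {u} ≤ (AF Ω {u}).toSubalgebra := by
            rw [Algebra.adjoin_le_iff, Set.singleton_subset_iff]
            exact hvm
          exact h4 h3
      apply h1
      rw [hCt]
      exact mem_top
    · unfold IsFrob
      rw [eq_top_iff, ← hC.top, adjoin_le_iff]
      rintro v (rfl | rfl | rfl | hv)
      · exact subset_adjoin _ _ hφ.1
      · exact subset_adjoin _ _ hφ.2.1
      · exact subset_adjoin _ _ hφ.2.2.1
      · rw [Set.mem_singleton_iff] at hv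
        rw [hv]
        exact subset_adjoin _ _ hφ.2.2.2
    · unfold IsFrob
      rw [eq_top_iff, ← hCt, adjoin_le_iff]
      rintro v (rfl | hv)
      · exact subset_adjoin _ _ hF1
      · rw [Set.mem_singleton_iff] at hv
        rw [hv]
        exact subset_adjoin _ _ hF2
    · rintro _ ⟨v, hv, rfl⟩
      simp only [LinearMap.flip_apply, TensorProduct.mk_apply, TensorProduct.lift.tmul,
        LinearMap.compl₁₂_apply]
      exact hC.cross_zero T.toBaseTheory h2 hG ψ δ u s hs hs0 hCt a b hb hN hsig c hc v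
        ((hU v).1 hv)
  exact Pool.Agent.Helper73.KT.le_of_semisimple hUst hss ((hU t).2 ht)

end

end Pool.Agent.Helper73.QW
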