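import Pool.Agent.Helper73.QW.Bad
import Pool.Agent.Helper73.QW.Good

/-!
# Frobenius is semisimple if the quotients are uniruled
-/

open IntermediateField Module

namespace Pool.Agent.Helper73.QW

open Pool.Agent.Helper75.QC

section

theorem end_pow {Ω K : Type} [Field Ω] [Field K] [Algebra Ω K] (φ : K →ₐ[Ω] K) {p e : ℕ} {a : K}
    (h : φ a = a ^ p ^ e) (j : ℕ) : (φ ^ j) a = a ^ p ^ (j * e) := by
  induction j with
  | zero => simp
  | succ j ih =>
    rw [pow_succ', AlgHom.mul_apply, ih, map_pow, h, ← pow_mul, ← pow_add]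
    congr 2
    ring

theorem map_pow_end {Ω L : Type} [Field Ω] [Field L] (T : BaseTheory Ω L) (i : ℕ)
    {K : Type} [Field K] [Algebra Ω K] (φ : K →ₐ[Ω] K) (k : ℕ) :
    T.map i (φ ^ k) = (T.map i φ) ^ k := by
  induction k with
  | zero =>
    rw [pow_zero, pow_zero]
    exact T.map_id i K
  | succ k ih =>
    rw [pow_succ, pow_succ, ← ih]
    exact T.map_comp i φ (φ ^ k)

variable {p : ℕ} {Ω L : Type} [Field Ω] [Field L] {κ : Kind p Ω} {K : Type} [Field K]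
    [Algebra Ω K] {f g x y w z : K}

theorem Cover.semisimple [CharZero L] [IsAlgClosed L] (T : Theory p Ω L)
    (hC : Cover κ f g x y w z) (hpo : Odd p) (h2 : (2 : Ω) ≠ 0)
    (hG : Geo κ f g x y) (hcurve : CurveHyp κ T.toBaseTheory) (e : ℕ) (φ : K →ₐ[Ω] K)
    (hφ : φ x = x ^ p ^ e ∧ φ y = y ^ p ^ e ∧ φ w = w ^ p ^ e ∧ φ z = z ^ p ^ e) :
    End.IsSemisimple (T.map 2 φ) := by
  classical
  have hp : p ≠ 0 := by
    rintro rfl
    exact absurd hpo (by decide)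
  have h2K : (2 : K) ≠ 0 := by
    intro h
    apply h2
    apply (algebraMap Ω K).injective
    rw [map_ofNat, h, map_zero]
  have hfin : (⊤ : IntermediateField Ω K).FG := by
    rw [← hC.top]
    exact fg_adjoin_of_finite (Set.toFinite _)
  have : FiniteDimensional L (T.H 2 K) := T.fin 2 K hfin
  have hinj : Function.Injective (T.map 2 φ) := by
    refine T.inj 2 φ fun a => alg_of_pow φ.fieldRange {x, y, w, z} hC.top (p ^ e)
      (pow_pos (Nat.pos_of_ne_zero hp) _) ?_ a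
    rintro s (rfl | rfl | rfl | hs)
    · exact ⟨s, hφ.1⟩
    · exact ⟨s, hφ.2.1⟩
    · exact ⟨s, hφ.2.2.1⟩
    · rw [Set.mem_singleton_iff] at hs
      rw [hs]
      exact ⟨z, hφ.2.2.2⟩
  refine semisimple_of_pow (T.map 2 φ) hinj κ.k_pos ?_
  rw [← map_pow_end T.toBaseTheory]
  have := (hC.galois h2).1
  have : Finite (Gp Ω x y) := inferInstance
  let ρ : Gp Ω x y →* End L (T.H 2 K) :=
    { toFun := fun τ => T.map 2 (toHom τ)
      map_one' := by
        rw [toHom_one]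
        exact T.map_id 2 K
      map_mul' := fun σ τ => by
        rw [toHom_mul]
        exact T.map_comp 2 (toHom τ) (toHom σ) }
  apply Pool.Agent.Helper73.KT.semisimple_of_iSup
  refine semisimple_of_group ρ (fun σ τ => ?_) _ ?_
  · show ρ σ * ρ τ = ρ τ * ρ σ
    rw [← map_mul, ← map_mul, hC.comm]
  · intro χ t ht
    obtain ⟨χ', hχ'⟩ := exists_extension (hC.iota h2K) (hC.iota_injective h2K) χ
    obtain ⟨ψ, hψ⟩ : ∃ ψ : κ.Γ →* Lˣ, ψ = χ'.comp (MonoidHom.inl κ.Γ ℤˣ) := ⟨_, rfl⟩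
    obtain ⟨δ, hδ⟩ : ∃ δ : ℤˣ →* Lˣ, δ = χ'.comp (MonoidHom.inr κ.Γ ℤˣ) := ⟨_, rfl⟩
    have hχ : ∀ τ : Gp Ω x y, χ τ = ψ (hC.gam τ) * δ (hC.sgn τ) := by
      intro τ
      rw [← hχ', hψ, hδ, MonoidHom.comp_apply, MonoidHom.comp_apply, ← map_mul]
      congr 1
      simp [Cover.iota]
    have ht' : ∀ τ : Gp Ω x y, T.map 2 (toHom τ) t =
        ((ψ (hC.gam τ) * δ (hC.sgn τ) : Lˣ) : L) • t := by
      intro τ
      rw [← hχ τ]
      exact ht τ
    by_cases h : ∀ γ, ψ γ ^ 2 = 1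
    · rw [hC.bad_zero T.toBaseTheory h2 hG ψ δ h t ht']
      exact Submodule.zero_mem _
    · push Not at h
      exact hC.good T hpo h2 hG hcurve ψ h δ e (φ ^ κ.k)
        ⟨end_pow φ hφ.1 _, end_pow φ hφ.2.1 _, end_pow φ hφ.2.2.1 _, end_pow φ hφ.2.2.2 _⟩ t ht'

end

end Pool.Agent.Helper73.QW
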