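import Mathlib

/-!
# Galois extensions generated by roots of separable polynomials which split
-/

open Polynomial IntermediateField

namespace Pool.Agent.Helper73.QW

theorem gal_of_roots {F N : Type} [Field F] [Field N] [Algebra F N] (S : Set N) (hS : S.Finite)
    (htop : adjoin F S = ⊤)
    (h : ∀ s ∈ S, ∃ P : F[X], P.Separable ∧ aeval s P = 0 ∧ (P.map (algebraMap F N)).Splits) :
    FiniteDimensional F N ∧ IsGalois F N := by
  have hint : ∀ s ∈ S, IsIntegral F s ∧ ((minpoly F s).map (algebraMap F N)).Splits := by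
    intro s hs
    obtain ⟨P, h1, h2, h3⟩ := h s hs
    have hP0 : P ≠ 0 := h1.ne_zero
    refine ⟨isAlgebraic_iff_isIntegral.1 ⟨P, hP0, h2⟩, ?_⟩
    exact h3.of_dvd (Polynomial.map_ne_zero hP0) (Polynomial.map_dvd _ (minpoly.dvd F s h2))
  have hfin : FiniteDimensional F N := by
    have : Finite S := hS
    have h1 : FiniteDimensional F (adjoin F S) := finiteDimensional_adjoin fun s hs => (hint s hs).1
    rw [htop] at h1
    exact topEquiv.toLinearEquiv.finiteDimensional
  refine ⟨hfin, ?_⟩
  have hnorm : Normal F N := by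
    rw [normal_iff]
    intro x
    have hx : x ∈ adjoin F S := by
      rw [htop]
      exact mem_top
    exact ⟨Algebra.IsIntegral.isIntegral x, splits_of_mem_adjoin F N hint hx⟩
  have hsep : Algebra.IsSeparable F N := by
    rw [← isSeparable_top, ← htop, isSeparable_adjoin_iff_isSeparable]
    intro s hs
    obtain ⟨P, h1, h2, -⟩ := h s hs
    exact h1.of_dvd (minpoly.dvd F s h2)
  exact ⟨⟩

end Pool.Agent.Helper73.QW
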