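import Pool.Agent.Helper73.QW.Kummer
import Pool.Agent.Helper73.QW.Semi

/-!
# The curve `s ^ 2 = 1 - 4 u ^ n`
-/

open IntermediateField Module

namespace Pool.Agent.Helper73.QW

open Pool.Agent.Helper75.QC

theorem curve_kummer {p : ℕ} [hp : Fact p.Prime] {Ω L : Type} [Field Ω] [CharP Ω p]
    [IsAlgClosed Ω] [Field L] (T : BaseTheory Ω L) (h2 : (2 : Ω) ≠ 0) {n : ℕ} (hn : 0 < n)
    (hn' : (n : Ω) ≠ 0) : CurveHyp (kummer Ω p h2 hn hn') T := by
  intro C _ _ u s hu hs hC hsig ψ0 hψ0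
  obtain ⟨ψ, hψψ⟩ : ∃ ψ : rootsOfUnity n Ω →* Lˣ, ∀ γ : rootsOfUnity n Ω, ψ γ = ψ0 γ :=
    ⟨ψ0, fun γ => rfl⟩
  have hψ : ∃ γ, ψ γ ^ 2 ≠ 1 := by
    obtain ⟨γ, hγ⟩ := hψ0
    exact ⟨γ, fun h => hγ (by rw [← hψψ γ]; exact h)⟩
  obtain ⟨ζ, hζ⟩ := exists_root_of hn hn'
  obtain ⟨σ, hσu, hσs⟩ := hsig ζ
  have h2C : (2 : C) ≠ 0 := by
    intro h
    apply h2
    apply (algebraMap Ω C).injective
    rw [map_ofNat, h, map_zero]
  have hs' : s ^ 2 = 1 - 4 * u ^ n := by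
    rw [hs]
    show Polynomial.aeval u (1 - Polynomial.C 4 * Polynomial.X ^ n : Polynomial Ω) = _
    simp only [map_sub, map_one, map_mul, map_pow, Polynomial.aeval_X, Polynomial.aeval_C,
      map_ofNat]
  obtain ⟨v, hv⟩ : ∃ v, v = (1 - s) / 2 := ⟨_, rfl⟩
  have hsv : s = 1 - 2 * v := by
    rw [hv, mul_div_cancel₀ _ h2C]
    ring
  have huv : u ^ n = v ^ 1 * (1 - v) ^ 1 := by
    have h4 : (4 : C) ≠ 0 := by
      have : (4 : C) = 2 * 2 := by norm_num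
      rw [this]
      exact mul_ne_zero h2C h2C
    apply mul_left_cancel₀ h4
    rw [hsv] at hs'
    linear_combination hs'
  have hvt : Transcendental Ω v := by
    intro h
    apply hu
    refine IsAlgebraic.of_pow hn ?_
    rw [huv, pow_one, pow_one]
    exact h.mul (isAlgebraic_one.sub h)
  have htop : adjoin Ω {v, u} = ⊤ := by
    rw [eq_top_iff, ← hC, adjoin_le_iff]
    have hvm : v ∈ adjoin Ω {v, u} := subset_adjoin Ω _ (by simp)
    rintro c (rfl | hc)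
    · exact subset_adjoin Ω _ (by simp)
    · rw [Set.mem_singleton_iff] at hc
      rw [hc, hsv]
      have h2m : (2 : C) ∈ adjoin Ω {v, u} := by
        rw [← map_ofNat (algebraMap Ω C) 2]
        exact (adjoin Ω {v, u}).algebraMap_mem _
      exact sub_mem (one_mem _) (mul_mem h2m hvm)
  have hσv : σ v = v := by
    rw [hv, map_div₀, map_sub, map_one, map_ofNat, hσs]
  have hσu' : σ u = algebraMap Ω C ((ζ : Ωˣ) : Ω) * u := hσu
  have hζn : ζ ^ n = 1 := by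
    ext
    rw [Subgroup.coe_pow, Units.val_pow_eq_pow_val, root_pow]
    rfl
  have hξn : ((ψ ζ : Lˣ) : L) ^ n = 1 := by
    rw [← Units.val_pow_eq_pow_val, ← map_pow, hζn, map_one, Units.val_one]
  have hξ2 : ((ψ ζ : Lˣ) : L) ^ 2 ≠ 1 := by
    intro h
    obtain ⟨γ, hγ⟩ := hψ
    apply hγ
    obtain ⟨j, rfl⟩ := root_eq_pow hn hζ γ
    have h3 : ψ ζ ^ 2 = 1 := Units.ext (by rw [Units.val_pow_eq_pow_val, h, Units.val_one])
    rw [map_pow, ← pow_mul, mul_comm j 2, pow_mul, h3, one_pow]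
  have hξ1 : ((ψ ζ : Lˣ) : L) ^ 1 ≠ 1 := by
    intro h
    apply hξ2
    rw [pow_one] at h
    rw [h, one_pow]
  obtain ⟨c, hc0, hc⟩ := T.curve C n 1 1 ((ζ : Ωˣ) : Ω) v u σ hn' hζ hvt huv htop hσv hσu'
    ((ψ ζ : Lˣ) : L) hξn hξ1 hξ1 hξ2
  refine ⟨c, hc0, ?_⟩
  intro γ τ hτu hτs
  obtain ⟨j, hj⟩ := root_eq_pow hn hζ γ
  have hpu : ∀ j : ℕ, (σ ^ j) u = algebraMap Ω C (((ζ : Ωˣ) : Ω) ^ j) * u := by
    intro j
    induction j with
    | zero => simp
    | succ j ih =>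
      rw [pow_succ, AlgHom.mul_apply, hσu', map_mul, ih, AlgHom.commutes, pow_succ, map_mul]
      ring
  have hps : ∀ j : ℕ, (σ ^ j) s = s := by
    intro j
    induction j with
    | zero => simp
    | succ j ih => rw [pow_succ, AlgHom.mul_apply, hσs, ih]
  have hτ : τ = σ ^ j := by
    refine hom_ext {u, s} hC _ _ ?_
    rintro e (rfl | he)
    · rw [hpu, hτu, ← hj]
      show algebraMap Ω C (((ζ ^ j : rootsOfUnity n Ω) : Ωˣ) : Ω) * e = _
      rw [Subgroup.coe_pow, Units.val_pow_eq_pow_val]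
    · rw [Set.mem_singleton_iff] at he
      rw [he, hps, hτs]
  have hpc : ∀ j : ℕ, ((T.map 1 σ : End L (T.H 1 C)) ^ j) c = ((ψ ζ : Lˣ) : L) ^ j • c := by
    intro j
    induction j with
    | zero => simp
    | succ j ih =>
      rw [pow_succ, End.mul_apply, hc, map_smul, ih, smul_smul, pow_succ, mul_comm]
  have hψj : ((ψ0 γ : Lˣ) : L) = ((ψ ζ : Lˣ) : L) ^ j := by
    rw [← Units.val_pow_eq_pow_val, ← map_pow, hj]
    exact congrArg Units.val (hψψ γ).symm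
  rw [hτ, map_pow_end, hpc, hψj]

end Pool.Agent.Helper73.QW
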