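import Pool.Agent.Helper73.QW.Additive
import Pool.Agent.Helper73.QW.Semi

/-!
# The curve `s ^ 2 = A (u)`, `A` an additive polynomial
-/

open IntermediateField Module

namespace Pool.Agent.Helper73.QW

open Pool.Agent.Helper75.QC

theorem curve_additive {p : ℕ} [hp : Fact p.Prime] {Ω L : Type} [Field Ω] [CharP Ω p]
    [IsAlgClosed Ω] [Field L] (T : BaseTheory Ω L) (hT : TranslationCurves p T.toCohomology)
    (hp2 : p ≠ 2) {A : Polynomial Ω} (hA : IsAdditive p A) {k : ℕ} (hk : 0 < k)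
    (hfix : Fixes hA k) : CurveHyp (additive Ω p hp2 hA hk hfix) T := by
  classical
  intro C _ _ u s hu hs hC _ ψ hψ
  have hs' : s ^ 2 = Polynomial.aeval u A := hs
  have hmem : ∀ α : Ω, Polynomial.eval α A = 0 → α ∈ ker hA := by
    intro α hα
    show Polynomial.aeval α A = 0
    rw [Polynomial.aeval_def, Algebra.algebraMap_self, Polynomial.eval₂_id, hα]
  have hmem' : ∀ α : ker hA, Polynomial.eval (α : Ω) A = 0 := by
    intro α
    have h1 : Polynomial.aeval (α : Ω) A = 0 := α.2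
    rwa [Polynomial.aeval_def, Algebra.algebraMap_self, Polynomial.eval₂_id] at h1
  let χ : Multiplicative (ker hA) →* Lˣ := ψ
  obtain ⟨ψ', hψ'⟩ : ∃ ψ' : Ω → L, ∀ α (hα : α ∈ ker hA),
      ψ' α = (χ (Multiplicative.ofAdd (⟨α, hα⟩ : ker hA)) : Lˣ) :=
    ⟨fun α => if hα : α ∈ ker hA then
      (χ (Multiplicative.ofAdd (⟨α, hα⟩ : ker hA)) : Lˣ) else 1, fun α hα => dif_pos hα⟩
  obtain ⟨c, hc0, hc⟩ := hT C A u s ψ' hp2 hA hu hs' hC (by
    intro α β hα hβ
    have hα' := hmem α hα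
    have hβ' := hmem β hβ
    rw [hψ' _ ((ker hA).add_mem hα' hβ'), hψ' _ hα', hψ' _ hβ', ← Units.val_mul, ← map_mul]
    rfl) (by
    rw [hψ' 0 (ker hA).zero_mem]
    have : (Multiplicative.ofAdd (⟨0, (ker hA).zero_mem⟩ : ker hA)) = 1 := rfl
    rw [this, map_one, Units.val_one]) (by
    obtain ⟨γ, hγ⟩ := hψ
    let γ' : Multiplicative (ker hA) := γ
    refine ⟨((Multiplicative.toAdd γ' : ker hA) : Ω), hmem' _, ?_⟩
    rw [hψ' _ (Multiplicative.toAdd γ' : ker hA).2]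
    intro h
    apply hγ
    have h1 : ψ γ = 1 := Units.ext h
    rw [h1, one_pow])
  refine ⟨c, hc0, ?_⟩
  intro γ σ h1 h2
  let γ' : Multiplicative (ker hA) := γ
  have h3 := hc ((Multiplicative.toAdd γ' : ker hA) : Ω) σ (hmem' _) h1 h2
  rw [hψ' _ (Multiplicative.toAdd γ' : ker hA).2] at h3
  exact h3

end Pool.Agent.Helper73.QW
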