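import Pool.Agent.Helper73.QW.Bad
import Pool.Agent.Helper73.QW.CurveK
import Pool.Agent.Helper73.QW.Wild
import Pool.Agent.Helper35.TD.Generic

/-!
# Tate classes on the coverings `h (w) = f (x, y)`, `z ^ 2 = g (x, y)`
-/

open IntermediateField Module

namespace Pool.Agent.Helper73.QW

open Pool.Agent.Helper75.QC Pool.Agent.Helper35.TD

section

variable {p : ℕ} {Ω : Type} [Field Ω] (κ : Kind p Ω)

/-- compatibility with semilinear maps -/
structure GalKind : Prop where
  fix : ∃ A : Set Ω, A.Finite ∧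
    (∀ τ : Ω ≃+* Ω, (∀ a ∈ A, τ a = a) → κ.D.map (τ : Ω →+* Ω) = κ.D) ∧
    ∀ (E : Type) [Field E] [Algebra Ω E] (τ : Ω ≃+* Ω) (γ : E →+* E),
      (∀ a ∈ A, τ a = a) → IsOver τ γ → ∀ (g : κ.Γ) (e : E), γ (κ.op g e) = κ.op g (γ e)

variable {κ}

/-- semilinear maps of the curve `s ^ 2 = D (u)` -/
theorem exists_semilinear (D : Polynomial Ω) {C : Type} [Field C] [i : Algebra Ω C] (u s : C)
    (hu : Transcendental Ω u) (hs : s ^ 2 = Polynomial.aeval u D)
    (huniv : ∀ (E : Type) [Field E] [Algebra Ω E] (u' s' : E), Transcendental Ω u' →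
      s' ^ 2 = Polynomial.aeval u' D → ∃ τ : C →ₐ[Ω] E, τ u = u' ∧ τ s = s')
    (τ : Ω ≃+* Ω) (hD : D.map (τ : Ω →+* Ω) = D) :
    ∃ γ : C →+* C, IsOver τ γ ∧ γ u = u ∧ γ s = s := by
  let j : Algebra Ω C := ((algebraMap Ω C).comp (τ : Ω →+* Ω)).toAlgebra
  have hae : ∀ P : Polynomial Ω, @Polynomial.aeval Ω C _ _ j u P =
      @Polynomial.aeval Ω C _ _ i u (P.map (τ : Ω →+* Ω)) := by
    intro P
    rw [@Polynomial.aeval_def Ω C _ _ j, @Polynomial.aeval_def Ω C _ _ i, Polynomial.eval₂_map]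
    rfl
  have hu' : @Transcendental Ω C _ _ j u := by
    rintro ⟨P, hP0, hP⟩
    rw [hae] at hP
    exact hu ⟨P.map (τ : Ω →+* Ω), (Polynomial.map_ne_zero_iff τ.injective).2 hP0, hP⟩
  obtain ⟨γ, h1, h2⟩ := @huniv C _ j u s hu' (by rw [hae, hD]; exact hs)
  exact ⟨@AlgHom.toRingHom Ω C C _ _ _ i j γ, fun a => @AlgHom.commutes Ω C C _ _ _ i j γ a, h1,
    h2⟩

end

section

variable {p : ℕ} {F Ω L : Type} [Field F] [Field Ω] [Algebra F Ω] [Algebra.IsAlgebraic F Ω]
    [Field L] {κ : Kind p Ω} {K : Type} [Field K] [Algebra Ω K] {f g x y w z : K}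

theorem Cover.noTate [CharZero L] [IsAlgClosed L] (T : GaloisTheory F Ω L)
    (hC : Cover κ f g x y w z) (h2 : (2 : Ω) ≠ 0) (hG : Geo κ f g x y)
    (hcurve : CurveHyp κ T.toBaseTheory) (hκ : GalKind κ) : NoTate T K := by
  classical
  intro U hU γ hγ t ht
  have h2K : (2 : K) ≠ 0 := by
    intro h
    apply h2
    apply (algebraMap Ω K).injective
    rw [map_ofNat, h, map_zero]
  have hfin : (⊤ : IntermediateField Ω K).FG := by
    rw [← hC.top]
    exact fg_adjoin_of_finite (Set.toFinite _)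
  have : FiniteDimensional L (T.H 2 K) := T.fin 2 K hfin
  obtain ⟨V, hVU, hV, hfix⟩ := fixed_open_set {a : K | ∀ τ ∈ U, γ τ a = a} U hU γ hγ.1
    (fun τ hτ s hs => hs τ hτ) {x, y, w, z} (fun k _ => by
      rw [hγ.2]; exact mem_top)
  simp only [Finset.mem_insert, Finset.mem_singleton, forall_eq_or_imp, forall_eq] at hfix
  obtain ⟨A, hA, hD, hop⟩ := hκ.fix
  obtain ⟨V', hV', hfixA⟩ := exists_open_set (F := F) A hA
  obtain ⟨W, hW⟩ : ∃ W, W = V ⊓ V' := ⟨_, rfl⟩
  have hWV : W ≤ V := by rw [hW]; exact inf_le_left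
  have hWV' : W ≤ V' := by rw [hW]; exact inf_le_right
  have hWo : IsOpen (W : Set (Ω ≃ₐ[F] Ω)) := by
    rw [hW]
    exact hV.inter hV'
  have hover : ∀ τ ∈ W, IsOver (τ : Ω ≃+* Ω) (γ τ) := fun τ hτ => hγ.1 τ (hVU (hWV hτ))
  -- the action commutes with the group
  have hcomm : ∀ τ ∈ W, ∀ (σ : Gp Ω x y) (r : T.H 2 K),
      T.act 2 (γ τ) (T.map 2 (toHom σ) r) = T.map 2 (toHom σ) (T.act 2 (γ τ) r) := by
    intro τ hτ σ r
    obtain ⟨e1, e2, e3, e4⟩ := hfix τ (hWV hτ)
    refine T.act_comm 2 {x, y, w, z} hC.top (τ : Ω ≃+* Ω) (γ τ) (hover τ hτ) (toHom σ) ?_ r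
    rintro c (rfl | rfl | rfl | hc)
    · rw [toHom_x, e1, toHom_x]
    · rw [toHom_y, e2, toHom_y]
    · rw [e3, hC.gam_spec, hop K (τ : Ω ≃+* Ω) (γ τ) (fun a ha => hfixA τ (hWV' hτ) a ha)
        (hover τ hτ), e3]
    · rw [Set.mem_singleton_iff] at hc
      rw [hc, e4, hC.sgn_spec, map_mul, map_intCast, e4]
  obtain ⟨P, hP⟩ : ∃ P : Submodule L (T.H 2 K), ∀ t, t ∈ P ↔ ∀ τ ∈ W,
      T.act 2 (γ τ) t = ((T.cyc τ)⁻¹ : Lˣ) • t :=
    ⟨{ carrier := {t | ∀ τ ∈ W, T.act 2 (γ τ) t = ((T.cyc τ)⁻¹ : Lˣ) • t}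
       add_mem' := fun {a b} ha hb τ hτ => by rw [map_add, ha τ hτ, hb τ hτ, smul_add]
       zero_mem' := fun τ _ => by rw [map_zero, smul_zero]
       smul_mem' := fun c a ha τ hτ => by rw [map_smul, ha τ hτ, smul_comm] },
      fun t => Iff.rfl⟩
  have hPst : ∀ (σ : Gp Ω x y), ∀ r ∈ P, T.map 2 (toHom σ) r ∈ P := by
    intro σ r hr
    rw [hP] at hr ⊢
    intro τ hτ
    rw [hcomm τ hτ, hr τ hτ, Units.smul_def, Units.smul_def, map_smul]
  let ρ : Gp Ω x y →* End L P :=
    { toFun := fun σ => (T.map 2 (toHom σ)).restrict (hPst σ)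
      map_one' := by
        ext r
        show T.map 2 (toHom (1 : Gp Ω x y)) (r : T.H 2 K) = r
        rw [toHom_one, T.map_id]
        rfl
      map_mul' := fun σ τ => by
        ext r
        show T.map 2 (toHom (σ * τ)) (r : T.H 2 K) = T.map 2 (toHom σ) (T.map 2 (toHom τ) r)
        rw [toHom_mul, T.map_comp]
        rfl }
  have := (hC.galois h2).1
  have : Finite (Gp Ω x y) := inferInstance
  have key : (⊥ : Submodule L P) = ⊤ := by
    refine top_of_group ρ (fun σ τ => ?_) ⊥ ?_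
    · show ρ σ * ρ τ = ρ τ * ρ σ
      rw [← map_mul, ← map_mul, hC.comm]
    · intro χ r hr
      rw [Submodule.mem_bot]
      apply Subtype.ext
      obtain ⟨χ', hχ'⟩ := exists_extension (hC.iota h2K) (hC.iota_injective h2K) χ
      obtain ⟨ψ, hψ⟩ : ∃ ψ : κ.Γ →* Lˣ, ψ = χ'.comp (MonoidHom.inl κ.Γ ℤˣ) := ⟨_, rfl⟩
      obtain ⟨δ, hδ⟩ : ∃ δ : ℤˣ →* Lˣ, δ = χ'.comp (MonoidHom.inr κ.Γ ℤˣ) := ⟨_, rfl⟩
      have hχ : ∀ τ : Gp Ω x y, χ τ = ψ (hC.gam τ) * δ (hC.sgn τ) := by
        intro τ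
        rw [← hχ', hψ, hδ, MonoidHom.comp_apply, MonoidHom.comp_apply, ← map_mul]
        congr 1
        simp [Cover.iota]
      have ht' : ∀ τ : Gp Ω x y, T.map 2 (toHom τ) (r : T.H 2 K) =
          ((ψ (hC.gam τ) * δ (hC.sgn τ) : Lˣ) : L) • (r : T.H 2 K) := by
        intro τ
        rw [← hχ τ]
        exact congrArg Subtype.val (hr τ)
      by_cases h : ∀ γ, ψ γ ^ 2 = 1
      · exact hC.bad_zero T.toBaseTheory h2 hG ψ δ h r ht'
      push Not at h
      obtain ⟨C, N, iC, jC, iN, jN, u, s, a, b, hu, hs, hCt, hb, hN, huniv⟩ :=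
        exists_curve κ.D κ.D_deg (fun F => κ.D_sqf) K
      have hs0 : s ≠ 0 := by
        rintro rfl
        rw [zero_pow two_ne_zero] at hs
        exact hu ⟨κ.D, fun h => by
          have := κ.D_deg
          rw [h, Polynomial.natDegree_zero] at this
          exact this.false, hs.symm⟩
      have hsig : ∀ (γ : κ.Γ) (ε : ℤˣ), ∃ τ : C →ₐ[Ω] C, τ u = κ.op γ u ∧
          τ s = ((ε : ℤ) : C) * s := by
        intro γ ε
        refine huniv C _ _ (κ.op_transcendental γ hu) ?_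
        rw [κ.D_op, ← hs, mul_pow]
        rcases Int.units_eq_one_or ε with h | h
        · rw [h]
          simp
        · rw [h]
          simp
      have hfinC : (⊤ : IntermediateField Ω C).FG := by
        rw [← hCt]
        exact fg_adjoin_of_finite (Set.toFinite _)
      obtain ⟨c, hc0, hc⟩ := hcurve C u s hu hs hCt (fun γ => by
        obtain ⟨τ, h3, h4⟩ := hsig γ 1
        exact ⟨τ, h3, by rw [h4]; simp⟩) ψ⁻¹ (by
        obtain ⟨γ, hγ⟩ := h
        refine ⟨γ, fun h => hγ ?_⟩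
        rw [MonoidHom.inv_apply, inv_pow, inv_eq_one] at h
        exact h)
      have hcup := hC.cross_zero T.toBaseTheory h2 hG ψ δ u s hs hs0 hCt a b hb hN hsig c
        (fun γ σ h1 h3 => by
          have h4 := hc γ σ h1 h3
          rw [MonoidHom.inv_apply, Units.val_inv_eq_inv_val] at h4
          exact h4) (r : T.H 2 K) ht'
      have hex : ∀ τ : Ω ≃ₐ[F] Ω, ∃ γ' : C →+* C, τ ∈ W →
          IsOver (τ : Ω ≃+* Ω) γ' ∧ γ' u = u ∧ γ' s = s := by
        intro τ
        by_cases hτ : τ ∈ W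
        · obtain ⟨γ', h3⟩ := exists_semilinear κ.D u s hu hs huniv (τ : Ω ≃+* Ω)
            (hD _ fun a ha => hfixA τ (hWV' hτ) a ha)
          exact ⟨γ', fun _ => h3⟩
        · exact ⟨RingHom.id C, fun h => absurd h hτ⟩
      choose γ' hγ' using hex
      refine T.eq_zero_of_cup a b x y u W γ γ' hfin hfinC ?_ ?_ hb hWo ?_ ?_ (r : T.H 2 K)
        ((hP _).1 r.2) c hc0 hcup
      · intro k
        exact Algebra.IsAlgebraic.isAlgebraic k
      · intro k
        rw [← mem_AF]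
        have h1 : adjoin Ω {u, s} ≤ AF Ω {u} := by
          rw [adjoin_le_iff]
          have hvm : u ∈ AF Ω {u} := subset_AF _ (by simp)
          rintro v (rfl | hv)
          · exact hvm
          · rw [Set.mem_singleton_iff] at hv
            rw [hv]
            apply AF_root two_pos
            rw [hs]
            have h3 := Polynomial.aeval_mem_adjoin_singleton (p := κ.D) Ω u
            have h4 : Algebra.adjoin Ω {u} ≤ (AF Ω {u}).toSubalgebra := by
              rw [Algebra.adjoin_le_iff, Set.singleton_subset_iff]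
              exact hvm
            exact h4 h3
        apply h1
        rw [hCt]
        exact mem_top
      · refine isForm_of_gens hover {x, y, w, z} hC.top ?_
        intro τ hτ k hk
        obtain ⟨e1, e2, e3, e4⟩ := hfix τ (hWV hτ)
        rcases hk with rfl | rfl | rfl | hk
        · exact e1
        · exact e2
        · exact e3
        · rw [Set.mem_singleton_iff] at hk
          rw [hk]
          exact e4
      · refine isForm_of_gens (fun τ hτ => (hγ' τ hτ).1) {u, s} hCt ?_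
        intro τ hτ k hk
        rcases hk with rfl | hk
        · exact (hγ' τ hτ).2.1
        · rw [Set.mem_singleton_iff] at hk
          rw [hk]
          exact (hγ' τ hτ).2.2
  have hmem : t ∈ P := (hP t).2 fun τ hτ => ht τ (hVU (hWV hτ))
  have h3 : (⟨t, hmem⟩ : P) ∈ (⊥ : Submodule L P) := by
    rw [key]
    exact Submodule.mem_top
  exact congrArg Subtype.val ((Submodule.mem_bot L).1 h3)

end

end Pool.Agent.Helper73.QW
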