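import Pool.Agent.Helper73.QW.Semi
import Pool.Agent.Helper35.TD.Form

/-!
# Relative Frobenius endomorphisms over the algebraic closure of the field with `p` elements
-/

open IntermediateField Module

namespace Pool.Agent.Helper73.QW

open Pool.Agent.Helper75.QC

section

variable {p : ℕ} [hp : Fact p.Prime] {Ω : Type} [Field Ω] [CharP Ω p]

theorem pow_pow_of {K : Type} [Monoid K] {c : K} {q n : ℕ} (h : c ^ q ^ n = c) (j : ℕ) :
    c ^ q ^ (n * j) = c := by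
  induction j with
  | zero => simp
  | succ j ih => rw [mul_add, mul_one, pow_add, pow_mul, ih, h]

theorem end_pow_mul {K : Type} [Field K] [Algebra Ω K] (φ : K →ₐ[Ω] K) {q n : ℕ} {a : K}
    (h : (φ ^ n) a = a ^ q ^ n) (j : ℕ) : (φ ^ (n * j)) a = a ^ q ^ (n * j) := by
  induction j with
  | zero => simp
  | succ j ih =>
    rw [mul_add, mul_one, pow_add, AlgHom.mul_apply, h, map_pow, ih, ← pow_mul, ← pow_add, add_comm]

/-- a power of a relative Frobenius is the power map at a given element -/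
theorem exists_pow_eq (halg : ∀ c : Ω, ∃ n : ℕ, 0 < n ∧ c ^ p ^ n = c) {K : Type} [Field K]
    [Algebra Ω K] {e : ℕ} (φ : K →ₐ[Ω] K) (h : IsFrob (p ^ e) φ) (k : K) :
    ∃ m : ℕ, 0 < m ∧ (φ ^ m) k = k ^ (p ^ e) ^ m := by
  have : CharP K p := charP_of_injective_algebraMap (algebraMap Ω K).injective p
  have hk : k ∈ adjoin Ω {a : K | φ a = a ^ p ^ e} := by
    have h1 : adjoin Ω {a : K | φ a = a ^ p ^ e} = ⊤ := h
    rw [h1]
    exact mem_top
  induction hk using adjoin_induction with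
  | mem k hk =>
    refine ⟨1, one_pos, ?_⟩
    rw [pow_one, pow_one]
    exact hk
  | algebraMap c =>
    obtain ⟨n, hn, hc⟩ := halg c
    refine ⟨n, hn, ?_⟩
    rw [AlgHom.commutes, ← map_pow, ← pow_mul, mul_comm e n, pow_pow_of hc]
  | add a b _ _ ha hb =>
    obtain ⟨m, hm, ha⟩ := ha
    obtain ⟨n, hn, hb⟩ := hb
    refine ⟨m * n, Nat.mul_pos hm hn, ?_⟩
    rw [map_add, end_pow_mul φ ha n, mul_comm m n, end_pow_mul φ hb m, ← pow_mul,
      add_pow_char_pow]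
  | inv a _ ha =>
    obtain ⟨m, hm, ha⟩ := ha
    exact ⟨m, hm, by rw [map_inv₀, ha, inv_pow]⟩
  | mul a b _ _ ha hb =>
    obtain ⟨m, hm, ha⟩ := ha
    obtain ⟨n, hn, hb⟩ := hb
    refine ⟨m * n, Nat.mul_pos hm hn, ?_⟩
    rw [map_mul, end_pow_mul φ ha n, mul_comm m n, end_pow_mul φ hb m, mul_pow]

/-- the same for finitely many elements -/
theorem exists_pow_eq_set (halg : ∀ c : Ω, ∃ n : ℕ, 0 < n ∧ c ^ p ^ n = c) {K : Type} [Field K]
    [Algebra Ω K] {e : ℕ} (φ : K →ₐ[Ω] K) (h : IsFrob (p ^ e) φ) (Q : Finset K) :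
    ∃ m : ℕ, 0 < m ∧ ∀ k ∈ Q, (φ ^ m) k = k ^ (p ^ e) ^ m := by
  classical
  induction Q using Finset.induction_on with
  | empty => exact ⟨1, one_pos, fun k hk => absurd hk (Finset.notMem_empty k)⟩
  | insert a Q _ ih =>
    obtain ⟨m, hm, ih⟩ := ih
    obtain ⟨n, hn, ha⟩ := exists_pow_eq halg φ h a
    refine ⟨m * n, Nat.mul_pos hm hn, fun k hk => ?_⟩
    rcases Finset.mem_insert.1 hk with rfl | hk
    · rw [mul_comm m n]
      exact end_pow_mul φ ha m
    · exact end_pow_mul φ (ih k hk) n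

end

/-- every finitely generated field has a relative Frobenius -/
theorem exists_relFrob {p : ℕ} [hp : Fact p.Prime] {Ω : Type} [Field Ω] [Algebra (ZMod p) Ω]
    [Algebra.IsAlgebraic (ZMod p) Ω] [PerfectRing Ω p] {K : Type} [Field K] [Algebra Ω K]
    (S : Set K) (hS : S.Finite) (hK : adjoin Ω S = ⊤) :
    ∃ (n : ℕ) (φ : K →ₐ[Ω] K), 0 < n ∧ ∀ s ∈ S, φ s = s ^ p ^ n := by
  classical
  have hcΩ : CharP Ω p := charP_of_injective_algebraMap (algebraMap (ZMod p) Ω).injective p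
  have hcK : CharP K p := charP_of_injective_algebraMap (algebraMap Ω K).injective p
  obtain ⟨m, s, hs⟩ : ∃ (m : ℕ) (s : Fin m → K), Set.range s = S := by
    have := hS.fintype
    refine ⟨Fintype.card S, fun i => ((Fintype.equivFin S).symm i : K), ?_⟩
    ext k
    constructor
    · rintro ⟨i, rfl⟩
      exact ((Fintype.equivFin S).symm i).2
    · intro hk
      exact ⟨Fintype.equivFin S ⟨k, hk⟩, by simp⟩
  obtain ⟨U, hU, γ, hγ⟩ := Pool.Agent.Helper35.TD.exists_form (F := ZMod p) s (by rw [hs, hK])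
  obtain ⟨E, hE, hEU⟩ := (krullTopology_mem_nhds_one_iff (ZMod p) Ω (U : Set (Ω ≃ₐ[ZMod p] Ω))).1
    (hU.mem_nhds U.one_mem)
  have : Finite E := Module.finite_of_finite (ZMod p)
  have : Fintype E := Fintype.ofFinite E
  have : CharP E p := charP_of_injective_algebraMap (algebraMap (ZMod p) E).injective p
  obtain ⟨d, -, hd⟩ := FiniteField.card E p
  have hd0 : 0 < (d : ℕ) := d.pos
  -- the power of the Frobenius automorphism
  obtain ⟨τ, hτ⟩ : ∃ τ : Ω ≃ₐ[ZMod p] Ω, ∀ a, τ a = a ^ p ^ (d : ℕ) :=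
    ⟨AlgEquiv.ofRingEquiv (f := iterateFrobeniusEquiv Ω p d) (fun a => by
      rw [iterateFrobeniusEquiv_def, ← map_pow, ZMod.pow_card_pow]), fun a => by
        show iterateFrobeniusEquiv Ω p d a = _
        rw [iterateFrobeniusEquiv_def]⟩
  have hτU : τ ∈ U := by
    apply hEU
    rw [SetLike.mem_coe, IntermediateField.mem_fixingSubgroup_iff]
    intro c hc
    show τ c = c
    rw [hτ, ← hd]
    have h1 := FiniteField.pow_card (⟨c, hc⟩ : E)
    exact congrArg Subtype.val h1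
  have hτi := U.inv_mem hτU
  have hfr : ∀ c : Ω, (τ⁻¹ : Ω ≃ₐ[ZMod p] Ω) (c ^ p ^ (d : ℕ)) = c := by
    intro c
    rw [← hτ, ← AlgEquiv.mul_apply, inv_mul_cancel]
    rfl
  refine ⟨d, { ((γ τ⁻¹).comp (iterateFrobenius K p d)) with
    commutes' := fun c => ?_ }, hd0, ?_⟩
  · show γ τ⁻¹ (iterateFrobenius K p d (algebraMap Ω K c)) = algebraMap Ω K c
    rw [iterateFrobenius_def, ← map_pow (algebraMap Ω K)]
    have h1 := (hγ τ⁻¹ hτi).1 (c ^ p ^ (d : ℕ))
    rw [h1]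
    exact congrArg (algebraMap Ω K) (hfr c)
  · intro k hk
    rw [← hs] at hk
    obtain ⟨i, rfl⟩ := hk
    show γ τ⁻¹ (iterateFrobenius K p d (s i)) = _
    rw [iterateFrobenius_def, map_pow, (hγ τ⁻¹ hτi).2 i]

/-- compatible Frobenius endomorphisms -/
theorem exists_compatible {p : ℕ} [hp : Fact p.Prime] {Ω : Type} [Field Ω] [Algebra (ZMod p) Ω]
    [Algebra.IsAlgebraic (ZMod p) Ω] [PerfectRing Ω p] {K₀ K : Type} [Field K] [Algebra Ω K]
    [Field K₀] [Algebra Ω K₀] (S : Set K) (hS : S.Finite) (hK : adjoin Ω S = ⊤)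
    (hK₀ : (⊤ : IntermediateField Ω K₀).FG) (ι : K₀ →ₐ[Ω] K) {e : ℕ}
    (φ₀ : K₀ →ₐ[Ω] K₀) (h₀ : IsFrob (p ^ e) φ₀) :
    ∃ (m : ℕ) (φ : K →ₐ[Ω] K), 0 < m ∧ (∀ s ∈ S, φ s = s ^ p ^ (e * m)) ∧
      ∀ a, φ (ι a) = ι ((φ₀ ^ m) a) := by
  classical
  have hcΩ : CharP Ω p := charP_of_injective_algebraMap (algebraMap (ZMod p) Ω).injective p
  have halg : ∀ c : Ω, ∃ n : ℕ, 0 < n ∧ c ^ p ^ n = c := by
    intro c
    have hc : IsIntegral (ZMod p) c := Algebra.IsIntegral.isIntegral c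
    have : FiniteDimensional (ZMod p) (ZMod p)⟮c⟯ := adjoin.finiteDimensional hc
    have : Finite (ZMod p)⟮c⟯ := Module.finite_of_finite (ZMod p)
    have : Fintype (ZMod p)⟮c⟯ := Fintype.ofFinite _
    have : CharP (ZMod p)⟮c⟯ p :=
      charP_of_injective_algebraMap (algebraMap (ZMod p) (ZMod p)⟮c⟯).injective p
    obtain ⟨d, -, hd⟩ := FiniteField.card (ZMod p)⟮c⟯ p
    refine ⟨d, d.pos, ?_⟩
    rw [← hd]
    exact congrArg Subtype.val
      (FiniteField.pow_card (⟨c, mem_adjoin_simple_self (ZMod p) c⟩ : (ZMod p)⟮c⟯))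
  obtain ⟨n, φK, hn, hφK⟩ := exists_relFrob (p := p) S hS hK
  have hFrob : IsFrob (p ^ n) φK := by
    unfold IsFrob
    rw [eq_top_iff, ← hK]
    exact adjoin.mono _ _ _ hφK
  obtain ⟨Q, hQ⟩ := hK₀
  obtain ⟨m₀, hm₀, h1⟩ := exists_pow_eq_set halg φ₀ h₀ Q
  obtain ⟨m₁, hm₁, h2⟩ := exists_pow_eq_set halg φK hFrob (Q.image ι)
  refine ⟨m₀ * (n * m₁), φK ^ (m₁ * (e * m₀)), Nat.mul_pos hm₀ (Nat.mul_pos hn hm₁), ?_, ?_⟩
  · intro s hs
    have h3 : φK s = s ^ p ^ n := hφK s hs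
    rw [end_pow φK h3]
    congr 2
    ring
  · have h3 : (φK ^ (m₁ * (e * m₀))).comp ι = ι.comp (φ₀ ^ (m₀ * (n * m₁))) := by
      refine hom_ext (Q : Set K₀) hQ _ _ ?_
      intro b hb
      rw [AlgHom.comp_apply, AlgHom.comp_apply,
        end_pow_mul φK (h2 (ι b) (Finset.mem_image_of_mem _ hb)) (e * m₀),
        end_pow_mul φ₀ (h1 b hb) (n * m₁), map_pow]
      congr 1
      rw [← pow_mul, ← pow_mul]
      congr 1
      ring
    exact fun a => DFunLike.congr_fun h3 a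

end Pool.Agent.Helper73.QW
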