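import Pool.Agent.Helper75.QC.Defs

/-!
# Covers of pencils of plane curves: the definitions
-/

open IntermediateField

namespace Pool.Agent.Helper73.QW

open Pool.Agent.Helper75.QC

/-- `A = a₀ X + a₁ X ^ p + … + aₘ X ^ (p ^ m)`, `a₀ aₘ ≠ 0`, `m > 0` -/
def IsAdditive (p : ℕ) {Ω : Type} [Field Ω] (A : Polynomial Ω) : Prop :=
  ∃ (m : ℕ) (a : ℕ → Ω), 0 < m ∧ a 0 ≠ 0 ∧ a m ≠ 0 ∧
    A = ∑ i ∈ Finset.range (m + 1), Polynomial.C (a i) * Polynomial.X ^ p ^ i

/-- For an additive polynomial `A`, `p ≠ 2`, every nontrivial character `ψ` of the group of the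
translations `u ↦ u + α`, `A (α) = 0`, occurs in the first cohomology of the curve
`s ^ 2 = A (u)`. -/
def TranslationCurves (p : ℕ) {Ω L : Type} [Field Ω] [Field L] (T : Cohomology Ω L) : Prop :=
  ∀ (C : Type) [Field C] [Algebra Ω C] (A : Polynomial Ω) (u s : C) (ψ : Ω → L), p ≠ 2 →
    IsAdditive p A → Transcendental Ω u → s ^ 2 = Polynomial.aeval u A → adjoin Ω {u, s} = ⊤ →
    (∀ α β, Polynomial.eval α A = 0 → Polynomial.eval β A = 0 → ψ (α + β) = ψ α * ψ β) →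
    ψ 0 = 1 → (∃ α, Polynomial.eval α A = 0 ∧ ψ α ≠ 1) →
    ∃ z : T.H 1 C, z ≠ 0 ∧ ∀ (α : Ω) (σ : C →ₐ[Ω] C), Polynomial.eval α A = 0 →
      σ u = u + algebraMap Ω C α → σ s = s → T.map 1 σ z = ψ α • z

/-- The properties of `Theory` and the first cohomology of the curves `s ^ 2 = A (u)`. -/
structure WildTheory (p : ℕ) (Ω L : Type) [Field Ω] [Field L] extends Theory p Ω L where
  additive : TranslationCurves p toCohomology

/-- the degree of a polynomial in two variables for the weights `1, k` -/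
def wdeg {R : Type} [CommSemiring R] (k : ℕ) (P : MvPolynomial (Fin 2) R) : ℕ :=
  P.support.sup fun m => m 0 + k * m 1

/-- the value of a polynomial at `x, y` -/
noncomputable def val {Ω K : Type} [Field Ω] [Field K] [Algebra Ω K] (P : MvPolynomial (Fin 2) Ω)
    (x y : K) : K := MvPolynomial.aeval ![x, y] P

/-- `K = Ω(x, y, w)`, `φ (w) = f (x, y) / g (x, y) ^ 2`, where `φ = X ^ n` or `φ` is an additive
polynomial, `deg f ≤ 2 k + 2`, `deg g ≤ k + 1` for the weights `1, k` of `x, y`, `k ≤ 2`. -/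
def IsPlaneCover (p : ℕ) (Ω K : Type) [Field Ω] [Field K] [Algebra Ω K] : Prop :=
  ∃ (k : ℕ) (f g : MvPolynomial (Fin 2) Ω) (φ : Polynomial Ω) (x y w : K), k ≤ 2 ∧
    wdeg k f ≤ 2 * k + 2 ∧ wdeg k g ≤ k + 1 ∧ g ≠ 0 ∧
    ((∃ n : ℕ, 0 < n ∧ φ = Polynomial.X ^ n) ∨ IsAdditive p φ) ∧
    AlgebraicIndependent Ω ![x, y] ∧ adjoin Ω {x, y, w} = ⊤ ∧
    Polynomial.aeval w φ = val f x y / val g x y ^ 2

end Pool.Agent.Helper73.QW
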