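import Pool.Agent.Helper73.QW.Kind
import Pool.Agent.Helper73.QW.Defs

/-!
# The covering `w ↦ A (w)`, `A` a separable additive polynomial
-/

open Polynomial

namespace Pool.Agent.Helper73.QW

section

variable {Ω : Type} [Field Ω] {p : ℕ} [hp : Fact p.Prime] [CharP Ω p] {A : Polynomial Ω}

theorem IsAdditive.aeval_add (hA : IsAdditive p A) {E : Type} [Field E] [Algebra Ω E] (c d : E) :
    aeval (c + d) A = aeval c A + aeval d A := by
  have : CharP E p := charP_of_injective_algebraMap (algebraMap Ω E).injective p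
  obtain ⟨m, a, -, -, -, rfl⟩ := hA
  simp only [map_sum, map_mul, map_pow, aeval_X, aeval_C]
  rw [← Finset.sum_add_distrib]
  refine Finset.sum_congr rfl fun i _ => ?_
  rw [add_pow_char_pow, mul_add]

theorem IsAdditive.aeval_zero (hA : IsAdditive p A) {E : Type} [Field E] [Algebra Ω E] :
    aeval (0 : E) A = 0 := by
  have h := hA.aeval_add (0 : E) 0
  rw [add_zero] at h
  exact left_eq_add.1 h

theorem IsAdditive.aeval_neg (hA : IsAdditive p A) {E : Type} [Field E] [Algebra Ω E] (c : E) :
    aeval (-c) A = - aeval c A := by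
  have h := hA.aeval_add c (-c)
  rw [add_neg_cancel, hA.aeval_zero] at h
  exact (neg_eq_of_add_eq_zero_right h.symm).symm

theorem IsAdditive.aeval_sub (hA : IsAdditive p A) {E : Type} [Field E] [Algebra Ω E] (c d : E) :
    aeval (c - d) A = aeval c A - aeval d A := by
  rw [sub_eq_add_neg, hA.aeval_add, hA.aeval_neg, ← sub_eq_add_neg]

theorem IsAdditive.derivative (hA : IsAdditive p A) :
    ∃ c : Ω, c ≠ 0 ∧ derivative A = C c := by
  obtain ⟨m, a, -, h0, -, rfl⟩ := hA
  refine ⟨a 0, h0, ?_⟩
  rw [derivative_sum, Finset.sum_range_succ']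
  have h1 : ∀ i ∈ Finset.range m, Polynomial.derivative (C (a (i + 1)) * X ^ p ^ (i + 1)) = 0 := by
    intro i _
    rw [derivative_C_mul, derivative_X_pow]
    simp only [Nat.cast_pow, CharP.cast_eq_zero, zero_pow (Nat.succ_ne_zero i), map_zero,
      zero_mul, mul_zero]
  rw [Finset.sum_eq_zero h1]
  simp

theorem IsAdditive.separable (hA : IsAdditive p A) {E : Type} [Field E] [Algebra Ω E] (c : E) :
    (A.map (algebraMap Ω E) - C c).Separable := by
  obtain ⟨d, hd, h⟩ := hA.derivative
  rw [separable_def, derivative_sub, derivative_C, sub_zero, derivative_map, h, map_C]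
  refine ⟨0, C (algebraMap Ω E d)⁻¹, ?_⟩
  rw [zero_mul, zero_add, ← C_mul, inv_mul_cancel₀ ((map_ne_zero (algebraMap Ω E)).2 hd), C_1]

theorem IsAdditive.natDegree_pos (hA : IsAdditive p A) : 0 < A.natDegree := by
  obtain ⟨m, a, hm, h0, ham, rfl⟩ := hA
  have h1 : (∑ i ∈ Finset.range (m + 1), C (a i) * X ^ p ^ i : Polynomial Ω).coeff (p ^ m) ≠ 0 := by
    rw [finsetSum_coeff, Finset.sum_eq_single m]
    · rw [coeff_C_mul, coeff_X_pow, if_pos rfl, mul_one]
      exact ham
    · intro i _ hi
      rw [coeff_C_mul, coeff_X_pow, if_neg, mul_zero]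
      intro h
      exact hi (Nat.pow_right_injective hp.out.two_le h).symm
    · intro h
      exact absurd (Finset.mem_range.2 (Nat.lt_succ_self m)) h
  exact (pow_pos hp.out.pos m).trans_le (le_natDegree_of_ne_zero h1)

theorem IsAdditive.ne_zero (hA : IsAdditive p A) : A ≠ 0 := by
  intro h
  have := hA.natDegree_pos
  rw [h, natDegree_zero] at this
  exact this.false

/-- the kernel -/
def ker (hA : IsAdditive p A) : AddSubgroup Ω where
  carrier := {α | aeval α A = 0}
  zero_mem' := hA.aeval_zero
  add_mem' := fun {a b} ha hb => by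
    show aeval (a + b) A = 0
    have ha' : aeval a A = 0 := ha
    have hb' : aeval b A = 0 := hb
    rw [hA.aeval_add, ha', hb', add_zero]
  neg_mem' := fun {a} ha => by
    show aeval (-a) A = 0
    have ha' : aeval a A = 0 := ha
    rw [hA.aeval_neg, ha', neg_zero]

theorem mem_ker (hA : IsAdditive p A) (α : ker hA) : aeval (α : Ω) A = 0 := α.2

theorem finite_ker (hA : IsAdditive p A) : Finite (ker hA) := by
  classical
  have h1 : ((ker hA : AddSubgroup Ω) : Set Ω) ⊆ (A.roots.toFinset : Set Ω) := by
    intro α hα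
    have hα' : aeval α A = 0 := hα
    simp only [Finset.mem_coe, Multiset.mem_toFinset]
    rw [mem_roots hA.ne_zero, IsRoot.def]
    rwa [aeval_def, Algebra.algebraMap_self, eval₂_id] at hα'
  exact Set.Finite.subset (Finset.finite_toSet _) h1

theorem mem_range_of_root [IsAlgClosed Ω] (hA : IsAdditive p A) {E : Type} [Field E]
    [Algebra Ω E] {δ : E} (h : aeval δ A = 0) : ∃ α : ker hA, algebraMap Ω E α = δ := by
  have hint : IsIntegral Ω δ := isAlgebraic_iff_isIntegral.1 ⟨A, hA.ne_zero, h⟩
  have hmem : δ ∈ IntermediateField.adjoin Ω {δ} := IntermediateField.mem_adjoin_simple_self Ω _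
  have := IntermediateField.isAlgebraic_adjoin_simple hint
  rw [IntermediateField.eq_bot_of_isAlgClosed_of_isAlgebraic (IntermediateField.adjoin Ω {δ}),
    IntermediateField.mem_bot] at hmem
  obtain ⟨α, hα⟩ := hmem
  refine ⟨⟨α, ?_⟩, hα⟩
  show aeval α A = 0
  apply (algebraMap Ω E).injective
  rw [map_zero, ← h, ← hα, aeval_algebraMap_apply]

/-- the coefficients and the roots of `A` are fixed by the `p ^ k`-th power map -/
def Fixes (hA : IsAdditive p A) (k : ℕ) : Prop :=
  A.map (iterateFrobenius Ω p k) = A ∧ ∀ α : ker hA, (α : Ω) ^ p ^ k = α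

theorem pow_pow_mul {M : Type} [Monoid M] {c : M} {q n : ℕ} (h : c ^ q ^ n = c) (j : ℕ) :
    c ^ q ^ (n * j) = c := by
  induction j with
  | zero => simp
  | succ j ih => rw [mul_add, mul_one, pow_add, pow_mul, ih, h]

theorem exists_fixes (halg : ∀ c : Ω, ∃ n : ℕ, 0 < n ∧ c ^ p ^ n = c) (hA : IsAdditive p A) :
    ∃ k : ℕ, 0 < k ∧ Fixes hA k := by
  classical
  have hset : ∀ S : Finset Ω, ∃ k : ℕ, 0 < k ∧ ∀ c ∈ S, c ^ p ^ k = c := by
    intro S
    induction S using Finset.induction_on with
    | empty => exact ⟨1, one_pos, fun c hc => absurd hc (Finset.notMem_empty c)⟩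
    | insert a S _ ih =>
      obtain ⟨m, hm, ih⟩ := ih
      obtain ⟨n, hn, ha⟩ := halg a
      refine ⟨m * n, Nat.mul_pos hm hn, fun c hc => ?_⟩
      rcases Finset.mem_insert.1 hc with rfl | hc
      · rw [mul_comm m n]
        exact pow_pow_mul ha m
      · exact pow_pow_mul (ih c hc) n
  have := finite_ker hA
  have : Fintype (ker hA) := Fintype.ofFinite _
  obtain ⟨k, hk, h⟩ := hset (A.support.image A.coeff ∪
    Finset.univ.image fun α : ker hA => (α : Ω))
  refine ⟨k, hk, ?_, ?_⟩
  · ext i
    rw [coeff_map, iterateFrobenius_def]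
    by_cases hi : i ∈ A.support
    · exact h _ (Finset.mem_union_left _ (Finset.mem_image_of_mem _ hi))
    · rw [notMem_support_iff.1 hi, zero_pow (pow_ne_zero _ hp.out.ne_zero)]
  · intro α
    exact h _ (Finset.mem_union_right _ (Finset.mem_image_of_mem _ (Finset.mem_univ α)))

/-- the covering `w ↦ A (w)` -/
noncomputable def additive (Ω : Type) [Field Ω] (p : ℕ) [hp : Fact p.Prime] [CharP Ω p]
    [IsAlgClosed Ω] (hp2 : p ≠ 2) {A : Polynomial Ω} (hA : IsAdditive p A) {k : ℕ} (hk : 0 < k)
    (hfix : Fixes hA k) : Kind p Ω where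
  Γ := Multiplicative (ker hA)
  grp := inferInstance
  fin := by
    have := finite_ker hA
    exact inferInstanceAs (Finite (ker hA))
  op := fun {E} _ _ γ e => e + algebraMap Ω E (Multiplicative.toAdd γ : ker hA)
  rec' := fun d w => d + w
  dif := fun u w => u - w
  h := A
  D := A
  c0 := A
  c1 := 1
  k := k
  op_one := fun e => by simp
  op_mul := fun γ γ' e => by
    rw [toAdd_mul, AddSubgroup.coe_add, map_add]
    ring
  op_inj := fun {E} _ _ γ γ' e he h => by
    have h1 := add_left_cancel h
    have h3 := (algebraMap Ω E).injective h1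
    exact Subtype.ext h3
  op_mem := fun M γ e he => M.add_mem he (M.algebraMap_mem _)
  map_op := fun g γ e => by
    rw [map_add, AlgHom.commutes]
  map_rec := fun g d w => map_add g d w
  map_dif := fun g u w => map_sub g u w
  rec_dif := fun u w hw => sub_add_cancel u w
  rec_op := fun γ d w => by ring
  rec_mem := fun M d w hd hw => M.add_mem hd hw
  h_op := fun {E} _ _ γ e => by
    rw [hA.aeval_add, aeval_algebraMap_apply, mem_ker, map_zero, add_zero]
  h_eq := fun {E} _ _ e e' h => by
    obtain ⟨α, hα⟩ := mem_range_of_root hA (δ := e' - e) (by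
      rw [hA.aeval_sub, h, sub_self])
    refine ⟨Multiplicative.ofAdd α, ?_⟩
    rw [toAdd_ofAdd, hα]
    ring
  h_sep := fun {E E'} _ _ _ _ _ _ c w hw h => by
    refine ⟨hA.separable c, ?_⟩
    rw [Polynomial.map_sub, map_C, ← h, Polynomial.map_map,
      ← IsScalarTower.algebraMap_eq Ω E E']
    have e1 : (A.map (algebraMap Ω E') - C (aeval w A) : Polynomial E') =
        (A.map (algebraMap Ω E')).comp (X - C w) := by
      have h2 : (A.map (algebraMap Ω E')).comp (X - C w) =
          aeval (X - C w : Polynomial E') A := by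
        rw [comp, eval₂_map]
        rfl
      have : CharP E' p := charP_of_injective_algebraMap (algebraMap Ω E').injective p
      rw [h2]
      obtain ⟨m, a, -, -, -, rfl⟩ := hA
      simp only [map_sum, map_mul, map_pow, aeval_X, aeval_C, Polynomial.map_sum,
        Polynomial.map_mul, Polynomial.map_pow, map_X, map_C]
      rw [← Finset.sum_sub_distrib]
      refine Finset.sum_congr rfl fun i _ => ?_
      rw [sub_pow_char_pow, mul_sub]
      rfl
    rw [e1]
    exact ((IsAlgClosed.splits _).map _).comp_X_sub_C w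
  D_rec := fun {E} _ _ d w => by
    rw [hA.aeval_add, map_one, one_mul]
  D_op := fun {E} _ _ γ e => by
    rw [hA.aeval_add, aeval_algebraMap_apply, mem_ker, map_zero, add_zero]
  D_sqf := fun {E} _ _ => by
    have h := (hA.separable (0 : E)).squarefree
    rwa [map_zero, sub_zero] at h
  D_deg := hA.natDegree_pos
  D_frob := fun {E} _ _ e => by
    have : CharP E p := charP_of_injective_algebraMap (algebraMap Ω E).injective p
    have h1 : aeval e A ^ p ^ k = aeval (e ^ p ^ k) (A.map (iterateFrobenius Ω p k)) := by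
      rw [← iterateFrobenius_def, ← iterateFrobenius_def, aeval_def, aeval_def, hom_eval₂,
        eval₂_map]
      congr 1
      ext c
      show iterateFrobenius E p k (algebraMap Ω E c) = algebraMap Ω E (iterateFrobenius Ω p k c)
      rw [iterateFrobenius_def, iterateFrobenius_def, map_pow]
    rw [h1, hfix.1]
  k_pos := hk
  frob := fun {E} _ _ γ e => by
    have : CharP E p := charP_of_injective_algebraMap (algebraMap Ω E).injective p
    rw [add_pow_char_pow, ← map_pow, hfix.2]
  bad := fun {L} _ ψ hψ => by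
    refine ⟨0, Or.inl rfl, ?_⟩
    intro E _ _ γ e
    left
    refine ⟨?_, by rw [pow_zero, pow_zero]⟩
    have h1 : γ ^ p = 1 := by
      apply Subtype.ext
      show ((p • (Multiplicative.toAdd γ : ker hA) : ker hA) : Ω) = 0
      rw [AddSubgroup.coe_nsmul, nsmul_eq_mul, CharP.cast_eq_zero, zero_mul]
    have h3 : ψ γ ^ p = 1 := by rw [← map_pow, h1, map_one]
    obtain ⟨j, hj⟩ := hp.out.odd_of_ne_two hp2
    have h4 : ψ γ ^ (2 * j + 1) = 1 := hj ▸ h3
    rw [pow_succ, pow_mul, hψ, one_pow, one_mul] at h4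
    exact h4

end

end Pool.Agent.Helper73.QW
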