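import Pool.Agent.Helper73.QW.Group

/-!
# The characters whose square is trivial on the first factor
-/

open IntermediateField

namespace Pool.Agent.Helper73.QW

open Pool.Agent.Helper75.QC

section

variable {p : ℕ} {Ω L : Type} [Field Ω] [Field L] {κ : Kind p Ω} {K : Type} [Field K]
    [Algebra Ω K] {f g x y w z : K}

theorem neg_eq_self_absurd (h2 : (2 : K) ≠ 0) {r : K} (hr : r ≠ 0) (h : -r = r) : False := by
  have h1 : 2 * r = 0 := by
    rw [two_mul]
    nth_rewrite 1 [← h]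
    exact neg_add_cancel r
  rcases mul_eq_zero.1 h1 with h | h
  · exact h2 h
  · exact hr h

/-- the case of the double planes -/
theorem Cover.bad_zero (T : BaseTheory Ω L) (hC : Cover κ f g x y w z)
    (h2 : (2 : Ω) ≠ 0) (hG : Geo κ f g x y) (ψ : κ.Γ →* Lˣ)
    (δ : ℤˣ →* Lˣ) (hψ : ∀ γ, ψ γ ^ 2 = 1) (t : T.H 2 K)
    (ht : ∀ τ : Gp Ω x y, T.map 2 (toHom τ) t =
      ((ψ (hC.gam τ) * δ (hC.sgn τ) : Lˣ) : L) • t) : t = 0 := by
  have h2K : (2 : K) ≠ 0 := by
    intro h
    apply h2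
    apply (algebraMap Ω K).injective
    rw [map_ofNat, h, map_zero]
  obtain ⟨m, hm, hγ⟩ := κ.bad ψ hψ
  have hδ2 : δ (-1) * δ (-1) = 1 := by
    rw [← map_mul]
    simp
  obtain ⟨j, hj, hδ⟩ : ∃ j : ℕ, j ≤ 1 ∧ ((j = 0 ∧ δ (-1) = 1) ∨ (j = 1 ∧ δ (-1) = -1)) := by
    have h3 : ((δ (-1) : Lˣ) : L) * (δ (-1) : Lˣ) = 1 := by
      rw [← Units.val_mul, hδ2, Units.val_one]
    rcases mul_self_eq_one_iff.1 h3 with h | h
    · exact ⟨0, by omega, Or.inl ⟨rfl, Units.ext h⟩⟩
    · exact ⟨1, by omega, Or.inr ⟨rfl, Units.ext h⟩⟩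
  set r : K := w ^ m * z ^ j with hr
  have hr0 : r ≠ 0 := mul_ne_zero (pow_ne_zero _ hC.w_ne) (pow_ne_zero _ hC.z_ne)
  obtain ⟨N0, hN0⟩ : ∃ N0 : IntermediateField Ω K, N0 = adjoin Ω {x, y, r} := ⟨_, rfl⟩
  have hx : x ∈ N0 := by
    rw [hN0]
    exact subset_adjoin Ω _ (by simp)
  have hy : y ∈ N0 := by
    rw [hN0]
    exact subset_adjoin Ω _ (by simp)
  have hrN : r ∈ N0 := by
    rw [hN0]
    exact subset_adjoin Ω _ (by simp)
  have hle : adjoin Ω {x, y} ≤ N0 := by
    rw [adjoin_le_iff]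
    rintro c (rfl | hc)
    · exact hx
    · rw [Set.mem_singleton_iff] at hc
      rw [hc]
      exact hy
  obtain ⟨g1, g2⟩ := galois_of h2 hC.hw hC.hz hC.w_ne hC.z_ne N0 (hle hC.hf) (hle hC.hg) (by
    intro M hM hw hz
    rw [eq_top_iff, ← hC.top, adjoin_le_iff]
    rintro c (rfl | rfl | rfl | hc)
    · exact hM hx
    · exact hM hy
    · exact hw
    · rw [Set.mem_singleton_iff] at hc
      rw [hc]
      exact hz)
  obtain ⟨s, hs⟩ := T.descent 2 K N0 t (by
    intro τ
    obtain ⟨σ, hσ⟩ := hC.exists_toHom h2 (τ.restrictScalars Ω) (τ.commutes ⟨x, hx⟩)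
      (τ.commutes ⟨y, hy⟩)
    rw [← hσ, ht σ]
    have h3 : toHom σ r = r := by
      rw [hσ]
      exact τ.commutes ⟨r, hrN⟩
    rw [hr, map_mul, map_pow, map_pow, hC.gam_spec, hC.sgn_spec, mul_pow] at h3
    have key : ψ (hC.gam σ) * δ (hC.sgn σ) = 1 := by
      rcases hγ (hC.gam σ) w with ⟨e1, e2⟩ | ⟨e1, e2⟩ <;>
        rcases Int.units_eq_one_or (hC.sgn σ) with e3 | e3 <;>
        rcases hδ with ⟨e4, e5⟩ | ⟨e4, e5⟩ <;>
        rw [e2, e3, e4] at h3 <;> rw [e1, e3]
      · rw [map_one, one_mul]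
      · rw [map_one, one_mul]
      · rw [e5, one_mul]
      · exfalso
        apply neg_eq_self_absurd h2K hr0
        rw [hr, e4]
        simp only [Units.val_neg, Units.val_one, Int.cast_neg, Int.cast_one, pow_one] at h3 ⊢
        linear_combination h3
      · exfalso
        apply neg_eq_self_absurd h2K hr0
        rw [hr, e4]
        simp only [Units.val_neg, Units.val_one, Int.cast_neg, Int.cast_one, pow_zero] at h3 ⊢
        linear_combination h3
      · exfalso
        apply neg_eq_self_absurd h2K hr0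
        rw [hr, e4]
        simp only [Units.val_neg, Units.val_one, Int.cast_neg, Int.cast_one, pow_one] at h3 ⊢
        linear_combination h3
      · exfalso
        apply neg_eq_self_absurd h2K hr0
        rw [hr, e4]
        simp only [Units.val_neg, Units.val_one, Int.cast_neg, Int.cast_one, pow_zero] at h3 ⊢
        linear_combination h3
      · rw [e5]
        simp
    rw [key, Units.val_one, one_smul])
  have hun : Uniruled Ω N0 2 := by
    rw [hN0]
    rcases hm with hm | hm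
    · refine hG.two r 0 j (by omega) hj ?_
      rw [hr, hm, pow_zero, pow_zero, one_mul, one_mul, ← pow_mul, mul_comm j 2, pow_mul, hC.hz]
    · refine hG.two r 1 j le_rfl hj ?_
      rw [hr, mul_pow, hm w, hC.hw, ← pow_mul, mul_comm j 2, pow_mul, hC.hz, pow_one]
  rw [← hs, T.uniruled 2 N0 hun s, map_zero]

end

end Pool.Agent.Helper73.QW
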