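import Pool.Agent.Helper75.QC.Kummer
import Pool.Agent.Helper73.QW.Gal

/-!
# Descent of classes on the product of a surface and a curve
-/

open IntermediateField

namespace Pool.Agent.Helper73.QW

open Pool.Agent.Helper75.QC

section

variable {Ω L : Type} [Field Ω] [Field L]

/-- an endomorphism of `N` which maps the generators of a subfield into it restricts to it -/
theorem exists_restrict {K N : Type} [Field K] [Algebra Ω K] [Field N] [Algebra Ω N]
    (a : K →ₐ[Ω] N) (τ : N →ₐ[Ω] N) (S : Set K) (hS : adjoin Ω S = ⊤)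
    (h : ∀ s ∈ S, τ (a s) ∈ a.fieldRange) : ∃ τK : K →ₐ[Ω] K, τ.comp a = a.comp τK := by
  have h1 : ∀ k, τ (a k) ∈ a.fieldRange := by
    intro k
    have h2 : adjoin Ω S ≤ (a.fieldRange.comap τ).comap a := by
      rw [adjoin_le_iff]
      exact h
    exact h2 (by rw [hS]; exact mem_top)
  let e : K ≃ₐ[Ω] a.fieldRange := AlgEquiv.ofInjectiveField a
  let f : K →ₐ[Ω] a.fieldRange :=
    { toFun := fun k => ⟨τ (a k), h1 k⟩
      map_one' := Subtype.ext (map_one (τ.comp a))
      map_mul' := fun c d => Subtype.ext (map_mul (τ.comp a) c d)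
      map_zero' := Subtype.ext (map_zero (τ.comp a))
      map_add' := fun c d => Subtype.ext (map_add (τ.comp a) c d)
      commutes' := fun c => Subtype.ext ((τ.comp a).commutes c) }
  refine ⟨e.symm.toAlgHom.comp f, ?_⟩
  apply AlgHom.ext
  intro k
  have h3 : ∀ c : K, a c = (e c : N) := fun c => rfl
  show τ (a k) = a (e.symm (f k))
  rw [h3 (e.symm (f k)), AlgEquiv.apply_symm_apply]
  rfl

/-- a class on the product which is invariant vanishes if the quotient is uniruled -/
theorem cross_general (T : BaseTheory Ω L) {K C N : Type} [Field K] [Algebra Ω K] [Field C]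
    [Algebra Ω C] [Field N] [Algebra Ω N] (a : K →ₐ[Ω] N) (b : C →ₐ[Ω] N)
    (N0 : IntermediateField Ω N) [FiniteDimensional N0 N] [IsGalois N0 N]
    (huni : Uniruled Ω N0 3) (t : T.H 2 K) (z : T.H 1 C)
    (h : ∀ τ : N →ₐ[N0] N, ∃ (τK : K →ₐ[Ω] K) (τC : C →ₐ[Ω] C) (c : L),
      (τ.restrictScalars Ω).comp a = a.comp τK ∧ (τ.restrictScalars Ω).comp b = b.comp τC ∧
        c * c = 1 ∧ ∃ d : L, d ≠ 0 ∧ T.map 2 τK t = (c * d) • t ∧ T.map 1 τC z = (c * d⁻¹) • z) :
    T.cup N (T.map 2 a t) (T.map 1 b z) = 0 := by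
  have hfix : ∀ τ : N →ₐ[N0] N, T.map 3 (τ.restrictScalars Ω)
      (T.cup N (T.map 2 a t) (T.map 1 b z)) = T.cup N (T.map 2 a t) (T.map 1 b z) := by
    intro τ
    obtain ⟨τK, τC, c, e1, e2, hc, d, hd, h2, h1⟩ := h τ
    have m2 : T.map 2 (τ.restrictScalars Ω) (T.map 2 a t) = (c * d) • T.map 2 a t := by
      have e3 : T.map 2 (τ.restrictScalars Ω) (T.map 2 a t) =
          T.map 2 ((τ.restrictScalars Ω).comp a) t :=
        (LinearMap.congr_fun (T.map_comp 2 a (τ.restrictScalars Ω)) t).symm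
      have e4 : T.map 2 (a.comp τK) t = T.map 2 a (T.map 2 τK t) :=
        LinearMap.congr_fun (T.map_comp 2 τK a) t
      rw [e3, e1, e4, h2, map_smul]
    have m1 : T.map 1 (τ.restrictScalars Ω) (T.map 1 b z) = (c * d⁻¹) • T.map 1 b z := by
      have e3 : T.map 1 (τ.restrictScalars Ω) (T.map 1 b z) =
          T.map 1 ((τ.restrictScalars Ω).comp b) z :=
        (LinearMap.congr_fun (T.map_comp 1 b (τ.restrictScalars Ω)) z).symm
      have e4 : T.map 1 (b.comp τC) z = T.map 1 b (T.map 1 τC z) :=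
        LinearMap.congr_fun (T.map_comp 1 τC b) z
      rw [e3, e2, e4, h1, map_smul]
    rw [T.map_cup, m2, m1, LinearMap.map_smul₂, map_smul, smul_smul]
    have e5 : c * d * (c * d⁻¹) = 1 := by
      calc c * d * (c * d⁻¹) = (c * c) * (d * d⁻¹) := by ring
        _ = 1 := by rw [hc, mul_inv_cancel₀ hd, one_mul]
    rw [e5, one_smul]
  obtain ⟨z', hz'⟩ := T.descent 3 N N0 (T.cup N (T.map 2 a t) (T.map 1 b z)) hfix
  rw [← hz', T.uniruled 3 N0 huni z', map_zero]

/-- the polynomial of a square root -/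
theorem sqrt_poly {F N : Type} [Field F] [Field N] [Algebra F N] (h2 : (2 : F) ≠ 0) (z : N)
    (hz0 : z ≠ 0) (c : F) (hc : algebraMap F N c = z ^ 2) :
    ∃ P : Polynomial F, P.Separable ∧ Polynomial.aeval z P = 0 ∧
      (P.map (algebraMap F N)).Splits := by
  have hc0 : c ≠ 0 := by
    rintro rfl
    rw [map_zero] at hc
    exact hz0 (pow_eq_zero_iff two_ne_zero |>.1 hc.symm)
  refine ⟨Polynomial.X ^ 2 - Polynomial.C c, Polynomial.separable_X_pow_sub_C c
    (by exact_mod_cast h2) hc0, ?_, ?_⟩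
  · rw [map_sub, map_pow, Polynomial.aeval_X, Polynomial.aeval_C, hc, sub_self]
  · have h3 : (Polynomial.X ^ 2 - Polynomial.C c : Polynomial F).map (algebraMap F N) =
        (Polynomial.X - Polynomial.C z) * (Polynomial.X - Polynomial.C (-z)) := by
      rw [Polynomial.map_sub, Polynomial.map_pow, Polynomial.map_X, Polynomial.map_C, hc]
      simp only [Polynomial.C_neg, Polynomial.C_pow]
      ring
    rw [h3]
    exact (Polynomial.Splits.X_sub_C _).mul (Polynomial.Splits.X_sub_C _)

/-- the hyperelliptic involution acts as `-1` -/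
theorem neg_of_involution (T : BaseTheory Ω L) (h2 : (2 : Ω) ≠ 0) {C : Type} [Field C]
    [Algebra Ω C] (u s : C) (hC : adjoin Ω {u, s} = ⊤) (hs : s ^ 2 ∈ adjoin Ω {u}) (hs0 : s ≠ 0)
    (σ : C →ₐ[Ω] C) (hu : σ u = u) (hσ : σ s = -s) (z : T.H 1 C) : T.map 1 σ z = -z := by
  obtain ⟨N0, hN0⟩ : ∃ N0 : IntermediateField Ω C, N0 = adjoin Ω {u} := ⟨_, rfl⟩
  rw [← hN0] at hs
  have huN : u ∈ N0 := by
    rw [hN0]
    exact subset_adjoin _ _ rfl
  have h2N : (2 : N0) ≠ 0 := by
    intro h
    apply h2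
    apply (algebraMap Ω N0).injective
    rw [map_ofNat, h, map_zero]
  have htop : adjoin N0 {s} = ⊤ := by
    have h3 : (adjoin N0 {s}).restrictScalars Ω = ⊤ := by
      rw [eq_top_iff, ← hC, adjoin_le_iff]
      rintro c (rfl | hc)
      · exact (adjoin N0 {s}).algebraMap_mem ⟨c, huN⟩
      · rw [Set.mem_singleton_iff] at hc
        rw [hc]
        exact subset_adjoin N0 {s} rfl
    rw [eq_top_iff]
    intro c _
    have : c ∈ (adjoin N0 {s}).restrictScalars Ω := by
      rw [h3]
      exact mem_top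
    exact this
  obtain ⟨g1, g2⟩ := gal_of_roots {s} (Set.finite_singleton s) htop (by
    rintro c hc
    rw [Set.mem_singleton_iff] at hc
    subst hc
    exact sqrt_poly h2N c hs0 ⟨c ^ 2, hs⟩ rfl)
  have hσσ : σ.comp σ = AlgHom.id Ω C := by
    refine hom_ext {u, s} hC _ _ ?_
    rintro c (rfl | hc)
    · rw [AlgHom.comp_apply, hu, hu]
      rfl
    · rw [Set.mem_singleton_iff] at hc
      rw [hc, AlgHom.comp_apply, hσ, map_neg, hσ, neg_neg]
      rfl
  have hzz : T.map 1 σ (T.map 1 σ z) = z := by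
    have h3 := LinearMap.congr_fun (T.map_comp 1 σ σ) z
    rw [hσσ, T.map_id] at h3
    exact h3.symm
  obtain ⟨z', hz'⟩ := T.descent 1 C N0 (z + T.map 1 σ z) (by
    intro τ
    have hτ : (τ s) ^ 2 = s ^ 2 := by
      rw [← map_pow]
      exact τ.commutes ⟨s ^ 2, hs⟩
    rcases sq_eq_sq_iff_eq_or_eq_neg.1 hτ with h3 | h3
    · have h4 : τ.restrictScalars Ω = AlgHom.id Ω C := by
        refine hom_ext {u, s} hC _ _ ?_
        rintro c (rfl | hc)
        · exact τ.commutes ⟨c, huN⟩
        · rw [Set.mem_singleton_iff] at hc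
          rw [hc]
          exact h3
      rw [h4, T.map_id]
      rfl
    · have h4 : τ.restrictScalars Ω = σ := by
        refine hom_ext {u, s} hC _ _ ?_
        rintro c (rfl | hc)
        · rw [hu]
          exact τ.commutes ⟨c, huN⟩
        · rw [Set.mem_singleton_iff] at hc
          rw [hc, hσ]
          exact h3
      rw [h4, map_add, hzz, add_comm])
  have hun : Uniruled Ω N0 1 := by
    refine ⟨C, inferInstance, inferInstance, N0.val, ∅, u, by simp, ?_⟩
    intro k
    have hle : N0 ≤ adjoin Ω (Acl Ω ((∅ : Finset C) : Set C) ∪ {u}) := by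
      rw [hN0, adjoin_le_iff]
      intro c hc
      rw [Set.mem_singleton_iff] at hc
      rw [hc]
      exact subset_adjoin _ _ (Or.inr rfl)
    exact hle k.2
  rw [T.uniruled 1 N0 hun z', map_zero] at hz'
  have h5 : T.map 1 σ z + z = 0 := by
    rw [add_comm]
    exact hz'.symm
  exact eq_neg_of_add_eq_zero_left h5

end

end Pool.Agent.Helper73.QW
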