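import Mathlib

/-!
# The curve `s ^ 2 = D (u)` and its product with a variety

After Helper75/QC/Curve (helper99).
-/

open IntermediateField

namespace Pool.Agent.Helper73.QW

section

variable {Ω : Type} [Field Ω]

/-- the polynomial over the rational functions -/
noncomputable def pol (D : Polynomial Ω) (F : Type) [Field F] [Algebra Ω F] :
    Polynomial (RatFunc F) :=
  Polynomial.X ^ 2 - Polynomial.C (algebraMap (Polynomial F) (RatFunc F) (D.map (algebraMap Ω F)))

theorem not_isSquare {F : Type} [Field F] {P : Polynomial F} (hs : Squarefree P)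
    (hd : 0 < P.natDegree) : ¬ IsSquare (algebraMap (Polynomial F) (RatFunc F) P) := by
  rintro ⟨b, hb⟩
  have hint : IsIntegral (Polynomial F) b := by
    refine ⟨Polynomial.X ^ 2 - Polynomial.C P, Polynomial.monic_X_pow_sub_C _ two_ne_zero, ?_⟩
    rw [Polynomial.eval₂_sub, Polynomial.eval₂_pow, Polynomial.eval₂_X, Polynomial.eval₂_C, hb,
      pow_two, sub_self]
  obtain ⟨c, hc⟩ := IsIntegrallyClosed.isIntegral_iff.1 hint
  have h1 : P = c * c := by
    apply RatFunc.algebraMap_injective F
    rw [hb, map_mul, hc]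
  have h2 : IsUnit c := hs c ⟨1, by rw [mul_one, h1]⟩
  have h3 : IsUnit P := by
    rw [h1]
    exact h2.mul h2
  rw [Polynomial.natDegree_eq_zero_of_isUnit h3] at hd
  exact hd.false

theorem pol_irreducible {D : Polynomial Ω} (F : Type) [Field F] [Algebra Ω F]
    (hs : Squarefree (D.map (algebraMap Ω F))) (hd : 0 < D.natDegree) :
    Irreducible (pol D F) := by
  unfold pol
  rw [X_pow_sub_C_irreducible_iff_of_prime Nat.prime_two]
  intro b hb
  refine not_isSquare hs ?_ ⟨b, by rw [← hb, pow_two]⟩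
  rwa [Polynomial.natDegree_map]

theorem root_pol (D : Polynomial Ω) (F : Type) [Field F] [Algebra Ω F]
    [Fact (Irreducible (pol D F))] :
    AdjoinRoot.root (pol D F) ^ 2 = AdjoinRoot.of (pol D F)
      (algebraMap (Polynomial F) (RatFunc F) (D.map (algebraMap Ω F))) := by
  have h := AdjoinRoot.eval₂_root (pol D F)
  conv at h =>
    lhs
    arg 3
    unfold pol
  rw [Polynomial.eval₂_sub, Polynomial.eval₂_pow, Polynomial.eval₂_X, Polynomial.eval₂_C] at h
  exact sub_eq_zero.1 h

theorem aeval_of (D : Polynomial Ω) (F : Type) [Field F] [Algebra Ω F]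
    [Fact (Irreducible (pol D F))] :
    Polynomial.aeval (AdjoinRoot.of (pol D F) RatFunc.X) D = AdjoinRoot.of (pol D F)
      (algebraMap (Polynomial F) (RatFunc F) (D.map (algebraMap Ω F))) := by
  have h1 : Polynomial.aeval (Polynomial.X : Polynomial F) D = D.map (algebraMap Ω F) := rfl
  have h2 : Polynomial.aeval (algebraMap (Polynomial F) (RatFunc F) Polynomial.X) D =
      algebraMap (Polynomial F) (RatFunc F) (Polynomial.aeval Polynomial.X D) :=
    Polynomial.aeval_algebraMap_apply (RatFunc F) Polynomial.X D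
  have h3 := Polynomial.aeval_algHom_apply (AdjoinRoot.ofAlgHom Ω (pol D F)) RatFunc.X D
  rw [RatFunc.algebraMap_X] at h2
  rw [h2, h1] at h3
  exact h3

/-- homomorphisms out of the function field of the curve -/
theorem exists_hom {D : Polynomial Ω} [Fact (Irreducible (pol D Ω))] {E : Type} [Field E]
    [Algebra Ω E] (t w : E) (ht : Transcendental Ω t) (h : w ^ 2 = Polynomial.aeval t D) :
    ∃ b : AdjoinRoot (pol D Ω) →ₐ[Ω] E, b (AdjoinRoot.of _ RatFunc.X) = t ∧
      b (AdjoinRoot.root _) = w := by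
  have hinj : Function.Injective (Polynomial.aeval t : Polynomial Ω →ₐ[Ω] E) :=
    transcendental_iff_injective.1 ht
  let i : RatFunc Ω →ₐ[Ω] E := RatFunc.liftAlgHom (Polynomial.aeval t)
    (nonZeroDivisors_le_comap_nonZeroDivisors_of_injective _ hinj)
  have hi' : ∀ P : Polynomial Ω, i (algebraMap (Polynomial Ω) (RatFunc Ω) P) =
      Polynomial.aeval t P := by
    intro P
    have h1 := RatFunc.liftAlgHom_apply_div (Polynomial.aeval t : Polynomial Ω →ₐ[Ω] E)
      (nonZeroDivisors_le_comap_nonZeroDivisors_of_injective _ hinj) P 1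
    rw [map_one, map_one, div_one, div_one] at h1
    exact h1
  have hi : i RatFunc.X = t := by
    rw [← RatFunc.algebraMap_X, hi', Polynomial.aeval_X]
  have hP : (pol D Ω).eval₂ (i : RatFunc Ω →+* E) w = 0 := by
    unfold pol
    rw [Polynomial.eval₂_sub, Polynomial.eval₂_pow, Polynomial.eval₂_X, Polynomial.eval₂_C, h]
    have : (i : RatFunc Ω →+* E) (algebraMap (Polynomial Ω) (RatFunc Ω)
        (D.map (algebraMap Ω Ω))) = Polynomial.aeval t D := by
      rw [Algebra.algebraMap_self, Polynomial.map_id]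
      exact hi' D
    rw [this, sub_self]
  refine ⟨AdjoinRoot.liftAlgHom _ i w hP, ?_, ?_⟩
  · rw [AdjoinRoot.liftAlgHom_of, hi]
  · rw [AdjoinRoot.liftAlgHom_root]

/-- generation -/
theorem eq_top_of_mem {D : Polynomial Ω} (F : Type) [Field F] [Algebra Ω F]
    [Fact (Irreducible (pol D F))] (S : IntermediateField Ω (AdjoinRoot (pol D F)))
    (h1 : ∀ k : F, AdjoinRoot.of (pol D F) (algebraMap F (RatFunc F) k) ∈ S)
    (h2 : AdjoinRoot.of (pol D F) RatFunc.X ∈ S) (h3 : AdjoinRoot.root (pol D F) ∈ S) :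
    S = ⊤ := by
  have h4 : ∀ P : Polynomial F,
      AdjoinRoot.of (pol D F) (algebraMap (Polynomial F) (RatFunc F) P) ∈ S := by
    intro P
    induction P using Polynomial.induction_on' with
    | add p q hp hq => rw [map_add, map_add]; exact add_mem hp hq
    | monomial m c =>
      rw [← Polynomial.C_mul_X_pow_eq_monomial, map_mul, map_pow, RatFunc.algebraMap_X,
        RatFunc.algebraMap_C, map_mul, map_pow]
      exact mul_mem (h1 c) (pow_mem h2 m)
  have h5 : ∀ r : RatFunc F, AdjoinRoot.of (pol D F) r ∈ S := by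
    intro r
    rw [← RatFunc.num_div_denom r, map_div₀]
    exact div_mem (h4 _) (h4 _)
  rw [eq_top_iff]
  intro x _
  obtain ⟨g, rfl⟩ := AdjoinRoot.mk_surjective x
  induction g using Polynomial.induction_on' with
  | add p q hp hq => rw [map_add]; exact add_mem (hp trivial) (hq trivial)
  | monomial m c =>
    rw [← Polynomial.C_mul_X_pow_eq_monomial, map_mul, map_pow, AdjoinRoot.mk_C, AdjoinRoot.mk_X]
    exact mul_mem (h5 c) (pow_mem h3 m)

/-- the curve `C : s ^ 2 = D (u)` and the product `N` of `C` and a variety with function field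
`K` -/
theorem exists_curve (D : Polynomial Ω) (hD : 0 < D.natDegree)
    (hs : ∀ (F : Type) [Field F] [Algebra Ω F], Squarefree (D.map (algebraMap Ω F)))
    (K : Type) [Field K] [Algebra Ω K] :
    ∃ (C N : Type) (_ : Field C) (_ : Algebra Ω C) (_ : Field N) (_ : Algebra Ω N)
      (u s : C) (a : K →ₐ[Ω] N) (b : C →ₐ[Ω] N),
      Transcendental Ω u ∧ s ^ 2 = Polynomial.aeval u D ∧ adjoin Ω {u, s} = ⊤ ∧
      Transcendental a.fieldRange (b u) ∧
      adjoin Ω (Set.range a ∪ {b u, b s}) = ⊤ ∧
      ∀ (E : Type) [Field E] [Algebra Ω E] (u' s' : E), Transcendental Ω u' →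
        s' ^ 2 = Polynomial.aeval u' D → ∃ τ : C →ₐ[Ω] E, τ u = u' ∧ τ s = s' := by
  have i1 : Fact (Irreducible (pol D Ω)) := ⟨pol_irreducible Ω (hs Ω) hD⟩
  have i2 : Fact (Irreducible (pol D K)) := ⟨pol_irreducible K (hs K) hD⟩
  have htr : ∀ (F : Type) [Field F] [Algebra Ω F] [Fact (Irreducible (pol D F))]
      (P : Polynomial F),
      P.eval₂ ((AdjoinRoot.of (pol D F)).comp (algebraMap F (RatFunc F)))
        (AdjoinRoot.of (pol D F) RatFunc.X) = 0 → P = 0 := by
    intro F _ _ _ P hP
    rw [← Polynomial.hom_eval₂] at hP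
    have h1 : P.eval₂ (algebraMap F (RatFunc F)) RatFunc.X = 0 :=
      (AdjoinRoot.of (pol D F)).injective (by rw [hP, map_zero])
    by_contra h0
    exact RatFunc.transcendental_X (K := F) ⟨P, h0, h1⟩
  have hut : Transcendental Ω (AdjoinRoot.of (pol D Ω) RatFunc.X) := by
    rintro ⟨P, hP0, hP⟩
    exact hP0 (htr Ω P hP)
  let a : K →ₐ[Ω] AdjoinRoot (pol D K) :=
    { (AdjoinRoot.of (pol D K)).comp (algebraMap K (RatFunc K)) with
      commutes' := fun r => by
        show AdjoinRoot.of (pol D K) (algebraMap K (RatFunc K) (algebraMap Ω K r)) = _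
        rw [← IsScalarTower.algebraMap_apply Ω K (RatFunc K)]
        rfl }
  have htrK : Transcendental Ω (AdjoinRoot.of (pol D K) RatFunc.X) := by
    rintro ⟨P, hP0, hP⟩
    apply hP0
    have h1 : P.map (algebraMap Ω K) = 0 := by
      apply htr K
      have h4 : ((AdjoinRoot.of (pol D K)).comp (algebraMap K (RatFunc K))).comp
          (algebraMap Ω K) = algebraMap Ω (AdjoinRoot (pol D K)) := a.comp_algebraMap
      rw [Polynomial.eval₂_map, h4]
      exact hP
    exact (Polynomial.map_eq_zero _).1 h1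
  obtain ⟨b, hb1, hb2⟩ := exists_hom (D := D) (AdjoinRoot.of (pol D K) RatFunc.X)
    (AdjoinRoot.root (pol D K)) htrK ((root_pol D K).trans (aeval_of D K).symm)
  refine ⟨AdjoinRoot (pol D Ω), AdjoinRoot (pol D K), inferInstance, inferInstance,
    inferInstance, inferInstance, AdjoinRoot.of _ RatFunc.X, AdjoinRoot.root _, a, b, hut,
    (root_pol D Ω).trans (aeval_of D Ω).symm, ?_, ?_, ?_, ?_⟩
  · refine eq_top_of_mem Ω _ (fun k => ?_) (subset_adjoin Ω _ (by simp))
      (subset_adjoin Ω _ (by simp))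
    exact IntermediateField.algebraMap_mem _ k
  · rw [hb1]
    rintro ⟨P, hP0, hP⟩
    apply hP0
    let e : K ≃+* a.fieldRange := (AlgEquiv.ofInjectiveField a).toRingEquiv
    have h1 : P.map (e.symm : a.fieldRange →+* K) = 0 := by
      apply htr K
      have h4 : ((AdjoinRoot.of (pol D K)).comp (algebraMap K (RatFunc K))).comp
          (e.symm : a.fieldRange →+* K) = algebraMap a.fieldRange (AdjoinRoot (pol D K)) := by
        ext x
        have h2 : ∀ k : K, ((e k : a.fieldRange) : AdjoinRoot (pol D K)) = a k := fun k => rfl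
        have h3 := h2 (e.symm x)
        rw [RingEquiv.apply_symm_apply] at h3
        exact h3.symm
      rw [Polynomial.eval₂_map, h4]
      exact hP
    exact (Polynomial.map_eq_zero _).1 h1
  · rw [hb1, hb2]
    refine eq_top_of_mem K _ (fun k => subset_adjoin Ω _ (Or.inl ⟨k, rfl⟩))
      (subset_adjoin Ω _ (by simp)) (subset_adjoin Ω _ (by simp))
  · intro E _ _ u' s' hu' hs'
    exact exists_hom u' s' hu' hs'

end

end Pool.Agent.Helper73.QW
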