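import Pool.Agent.Helper73.QW.Group
import Pool.Agent.Helper73.QW.Curve

/-!
# The cross product of a class of the covering and a class of the auxiliary curve
-/

open IntermediateField

namespace Pool.Agent.Helper73.QW

open Pool.Agent.Helper75.QC

section

theorem sign_char {L : Type} [Field L] (δ : ℤˣ →* Lˣ) :
    ∃ j : ℕ, j ≤ 1 ∧ ∀ ε : ℤˣ, ((δ ε : Lˣ) : L) = (((ε ^ j : ℤˣ) : ℤ) : L) := by
  have hδ2 : δ (-1) * δ (-1) = 1 := by
    rw [← map_mul]
    simp
  have h3 : ((δ (-1) : Lˣ) : L) * (δ (-1) : Lˣ) = 1 := by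
    rw [← Units.val_mul, hδ2, Units.val_one]
  rcases mul_self_eq_one_iff.1 h3 with h | h
  · refine ⟨0, by omega, fun ε => ?_⟩
    rcases Int.units_eq_one_or ε with rfl | rfl
    · rw [map_one, pow_zero]
      simp
    · rw [h, pow_zero]
      simp
  · refine ⟨1, le_rfl, fun ε => ?_⟩
    rcases Int.units_eq_one_or ε with rfl | rfl
    · rw [map_one, pow_one]
      simp
    · rw [h, pow_one]
      simp

variable {p : ℕ} {Ω L : Type} [Field Ω] [Field L] {κ : Kind p Ω} {K : Type} [Field K]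
    [Algebra Ω K] {f g x y w z : K}

theorem Cover.cross_zero (T : BaseTheory Ω L) (hC : Cover κ f g x y w z) (h2 : (2 : Ω) ≠ 0)
    (hG : Geo κ f g x y) (ψ : κ.Γ →* Lˣ) (δ : ℤˣ →* Lˣ)
    {C N : Type} [Field C] [Algebra Ω C] [Field N] [Algebra Ω N] (u s : C)
    (hs : s ^ 2 = Polynomial.aeval u κ.D) (hs0 : s ≠ 0) (hCt : adjoin Ω {u, s} = ⊤)
    (a : K →ₐ[Ω] N) (b : C →ₐ[Ω] N) (hb : Transcendental a.fieldRange (b u))
    (hN : adjoin Ω (Set.range a ∪ {b u, b s}) = ⊤)
    (hsig : ∀ (γ : κ.Γ) (ε : ℤˣ), ∃ τ : C →ₐ[Ω] C, τ u = κ.op γ u ∧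
      τ s = ((ε : ℤ) : C) * s)
    (c : T.H 1 C) (hc : ∀ (γ : κ.Γ) (σ : C →ₐ[Ω] C), σ u = κ.op γ u → σ s = s →
      T.map 1 σ c = ((ψ γ : Lˣ) : L)⁻¹ • c) (t : T.H 2 K)
    (ht : ∀ τ : Gp Ω x y, T.map 2 (toHom τ) t =
      ((ψ (hC.gam τ) * δ (hC.sgn τ) : Lˣ) : L) • t) :
    T.cup N (T.map 2 a t) (T.map 1 b c) = 0 := by
  have h2K : (2 : K) ≠ 0 := by
    intro h
    apply h2
    apply (algebraMap Ω K).injective
    rw [map_ofNat, h, map_zero]
  obtain ⟨j, hj, hδ⟩ := sign_char δ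
  have hw0 : a w ≠ 0 := fun h => hC.w_ne (a.injective (h.trans (map_zero a).symm))
  have hz0 : a z ≠ 0 := fun h => hC.z_ne (a.injective (h.trans (map_zero a).symm))
  obtain ⟨d, hd⟩ : ∃ d, d = κ.dif (b u) (a w) := ⟨_, rfl⟩
  obtain ⟨s0, hs0'⟩ : ∃ s0, s0 = b s / a z ^ j := ⟨_, rfl⟩
  have hrec : κ.rec' d (a w) = b u := by
    rw [hd]
    exact κ.rec_dif _ _ hw0
  have hbs : b s = s0 * a z ^ j := by
    rw [hs0']
    exact (div_mul_cancel₀ _ (pow_ne_zero _ hz0)).symm
  have haw : Polynomial.aeval (a w) κ.h = a f := by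
    rw [Polynomial.aeval_algHom_apply, hC.hw]
  have haz : a z ^ 2 = a g := by
    rw [← map_pow, hC.hz]
  obtain ⟨N0, hN0⟩ : ∃ N0 : IntermediateField Ω N, N0 = adjoin Ω {a x, a y, d, s0} := ⟨_, rfl⟩
  have hx : a x ∈ N0 := by
    rw [hN0]
    exact subset_adjoin Ω _ (by simp)
  have hy : a y ∈ N0 := by
    rw [hN0]
    exact subset_adjoin Ω _ (by simp)
  have hdN : d ∈ N0 := by
    rw [hN0]
    exact subset_adjoin Ω _ (by simp)
  have hsN : s0 ∈ N0 := by
    rw [hN0]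
    exact subset_adjoin Ω _ (by simp)
  have hle : ∀ c ∈ adjoin Ω {x, y}, a c ∈ N0 := by
    intro c hc
    have h3 : adjoin Ω {x, y} ≤ N0.comap a := by
      rw [adjoin_le_iff]
      rintro c (rfl | hc)
      · exact hx
      · rw [Set.mem_singleton_iff] at hc
        rw [hc]
        exact hy
    exact h3 hc
  obtain ⟨g1, g2⟩ := galois_of h2 haw haz hw0 hz0 N0 (hle _ hC.hf) (hle _ hC.hg) (by
    intro M hM hwM hzM
    have hra : ∀ k, a k ∈ M := by
      intro k
      have h3 : adjoin Ω {x, y, w, z} ≤ M.comap a := by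
        rw [adjoin_le_iff]
        rintro c (rfl | rfl | rfl | hc)
        · exact hM hx
        · exact hM hy
        · exact hwM
        · rw [Set.mem_singleton_iff] at hc
          rw [hc]
          exact hzM
      exact h3 (by rw [hC.top]; exact mem_top)
    rw [eq_top_iff, ← hN, adjoin_le_iff]
    rintro c (⟨k, rfl⟩ | rfl | hc)
    · exact hra k
    · rw [← hrec]
      exact κ.rec_mem M d (a w) (hM hdN) hwM
    · rw [Set.mem_singleton_iff] at hc
      rw [hc, hbs]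
      exact M.mul_mem (hM hsN) (pow_mem hzM j))
  have hun : Uniruled Ω N0 3 := by
    have hdt : Transcendental a.fieldRange d := by
      intro h3
      apply hb
      obtain ⟨M, hM⟩ : ∃ M : IntermediateField Ω N, M =
        (algebraicClosure a.fieldRange N).restrictScalars Ω := ⟨_, rfl⟩
      have hmem : ∀ e : N, e ∈ M ↔ IsAlgebraic a.fieldRange e := by
        intro e
        rw [hM, mem_restrictScalars, mem_algebraicClosure_iff]
      rw [← hmem, ← hrec]
      refine κ.rec_mem M d (a w) ((hmem d).2 h3) ?_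
      rw [hmem]
      exact isAlgebraic_algebraMap (⟨a w, ⟨w, rfl⟩⟩ : a.fieldRange)
    rw [hN0]
    refine hG.three N a d s0 j hj hdt ?_
    rw [← haw, ← κ.D_rec, hrec, Polynomial.aeval_algHom_apply, ← hs, map_pow, hbs, mul_pow, ← haz,
      ← pow_mul, ← pow_mul, mul_comm j 2]
  refine cross_general T a b N0 hun t c ?_
  intro τ
  obtain ⟨τ', hτ'⟩ : ∃ τ' : N →ₐ[Ω] N, τ' = τ.restrictScalars Ω := ⟨_, rfl⟩
  have hfix : ∀ e ∈ N0, τ' e = e := by
    intro e he
    rw [hτ']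
    exact τ.commutes ⟨e, he⟩
  rw [← hτ']
  obtain ⟨γ, hγ⟩ : ∃ γ, τ' (a w) = κ.op γ (a w) := by
    apply κ.h_eq
    rw [Polynomial.aeval_algHom_apply τ' (a w) κ.h, haw, hfix _ (hle _ hC.hf)]
  obtain ⟨ε, hε⟩ : ∃ ε : ℤˣ, τ' (a z) = ((ε : ℤ) : N) * a z := by
    have h1 : τ' (a z) ^ 2 = a z ^ 2 := by
      rw [← map_pow, haz, hfix _ (hle _ hC.hg)]
    rcases sq_eq_sq_iff_eq_or_eq_neg.1 h1 with h | h
    · exact ⟨1, by rw [h]; simp⟩
    · exact ⟨-1, by rw [h]; simp⟩
  obtain ⟨τK, hK⟩ := exists_restrict a τ' {x, y, w, z} hC.top (by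
    rintro e (rfl | rfl | rfl | he)
    · rw [hfix _ hx]
      exact ⟨e, rfl⟩
    · rw [hfix _ hy]
      exact ⟨e, rfl⟩
    · rw [hγ, ← κ.map_op]
      exact ⟨_, rfl⟩
    · rw [Set.mem_singleton_iff] at he
      rw [he, hε]
      exact ⟨((ε : ℤ) : K) * z, by
        show a _ = _
        rw [map_mul, map_intCast]⟩)
  have hKx : τK x = x := by
    apply a.injective
    have := DFunLike.congr_fun hK x
    rw [AlgHom.comp_apply, AlgHom.comp_apply, hfix _ hx] at this
    exact this.symm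
  have hKy : τK y = y := by
    apply a.injective
    have := DFunLike.congr_fun hK y
    rw [AlgHom.comp_apply, AlgHom.comp_apply, hfix _ hy] at this
    exact this.symm
  have hKw : τK w = κ.op γ w := by
    apply a.injective
    have := DFunLike.congr_fun hK w
    rw [AlgHom.comp_apply, AlgHom.comp_apply, hγ, ← κ.map_op] at this
    exact this.symm
  have hKz : τK z = ((ε : ℤ) : K) * z := by
    apply a.injective
    have := DFunLike.congr_fun hK z
    rw [AlgHom.comp_apply, AlgHom.comp_apply, hε] at this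
    show a (τK z) = a (((ε : ℤ) : K) * z)
    rw [← this, map_mul, map_intCast]
  obtain ⟨σ, hσ⟩ := hC.exists_toHom h2 τK hKx hKy
  have hgam : hC.gam σ = γ := by
    refine κ.op_inj _ _ w hC.w_ne ?_
    rw [← hC.gam_spec, hσ, hKw]
  have hsgn : hC.sgn σ = ε := by
    refine sign_unique h2K hC.z_ne ?_
    rw [← hC.sgn_spec, hσ, hKz]
  obtain ⟨τC, hCu, hCs⟩ := hsig γ (ε ^ j)
  have hCC : τ'.comp b = b.comp τC := by
    refine hom_ext {u, s} hCt _ _ ?_
    rintro e (rfl | he)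
    · rw [AlgHom.comp_apply, AlgHom.comp_apply, hCu, κ.map_op, ← hrec, κ.map_rec, hγ,
        hfix _ hdN, κ.rec_op]
    · rw [Set.mem_singleton_iff] at he
      rw [he, AlgHom.comp_apply, AlgHom.comp_apply, hCs, map_mul, map_intCast, hbs, map_mul,
        map_pow, hε, hfix _ hsN, mul_pow, Units.val_pow_eq_pow_val, Int.cast_pow]
      ring
  have h1 : T.map 1 τC c = ((((ε ^ j : ℤˣ) : ℤ) : L) * ((ψ γ : Lˣ) : L)⁻¹) • c := by
    rcases Int.units_eq_one_or (ε ^ j) with h | h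
    · rw [h] at hCs ⊢
      rw [hc γ τC hCu (by rw [hCs]; simp)]
      simp
    · rw [h] at hCs ⊢
      obtain ⟨τ0, e1, e2⟩ := hsig γ 1
      obtain ⟨ι, i1, i2⟩ := hsig 1 (-1)
      rw [κ.op_one] at i1
      have i3 : ι s = -s := by
        rw [i2]
        simp
      have e3 : τ0 s = s := by
        rw [e2]
        simp
      have e4 : τC s = -s := by
        rw [hCs]
        simp
      have h3 : τC = τ0.comp ι := by
        refine hom_ext {u, s} hCt _ _ ?_
        rintro e (rfl | he)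
        · rw [AlgHom.comp_apply, i1, e1, hCu]
        · rw [Set.mem_singleton_iff] at he
          rw [he, AlgHom.comp_apply, i3, map_neg, e3, e4]
      have hs2 : s ^ 2 ∈ adjoin Ω {u} := by
        rw [hs]
        exact algebra_adjoin_le_adjoin Ω {u} (Polynomial.aeval_mem_adjoin_singleton Ω u)
      have h4 := neg_of_involution T h2 u s hCt hs2 hs0 ι i1 i3 c
      have h5 : T.map 1 (τ0.comp ι) c = T.map 1 τ0 (T.map 1 ι c) :=
        LinearMap.congr_fun (T.map_comp 1 ι τ0) c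
      rw [h3, h5, h4, map_neg, hc γ τ0 e1 e3]
      simp
  refine ⟨τK, τC, (((ε ^ j : ℤˣ) : ℤ) : L), hK, hCC, ?_, ((ψ γ : Lˣ) : L), Units.ne_zero _, ?_, h1⟩
  · rcases Int.units_eq_one_or (ε ^ j) with h | h
    · rw [h]
      simp
    · rw [h]
      simp
  · rw [← hσ, ht σ, hgam, hsgn, Units.val_mul, hδ, mul_comm]

end

end Pool.Agent.Helper73.QW
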