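import Pool.Agent.Helper73.QW.Semi

/-!
# Purely inseparable extensions
-/

open IntermediateField Module

namespace Pool.Agent.Helper73.QW

open Pool.Agent.Helper75.QC

/-- restriction of the codomain -/
def cod {Ω K E : Type} [Field Ω] [Field K] [Algebra Ω K] [Field E] [Algebra Ω E]
    (N : IntermediateField Ω E) (g : K →ₐ[Ω] E) (h : ∀ k, g k ∈ N) : K →ₐ[Ω] N where
  toFun k := ⟨g k, h k⟩
  map_one' := Subtype.ext (map_one g)
  map_mul' a b := Subtype.ext (map_mul g a b)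
  map_zero' := Subtype.ext (map_zero g)
  map_add' a b := Subtype.ext (map_add g a b)
  commutes' r := Subtype.ext (g.commutes r)

/-- `K = Ω(S)` and the subfield generated by powers of the elements of `S` -/
theorem semisimple_of_subfield {p : ℕ} [hp : Fact p.Prime] {Ω L : Type} [Field Ω] [Field L]
    [CharZero L] [IsAlgClosed L] (T : Theory p Ω L) {e : ℕ} {K : Type} [Field K]
    [Algebra Ω K] (S : Set K) (hS : S.Finite) (htop : adjoin Ω S = ⊤) (φ : K →ₐ[Ω] K)
    (hφ : ∀ s ∈ S, φ s = s ^ p ^ e) (K1 : IntermediateField Ω K) (a : ℕ)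
    (hK : ∀ s ∈ S, s ^ p ^ (a * e) ∈ K1) (hφK : ∀ k ∈ K1, φ k ∈ K1)
    (H : ∀ φ1 : K1 →ₐ[Ω] K1, (∀ k, (φ1 k : K) = φ k) → End.IsSemisimple (T.map 2 φ1)) :
    End.IsSemisimple (T.map 2 φ) := by
  obtain ⟨φ1, hφ1⟩ : ∃ φ1 : K1 →ₐ[Ω] K1, ∀ k, (φ1 k : K) = φ k :=
    ⟨cod K1 (φ.comp K1.val) fun k => hφK _ k.2, fun k => rfl⟩
  have hss := H φ1 hφ1
  have hj : ∀ k : K, (φ ^ a) k ∈ K1 := by
    intro k
    have h1 : (⊤ : IntermediateField Ω K) ≤ K1.comap (φ ^ a) := by
      rw [← htop, adjoin_le_iff]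
      intro s hs
      show (φ ^ a) s ∈ K1
      rw [end_pow φ (hφ s hs)]
      exact hK s hs
    exact h1 (mem_top (x := k))
  obtain ⟨ψ, hψ⟩ : ∃ ψ : K →ₐ[Ω] K1, K1.val.comp ψ = φ ^ a :=
    ⟨cod K1 (φ ^ a) hj, AlgHom.ext fun k => rfl⟩
  have hfd : FiniteDimensional L (T.H 2 K) := T.fin 2 K (by
    rw [← htop]
    exact fg_adjoin_of_finite hS)
  have hinj : Function.Injective (T.map 2 (φ ^ a)) := by
    refine T.inj 2 (φ ^ a) fun k => alg_of_pow _ S htop (p ^ (a * e)) (pow_pos hp.out.pos _) ?_ k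
    intro s hs
    exact ⟨s, end_pow φ (hφ s hs) a⟩
  have hsurj : Function.Surjective (T.map 2 (φ ^ a)) := LinearMap.injective_iff_surjective.1 hinj
  have hsurj2 : Function.Surjective (T.map 2 K1.val) := by
    rw [← hψ, T.map_comp] at hsurj
    exact Function.Surjective.of_comp (g := T.map 2 ψ) hsurj
  refine semisimple_of_surj (T.map 2 φ1) (T.map 2 φ) (T.map 2 K1.val) hsurj2 ?_ hss
  intro v
  have h1 : K1.val.comp φ1 = φ.comp K1.val := AlgHom.ext fun k => hφ1 k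
  have h2 := congrArg (fun g => T.map 2 g v) h1
  simp only [T.map_comp, LinearMap.comp_apply] at h2
  exact h2

theorem uniruled_of_eq_top {Ω K : Type} [Field Ω] [Field K] [Algebra Ω K] {i : ℕ}
    {N : IntermediateField Ω K} (h : N = ⊤) (hu : Uniruled Ω N i) : Uniruled Ω K i := by
  obtain ⟨E, iE, jE, g, S, θ, h1, h2⟩ := hu
  refine ⟨E, iE, jE, g.comp (cod N (AlgHom.id Ω K) fun k => ?_), S, θ, h1, fun k => h2 _⟩
  rw [h]
  exact mem_top

theorem semisimple_of_zero {L V : Type} [Field L] [AddCommGroup V] [Module L V]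
    (Φ : End L V) (h : ∀ v : V, v = 0) : Φ.IsSemisimple := by
  have h1 : Φ = 0 := by
    ext v
    rw [h v, map_zero, map_zero]
  rw [h1]
  exact End.isSemisimple_zero

end Pool.Agent.Helper73.QW
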