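import Pool.Agent.Helper73.QW.Wt
import Pool.Agent.Helper73.QW.CurveK
import Pool.Agent.Helper73.QW.Wild
import Pool.Agent.Helper73.QW.Reduce
import Pool.Agent.Helper73.QW.Auto
import Pool.Agent.Helper75.TC.Dom

/-!
# Frobenius is semisimple for `h (w) = f (x, y)`, `z ^ 2 = g (x, y)`
-/

open IntermediateField Module

namespace Pool.Agent.Helper73.QW

open Pool.Agent.Helper75.QC

theorem aeval_ne_zero {Ω K : Type} [Field Ω] [Field K] [Algebra Ω K] {x y : K}
    (hxy : AlgebraicIndependent Ω ![x, y]) {H : MvPolynomial (Fin 2) Ω} (hH : H ≠ 0) :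
    MvPolynomial.aeval ![x, y] H ≠ 0 := fun h => hH (algebraicIndependent_iff.1 hxy H h)

theorem main_kind {p : ℕ} {Ω L : Type} [Field Ω] [IsAlgClosed Ω] [Field L] [CharZero L]
    [IsAlgClosed L] (κ : Kind p Ω) (T : Theory p Ω L) (hcurve : CurveHyp κ T.toBaseTheory)
    (hpo : Odd p) (h2 : (2 : Ω) ≠ 0) {k : ℕ} (hk : k ≤ 2) (F H q G : MvPolynomial (Fin 2) Ω)
    (hd0 : wdeg k G + wdeg k H + wdeg k F ≤ 2 * k + 2)
    (hd1 : wdeg k G + wdeg k H + (wdeg k H + 2 * wdeg k q) ≤ 2 * k + 2)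
    {K : Type} [Field K] [Algebra Ω K] (x y w z f : K) (hK : adjoin Ω {x, y, w, z} = ⊤)
    (hxy : AlgebraicIndependent Ω ![x, y]) (hH : H ≠ 0) (hq : q ≠ 0)
    (hf : f * (MvPolynomial.aeval ![x, y] H * MvPolynomial.aeval ![x, y] q ^ 2) =
      MvPolynomial.aeval ![x, y] F)
    (hw : Polynomial.aeval w κ.h = f) (hz : z ^ 2 = MvPolynomial.aeval ![x, y] G) (e : ℕ)
    (φ : K →ₐ[Ω] K)
    (hφ : φ x = x ^ p ^ e ∧ φ y = y ^ p ^ e ∧ φ w = w ^ p ^ e ∧ φ z = z ^ p ^ e) :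
    End.IsSemisimple (T.map 2 φ) := by
  have hHv := aeval_ne_zero hxy hH
  have hqv := aeval_ne_zero hxy hq
  have hx : x ∈ adjoin Ω {x, y} := subset_adjoin Ω _ (by simp)
  have hy : y ∈ adjoin Ω {x, y} := subset_adjoin Ω _ (by simp)
  have hfm : f ∈ adjoin Ω {x, y} := by
    have h1 : f = MvPolynomial.aeval ![x, y] F /
        (MvPolynomial.aeval ![x, y] H * MvPolynomial.aeval ![x, y] q ^ 2) := by
      rw [← hf, mul_div_cancel_right₀ _ (mul_ne_zero hHv (pow_ne_zero _ hqv))]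
    rw [h1]
    exact div_mem (aeval_mem_of _ hx hy F)
      (mul_mem (aeval_mem_of _ hx hy H) (pow_mem (aeval_mem_of _ hx hy q) 2))
  by_cases hw0 : w = 0
  · apply semisimple_of_zero
    apply T.uniruled
    refine uniruled_of_eq_top (N := adjoin Ω {x, y, z}) ?_
      (uni_weighted h2 hk G (by omega) x y z hz)
    rw [eq_top_iff, ← hK, adjoin_le_iff]
    rintro c (rfl | rfl | rfl | hc)
    · exact subset_adjoin Ω _ (by simp)
    · exact subset_adjoin Ω _ (by simp)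
    · rw [hw0]
      exact zero_mem _
    · rw [Set.mem_singleton_iff] at hc
      rw [hc]
      exact subset_adjoin Ω _ (by simp)
  by_cases hz0 : z = 0
  · have hC : Cover κ f (1 : K) x y w 1 :=
      { top := by
          rw [eq_top_iff, ← hK, adjoin_le_iff]
          rintro c (rfl | rfl | rfl | hc)
          · exact subset_adjoin Ω _ (by simp)
          · exact subset_adjoin Ω _ (by simp)
          · exact subset_adjoin Ω _ (by simp)
          · rw [Set.mem_singleton_iff] at hc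
            rw [hc, hz0]
            exact zero_mem _
        indep := hxy
        hf := hfm
        hg := one_mem _
        hw := hw
        hz := one_pow 2
        w_ne := hw0
        z_ne := one_ne_zero }
    have h1 : wdeg k (1 : MvPolynomial (Fin 2) Ω) ≤ 0 := wdeg_one
    refine hC.semisimple T hpo h2 (geo_of_wdeg κ h2 hk F H q 1 ?_ ?_ hHv hqv ?_ hf ?_) hcurve e
      φ ⟨hφ.1, hφ.2.1, hφ.2.2.1, by rw [map_one, one_pow]⟩
    · omega
    · omega
    · rw [map_one]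
      exact one_ne_zero
    · rw [map_one]
  have hC : Cover κ f (MvPolynomial.aeval ![x, y] G) x y w z :=
    { top := hK
      indep := hxy
      hf := hfm
      hg := aeval_mem_of _ hx hy G
      hw := hw
      hz := hz
      w_ne := hw0
      z_ne := hz0 }
  refine hC.semisimple T hpo h2 (geo_of_wdeg κ h2 hk F H q G hd0 hd1 hHv hqv ?_ hf rfl) hcurve e
    φ hφ
  rw [← hz]
  exact pow_ne_zero _ hz0

/-- the elements of an algebraic closure of the field with `p` elements -/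
theorem exists_pow_self {p : ℕ} [hp : Fact p.Prime] {Ω : Type} [Field Ω] [Algebra (ZMod p) Ω]
    [Algebra.IsAlgebraic (ZMod p) Ω] (c : Ω) : ∃ n : ℕ, 0 < n ∧ c ^ p ^ n = c := by
  have hc : IsIntegral (ZMod p) c := Algebra.IsIntegral.isIntegral c
  have : FiniteDimensional (ZMod p) (ZMod p)⟮c⟯ := adjoin.finiteDimensional hc
  have : Finite (ZMod p)⟮c⟯ := Module.finite_of_finite (ZMod p)
  have : Fintype (ZMod p)⟮c⟯ := Fintype.ofFinite _
  have : CharP (ZMod p)⟮c⟯ p :=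
    charP_of_injective_algebraMap (algebraMap (ZMod p) (ZMod p)⟮c⟯).injective p
  obtain ⟨d, -, hd⟩ := FiniteField.card (ZMod p)⟮c⟯ p
  refine ⟨d, d.pos, ?_⟩
  rw [← hd]
  exact congrArg Subtype.val
    (FiniteField.pow_card (⟨c, mem_adjoin_simple_self (ZMod p) c⟩ : (ZMod p)⟮c⟯))

theorem main_map {p : ℕ} [hp : Fact p.Prime] (hp2 : p ≠ 2) {Ω L : Type} [Field Ω] [CharP Ω p]
    [IsAlgClosed Ω] (halg : ∀ c : Ω, ∃ n : ℕ, 0 < n ∧ c ^ p ^ n = c)
    [Field L] [CharZero L] [IsAlgClosed L] (T : WildTheory p Ω L)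
    {k : ℕ} (hk : k ≤ 2) (F H q G : MvPolynomial (Fin 2) Ω)
    (hd0 : wdeg k G + wdeg k H + wdeg k F ≤ 2 * k + 2)
    (hd1 : wdeg k G + wdeg k H + (wdeg k H + 2 * wdeg k q) ≤ 2 * k + 2)
    (hH : H ≠ 0) (hq : q ≠ 0) {K : Type} [Field K] [Algebra Ω K] (x y w z f : K)
    (hK : adjoin Ω {x, y, w, z} = ⊤) (hxy : AlgebraicIndependent Ω ![x, y])
    (hf : f * (MvPolynomial.aeval ![x, y] H * MvPolynomial.aeval ![x, y] q ^ 2) =
      MvPolynomial.aeval ![x, y] F)
    (hw : (∃ n : ℕ, 0 < n ∧ w ^ n = f) ∨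
      ∃ A : Polynomial Ω, IsAdditive p A ∧ Polynomial.aeval w A = f)
    (hz : z ^ 2 = MvPolynomial.aeval ![x, y] G) {e : ℕ} (he : 0 < e) (φ : K →ₐ[Ω] K)
    (hφ : φ x = x ^ p ^ e ∧ φ y = y ^ p ^ e ∧ φ w = w ^ p ^ e ∧ φ z = z ^ p ^ e) :
    End.IsSemisimple (T.map 2 φ) := by
  have hpo : Odd p := hp.out.odd_of_ne_two hp2
  have h2 : (2 : Ω) ≠ 0 := by
    intro h
    have h1 : ((2 : ℕ) : Ω) = 0 := by exact_mod_cast h
    rw [CharP.cast_eq_zero_iff Ω p] at h1
    exact hp2 ((Nat.prime_dvd_prime_iff_eq hp.out Nat.prime_two).1 h1)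
  rcases hw with ⟨n, hn, hw⟩ | ⟨A, hA, hw⟩
  swap
  · obtain ⟨j, hj, hfix⟩ := exists_fixes halg hA
    exact main_kind (additive Ω p hp2 hA hj hfix) T.toTheory
      (curve_additive T.toBaseTheory T.additive hp2 hA hj hfix) hpo h2 hk F H q G
      hd0 hd1 x y w z f hK hxy hH hq hf hw hz e φ hφ
  obtain ⟨a, n', hpn, hnn⟩ := Nat.exists_eq_pow_mul_and_not_dvd hn.ne' p hp.out.ne_one
  have hn0 : 0 < n' := by
    rcases Nat.eq_zero_or_pos n' with h | h
    · subst h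
      exact absurd (dvd_zero p) hpn
    · exact h
  have hcast : (n' : Ω) ≠ 0 := by
    rw [Ne, CharP.cast_eq_zero_iff Ω p]
    exact hpn
  obtain ⟨K1, hK1⟩ : ∃ K1 : IntermediateField Ω K, K1 = adjoin Ω {x, y, w ^ p ^ a, z} := ⟨_, rfl⟩
  have hx : x ∈ K1 := by
    rw [hK1]
    exact subset_adjoin _ _ (by simp)
  have hy : y ∈ K1 := by
    rw [hK1]
    exact subset_adjoin _ _ (by simp)
  have hw1 : w ^ p ^ a ∈ K1 := by
    rw [hK1]
    exact subset_adjoin _ _ (by simp)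
  have hz1 : z ∈ K1 := by
    rw [hK1]
    exact subset_adjoin _ _ (by simp)
  refine semisimple_of_subfield T.toTheory (e := e) {x, y, w, z} (Set.toFinite _) hK φ ?_ K1 a
    ?_ ?_ ?_
  · rintro s (rfl | rfl | rfl | hs)
    · exact hφ.1
    · exact hφ.2.1
    · exact hφ.2.2.1
    · rw [Set.mem_singleton_iff] at hs
      rw [hs]
      exact hφ.2.2.2
  · rintro s (rfl | rfl | rfl | hs)
    · exact pow_mem hx _
    · exact pow_mem hy _
    · obtain ⟨r, hr⟩ := Nat.exists_eq_add_of_le (Nat.le_mul_of_pos_right a he)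
      rw [hr, pow_add, pow_mul]
      exact pow_mem hw1 _
    · rw [Set.mem_singleton_iff] at hs
      rw [hs]
      exact pow_mem hz1 _
  · intro k hk
    have h1 : K1 ≤ K1.comap φ := by
      conv_lhs => rw [hK1]
      rw [adjoin_le_iff]
      rintro s (rfl | rfl | rfl | hs)
      · show φ s ∈ K1
        rw [hφ.1]
        exact pow_mem hx _
      · show φ s ∈ K1
        rw [hφ.2.1]
        exact pow_mem hy _
      · show φ (w ^ p ^ a) ∈ K1
        rw [map_pow, hφ.2.2.1, ← pow_mul, mul_comm, pow_mul]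
        exact pow_mem hw1 _
      · rw [Set.mem_singleton_iff] at hs
        rw [hs]
        show φ z ∈ K1
        rw [hφ.2.2.2]
        exact pow_mem hz1 _
    exact h1 hk
  · intro φ1 hφ1
    have hval : ∀ P : MvPolynomial (Fin 2) Ω,
        ((MvPolynomial.aeval ![(⟨x, hx⟩ : K1), ⟨y, hy⟩] P : K1) : K) =
          MvPolynomial.aeval ![x, y] P := by
      intro P
      exact map_aeval_of K1.val ⟨x, hx⟩ ⟨y, hy⟩ P
    refine main_kind (kummer Ω p h2 hn0 hcast) T.toTheory (curve_kummer T.toBaseTheory h2 hn0 hcast)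
      hpo h2 hk F H q G hd0 hd1 (⟨x, hx⟩ : K1) ⟨y, hy⟩ ⟨w ^ p ^ a, hw1⟩ ⟨z, hz1⟩
      ((⟨w ^ p ^ a, hw1⟩ : K1) ^ n') ?_ ?_ hH hq ?_ ?_ ?_ e φ1 ?_
    · apply lift_injective K1
      rw [lift_top, lift_adjoin]
      simp only [Set.image_insert_eq, Set.image_singleton]
      exact hK1.symm
    · refine AlgebraicIndependent.of_comp K1.val ?_
      convert! hxy using 1
      ext i
      fin_cases i <;> rfl
    · apply Subtype.ext
      show ((w ^ p ^ a) ^ n') * (((MvPolynomial.aeval _ H : K1) : K) *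
        ((MvPolynomial.aeval _ q : K1) : K) ^ 2) = ((MvPolynomial.aeval _ F : K1) : K)
      rw [hval, hval, hval, ← pow_mul, ← hnn, hw, hf]
    · show Polynomial.aeval _ (Polynomial.X ^ n' : Polynomial Ω) = _
      rw [map_pow, Polynomial.aeval_X]
    · apply Subtype.ext
      show z ^ 2 = ((MvPolynomial.aeval _ G : K1) : K)
      rw [hval, hz]
    · refine ⟨?_, ?_, ?_, ?_⟩
      · exact Subtype.ext ((hφ1 _).trans hφ.1)
      · exact Subtype.ext ((hφ1 _).trans hφ.2.1)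
      · apply Subtype.ext
        rw [hφ1]
        show φ (w ^ p ^ a) = (w ^ p ^ a) ^ p ^ e
        rw [map_pow, hφ.2.2.1, ← pow_mul, ← pow_mul, mul_comm]
      · exact Subtype.ext ((hφ1 _).trans hφ.2.2.2)

/-- `K = Ω(x, y, w, z)`, `z ^ 2 = G (x, y)`, and `w ^ n = f` or `A (w) = f`, `A` an additive
polynomial, where `f = F / (H s ^ 2)` is a function of `x, y`, `F`, `G`, `H`, `s` are polynomials of
small degree for the weights `1, k` of `x, y`. -/
def IsPencilCover (p : ℕ) (Ω K : Type) [Field Ω] [Field K] [Algebra Ω K] : Prop :=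
  ∃ (k : ℕ) (F H s G : MvPolynomial (Fin 2) Ω) (x y w z f : K), k ≤ 2 ∧
    wdeg k G + wdeg k H + max (wdeg k F) (wdeg k H + 2 * wdeg k s) ≤ 2 * k + 2 ∧
    AlgebraicIndependent Ω ![x, y] ∧ adjoin Ω {x, y, w, z} = ⊤ ∧ z ^ 2 = val G x y ∧
    H ≠ 0 ∧ s ≠ 0 ∧ f = val F x y / (val H x y * val s x y ^ 2) ∧
    ((∃ n : ℕ, 0 < n ∧ w ^ n = f) ∨
      ∃ A : Polynomial Ω, IsAdditive p A ∧ Polynomial.aeval w A = f)

theorem IsPlaneCover.isPencilCover {p : ℕ} {Ω K : Type} [Field Ω] [Field K] [Algebra Ω K]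
    (h : IsPlaneCover p Ω K) : IsPencilCover p Ω K := by
  obtain ⟨k, f, g, φ, x, y, w, hk, hf, hg, hg0, hφ, hxy, htop, hw⟩ := h
  have h1 : wdeg k (1 : MvPolynomial (Fin 2) Ω) = 0 := Nat.le_zero.1 wdeg_one
  refine ⟨k, f, 1, g, 1, x, y, w, 1, Polynomial.aeval w φ, hk, ?_, hxy, ?_, ?_, one_ne_zero, hg0,
    ?_, ?_⟩
  · rw [h1]
    omega
  · rw [eq_top_iff, ← htop]
    refine adjoin.mono _ _ _ ?_
    rintro c (rfl | rfl | hc)
    · simp
    · simp
    · rw [Set.mem_singleton_iff] at hc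
      rw [hc]
      simp
  · rw [val, map_one, one_pow]
  · rw [hw, val, val, val, map_one, one_mul]
  · rcases hφ with ⟨n, hn, rfl⟩ | hφ
    · exact Or.inl ⟨n, hn, by rw [map_pow, Polynomial.aeval_X]⟩
    · exact Or.inr ⟨φ, hφ, rfl⟩

theorem main {p : ℕ} [hp : Fact p.Prime] (hp2 : p ≠ 2) {Ω L : Type} [Field Ω]
    [Algebra (ZMod p) Ω] [IsAlgClosure (ZMod p) Ω] [Field L] [CharZero L] [IsAlgClosed L]
    (T : WildTheory p Ω L) {K K₀ : Type} [Field K] [Algebra Ω K] (hK : IsPencilCover p Ω K)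
    [Field K₀] [Algebra Ω K₀] (hfin : (⊤ : IntermediateField Ω K₀).FG) (ι : K₀ →ₐ[Ω] K)
    (hι : ∀ a : K, IsAlgebraic ι.fieldRange a) {e : ℕ} (he : 0 < e) (φ₀ : K₀ →ₐ[Ω] K₀)
    (h₀ : IsFrob (p ^ e) φ₀) {V : Type} [AddCommGroup V] [Module L V] (Fr : Module.End L V)
    (r : V →ₗ[L] T.H 2 K₀) (hV : IsH2 T.toTheory (p ^ e) φ₀ Fr r) : Fr.IsSemisimple := by
  have : CharP Ω p := charP_of_injective_algebraMap (algebraMap (ZMod p) Ω).injective p
  have : IsAlgClosed Ω := IsAlgClosure.isAlgClosed (ZMod p)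
  have : Algebra.IsAlgebraic (ZMod p) Ω := IsAlgClosure.isAlgebraic
  have : PerfectRing Ω p := inferInstance
  obtain ⟨k, F, H, s, G, x, y, w, z, f, hk, hdeg, hxy, htop, hz, hH, hs, hf, hw⟩ := hK
  obtain ⟨m, φ, hm, hφ, hφ₀⟩ := exists_compatible (p := p) {x, y, w, z} (Set.toFinite _) htop hfin
    ι φ₀ h₀
  have hf' : f * (MvPolynomial.aeval ![x, y] H * MvPolynomial.aeval ![x, y] s ^ 2) =
      MvPolynomial.aeval ![x, y] F := by
    rw [hf]
    exact div_mul_cancel₀ _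
      (mul_ne_zero (aeval_ne_zero hxy hH) (pow_ne_zero _ (aeval_ne_zero hxy hs)))
  have e0 := le_max_left (wdeg k F) (wdeg k H + 2 * wdeg k s)
  have e1 := le_max_right (wdeg k F) (wdeg k H + 2 * wdeg k s)
  have e2 := main_map hp2 exists_pow_self T hk F H s G (by omega) (by omega) hH hs x y w z f htop hxy hf' hw hz
    (Nat.mul_pos he hm) φ ⟨hφ x (by simp), hφ y (by simp), hφ w (by simp), hφ z (by simp)⟩
  have hfinK : (⊤ : IntermediateField Ω K).FG := by
    rw [← htop]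
    exact fg_adjoin_of_finite (Set.toFinite _)
  have e3 := Pool.Agent.Helper75.TC.semisimple_of_dom T.toTheory hfinK ι hι hm φ₀ φ h₀
    (fun a => (hφ₀ a).symm) e2
  obtain ⟨m', hm', hk'⟩ := hV.classes
  refine semisimple_of_parts Fr (T.map 2 φ₀) r hV.comm e3 ((p ^ e : ℕ) : L) ?_ hm' hk' hV.compl
  exact_mod_cast pow_ne_zero _ hp.out.ne_zero

theorem main_plane {p : ℕ} [hp : Fact p.Prime] (hp2 : p ≠ 2) {Ω L : Type} [Field Ω]
    [Algebra (ZMod p) Ω] [IsAlgClosure (ZMod p) Ω] [Field L] [CharZero L] [IsAlgClosed L]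
    (T : WildTheory p Ω L) {K K₀ : Type} [Field K] [Algebra Ω K] (hK : IsPlaneCover p Ω K)
    [Field K₀] [Algebra Ω K₀] (hfin : (⊤ : IntermediateField Ω K₀).FG) (ι : K₀ →ₐ[Ω] K)
    (hι : ∀ a : K, IsAlgebraic ι.fieldRange a) {e : ℕ} (he : 0 < e) (φ₀ : K₀ →ₐ[Ω] K₀)
    (h₀ : IsFrob (p ^ e) φ₀) {V : Type} [AddCommGroup V] [Module L V] (Fr : Module.End L V)
    (r : V →ₗ[L] T.H 2 K₀) (hV : IsH2 T.toTheory (p ^ e) φ₀ Fr r) : Fr.IsSemisimple :=
  main hp2 T hK.isPencilCover hfin ι hι he φ₀ h₀ Fr r hV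

end Pool.Agent.Helper73.QW
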