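import Pool.Agent.Helper73.QW.Galois
import Pool.Agent.Helper73.QW.Main

/-!
# The Tate conjecture for Artin-Schreier covers of pencils
-/

open IntermediateField Module

namespace Pool.Agent.Helper73.QW

open Pool.Agent.Helper75.QC Pool.Agent.Helper35.TD

theorem galKind_kummer {p : ℕ} [hp : Fact p.Prime] {Ω : Type} [Field Ω] [CharP Ω p]
    [IsAlgClosed Ω] (h2 : (2 : Ω) ≠ 0) {n : ℕ} (hn : 0 < n) (hn' : (n : Ω) ≠ 0) :
    GalKind (kummer Ω p h2 hn hn') where
  fix := by
    have : NeZero n := ⟨hn.ne'⟩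
    refine ⟨Set.range fun g : rootsOfUnity n Ω => ((g : Ωˣ) : Ω), Set.finite_range _, ?_, ?_⟩
    · intro τ _
      show Polynomial.map _ (1 - Polynomial.C 4 * Polynomial.X ^ n) = _
      rw [Polynomial.map_sub, Polynomial.map_one, Polynomial.map_mul, Polynomial.map_C,
        Polynomial.map_pow, Polynomial.map_X, map_ofNat]
      rfl
    intro E _ _ τ γ hτ hγ g e
    show γ (algebraMap Ω E _ * e) = algebraMap Ω E _ * γ e
    rw [map_mul, hγ]
    congr 2
    exact hτ _ ⟨g, rfl⟩

theorem galKind_additive {p : ℕ} [hp : Fact p.Prime] {Ω : Type} [Field Ω] [CharP Ω p]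
    [IsAlgClosed Ω] (hp2 : p ≠ 2) {A : Polynomial Ω} (hA : IsAdditive p A) {k : ℕ} (hk : 0 < k)
    (hfix : Fixes hA k) : GalKind (additive Ω p hp2 hA hk hfix) where
  fix := by
    have := finite_ker hA
    refine ⟨(Set.range fun g : ker hA => (g : Ω)) ∪ (A.coeffs : Set Ω),
      (Set.finite_range _).union (Finset.finite_toSet _), ?_, ?_⟩
    · intro τ hτ
      show Polynomial.map (τ : Ω →+* Ω) A = A
      ext i
      rw [Polynomial.coeff_map]
      by_cases h : A.coeff i = 0
      · rw [h, map_zero]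
      · exact hτ _ (Or.inr (Polynomial.coeff_mem_coeffs h))
    intro E _ _ τ γ hτ hγ g e
    let g' : Multiplicative (ker hA) := g
    show γ (e + algebraMap Ω E ((Multiplicative.toAdd g' : ker hA) : Ω)) =
      γ e + algebraMap Ω E ((Multiplicative.toAdd g' : ker hA) : Ω)
    rw [map_add, hγ]
    congr 2
    exact hτ _ (Or.inl ⟨Multiplicative.toAdd g', rfl⟩)

/-- `GaloisTheory` and the first cohomology of the curves `s ^ 2 = A (u)`, `A` additive, in odd
characteristic as a representation of the group of translations. -/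
structure WildGalois (F Ω L : Type) [Field F] [Field Ω] [Algebra F Ω] [Field L] extends
    GaloisTheory F Ω L where
  additive : ∀ p : ℕ, p.Prime → (p : Ω) = 0 → TranslationCurves p toCohomology

/-- `K = Ω(x, y, w, z)`, `z ^ 2 = G (x, y)`, `A (w) = f`, where `A` is an additive polynomial, the
characteristic is `p ≠ 2` and `f = F / (H s ^ 2)` is a function of `x, y`, `F`, `G`, `H`, `s` are
polynomials of small degree for the weights `1, k` of `x, y`. -/
def IsWildCover (Ω K : Type) [Field Ω] [Field K] [Algebra Ω K] : Prop :=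
  ∃ (p k : ℕ) (A : Polynomial Ω) (F H s G : MvPolynomial (Fin 2) Ω) (x y w z f : K), p.Prime ∧
    (p : Ω) = 0 ∧ p ≠ 2 ∧ IsAdditive p A ∧ k ≤ 2 ∧
    wdeg k G + wdeg k H + max (wdeg k F) (wdeg k H + 2 * wdeg k s) ≤ 2 * k + 2 ∧
    AlgebraicIndependent Ω ![x, y] ∧ adjoin Ω {x, y, w, z} = ⊤ ∧ z ^ 2 = val G x y ∧
    H ≠ 0 ∧ s ≠ 0 ∧ f = val F x y / (val H x y * val s x y ^ 2) ∧ Polynomial.aeval w A = f

theorem noTate_of_zero {F Ω L : Type} [Field F] [Field Ω] [Algebra F Ω] [Field L]
    (T : GaloisTheory F Ω L) {K : Type} [Field K] [Algebra Ω K] (h : ∀ t : T.H 2 K, t = 0) :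
    NoTate T K := fun _ _ _ _ t _ => h t

theorem noTate_kind {p : ℕ} {F Ω L : Type} [Field F] [Field Ω] [Algebra F Ω]
    [Algebra.IsAlgebraic F Ω] [IsAlgClosed Ω] [Field L] [CharZero L] [IsAlgClosed L]
    (κ : Kind p Ω) (hκ : GalKind κ) (T : GaloisTheory F Ω L)
    (hcurve : CurveHyp κ T.toBaseTheory) (h2 : (2 : Ω) ≠ 0) {k : ℕ} (hk : k ≤ 2)
    (F' H q G : MvPolynomial (Fin 2) Ω)
    (hd0 : wdeg k G + wdeg k H + wdeg k F' ≤ 2 * k + 2)
    (hd1 : wdeg k G + wdeg k H + (wdeg k H + 2 * wdeg k q) ≤ 2 * k + 2)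
    {K : Type} [Field K] [Algebra Ω K] (x y w z f : K) (hK : adjoin Ω {x, y, w, z} = ⊤)
    (hxy : AlgebraicIndependent Ω ![x, y]) (hH : H ≠ 0) (hq : q ≠ 0)
    (hf : f * (MvPolynomial.aeval ![x, y] H * MvPolynomial.aeval ![x, y] q ^ 2) =
      MvPolynomial.aeval ![x, y] F')
    (hw : Polynomial.aeval w κ.h = f) (hz : z ^ 2 = MvPolynomial.aeval ![x, y] G) :
    NoTate T K := by
  have hHv := aeval_ne_zero hxy hH
  have hqv := aeval_ne_zero hxy hq
  have hx : x ∈ adjoin Ω {x, y} := subset_adjoin Ω _ (by simp)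
  have hy : y ∈ adjoin Ω {x, y} := subset_adjoin Ω _ (by simp)
  have hfm : f ∈ adjoin Ω {x, y} := by
    have h1 : f = MvPolynomial.aeval ![x, y] F' /
        (MvPolynomial.aeval ![x, y] H * MvPolynomial.aeval ![x, y] q ^ 2) := by
      rw [← hf, mul_div_cancel_right₀ _ (mul_ne_zero hHv (pow_ne_zero _ hqv))]
    rw [h1]
    exact div_mem (aeval_mem_of _ hx hy F')
      (mul_mem (aeval_mem_of _ hx hy H) (pow_mem (aeval_mem_of _ hx hy q) 2))
  by_cases hw0 : w = 0
  · apply noTate_of_zero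
    apply T.uniruled
    refine uniruled_of_eq_top (N := adjoin Ω {x, y, z}) ?_
      (uni_weighted h2 hk G (by omega) x y z hz)
    rw [eq_top_iff, ← hK, adjoin_le_iff]
    rintro c (rfl | rfl | rfl | hc)
    · exact subset_adjoin Ω _ (by simp)
    · exact subset_adjoin Ω _ (by simp)
    · rw [hw0]
      exact zero_mem _
    · rw [Set.mem_singleton_iff] at hc
      rw [hc]
      exact subset_adjoin Ω _ (by simp)
  by_cases hz0 : z = 0
  · have hC : Cover κ f (1 : K) x y w 1 :=
      { top := by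
          rw [eq_top_iff, ← hK, adjoin_le_iff]
          rintro c (rfl | rfl | rfl | hc)
          · exact subset_adjoin Ω _ (by simp)
          · exact subset_adjoin Ω _ (by simp)
          · exact subset_adjoin Ω _ (by simp)
          · rw [Set.mem_singleton_iff] at hc
            rw [hc, hz0]
            exact zero_mem _
        indep := hxy
        hf := hfm
        hg := one_mem _
        hw := hw
        hz := one_pow 2
        w_ne := hw0
        z_ne := one_ne_zero }
    have h1 : wdeg k (1 : MvPolynomial (Fin 2) Ω) ≤ 0 := wdeg_one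
    refine hC.noTate T h2 (geo_of_wdeg κ h2 hk F' H q 1 ?_ ?_ hHv hqv ?_ hf ?_) hcurve hκ
    · omega
    · omega
    · rw [map_one]
      exact one_ne_zero
    · rw [map_one]
  have hC : Cover κ f (MvPolynomial.aeval ![x, y] G) x y w z :=
    { top := hK
      indep := hxy
      hf := hfm
      hg := aeval_mem_of _ hx hy G
      hw := hw
      hz := hz
      w_ne := hw0
      z_ne := hz0 }
  refine hC.noTate T h2 (geo_of_wdeg κ h2 hk F' H q G hd0 hd1 hHv hqv ?_ hf rfl) hcurve hκ
  rw [← hz]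
  exact pow_ne_zero _ hz0

/-- **Artin-Schreier covers.** -/
theorem noTate_wild {F Ω L : Type} [Field F] [Finite F] [Field Ω] [Algebra F Ω]
    [Algebra.IsAlgebraic F Ω] [IsAlgClosed Ω] [Field L] [CharZero L] [IsAlgClosed L]
    (T : WildGalois F Ω L) {K : Type} [Field K] [Algebra Ω K] (hK : IsWildCover Ω K) :
    NoTate T.toGaloisTheory K := by
  obtain ⟨p, k, A, P, H, s, G, x, y, w, z, f, hp, hp0, hp2, hA, hk, hdeg, hxy, htop, hz, hH, hs,
    hf, hw⟩ := hK
  have : Fact p.Prime := ⟨hp⟩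
  have hc : CharP Ω p := by
    obtain ⟨q, hq⟩ := CharP.exists Ω
    have h1 := (CharP.cast_eq_zero_iff Ω q p).1 hp0
    rcases (Nat.dvd_prime hp).1 h1 with h | h
    · subst h
      exact absurd rfl (CharP.char_ne_one Ω 1)
    · rwa [h] at hq
  have h2 : (2 : Ω) ≠ 0 := by
    intro h
    have h1 : ((2 : ℕ) : Ω) = 0 := by exact_mod_cast h
    rw [CharP.cast_eq_zero_iff Ω p] at h1
    exact hp2 ((Nat.prime_dvd_prime_iff_eq hp Nat.prime_two).1 h1)
  have halg : ∀ c : Ω, ∃ n : ℕ, 0 < n ∧ c ^ p ^ n = c := by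
    intro c
    have hc : IsIntegral F c := Algebra.IsIntegral.isIntegral c
    have : FiniteDimensional F F⟮c⟯ := adjoin.finiteDimensional hc
    have : Finite F⟮c⟯ := Module.finite_of_finite F
    have : Fintype F⟮c⟯ := Fintype.ofFinite _
    have : CharP F⟮c⟯ p := (RingHom.charP_iff (algebraMap F⟮c⟯ Ω)
      (algebraMap F⟮c⟯ Ω).injective p).2 inferInstance
    obtain ⟨d, -, hd⟩ := FiniteField.card F⟮c⟯ p
    refine ⟨d, d.pos, ?_⟩
    rw [← hd]
    exact congrArg Subtype.val (FiniteField.pow_card (⟨c, mem_adjoin_simple_self F c⟩ : F⟮c⟯))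
  have hf' : f * (MvPolynomial.aeval ![x, y] H * MvPolynomial.aeval ![x, y] s ^ 2) =
      MvPolynomial.aeval ![x, y] P := by
    rw [hf]
    exact div_mul_cancel₀ _
      (mul_ne_zero (aeval_ne_zero hxy hH) (pow_ne_zero _ (aeval_ne_zero hxy hs)))
  have e0 := le_max_left (wdeg k P) (wdeg k H + 2 * wdeg k s)
  have e1 := le_max_right (wdeg k P) (wdeg k H + 2 * wdeg k s)
  obtain ⟨j, hj, hfix⟩ := exists_fixes halg hA
  exact noTate_kind (Helper73.QW.additive Ω p hp2 hA hj hfix) (galKind_additive hp2 hA hj hfix)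
    T.toGaloisTheory (curve_additive T.toBaseTheory (T.additive p hp hp0) hp2 hA hj hfix) h2 hk P H
    s G (by omega) (by omega) x y w z f htop hxy hH hs hf' hw hz

end Pool.Agent.Helper73.QW
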