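import Pool.Agent.Helper73.QW.Group

/-!
# Rational functions of small degree
-/

open IntermediateField Module

namespace Pool.Agent.Helper73.QW

open Pool.Agent.Helper75.QC

section

variable {p : ℕ} {Ω : Type} [Field Ω] (κ : Kind p Ω) {K : Type} [Field K] [Algebra Ω K]

theorem transcendental_restrict {N : Type} [Field N] [Algebra Ω N] (a : K →ₐ[Ω] N) {x y : K}
    {d : N} (hd : Transcendental a.fieldRange d) :
    Transcendental (Algebra.adjoin Ω (Set.range ![a x, a y])) d := by
  rintro ⟨P, hP0, hP⟩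
  apply hd
  have hle : ∀ e ∈ Algebra.adjoin Ω (Set.range ![a x, a y]), e ∈ a.fieldRange := by
    intro e he
    have : Algebra.adjoin Ω (Set.range ![a x, a y]) ≤ a.fieldRange.toSubalgebra := by
      rw [Algebra.adjoin_le_iff]
      rintro _ ⟨i, rfl⟩
      fin_cases i
      · exact ⟨x, rfl⟩
      · exact ⟨y, rfl⟩
    exact this he
  let i : Algebra.adjoin Ω (Set.range ![a x, a y]) →+* a.fieldRange :=
    (Subalgebra.inclusion (show Algebra.adjoin Ω (Set.range ![a x, a y]) ≤
      a.fieldRange.toSubalgebra from hle)).toRingHom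
  have hi : Function.Injective i := fun e e' hee =>
    Subtype.ext (congrArg (fun v : a.fieldRange => (v : N)) hee)
  refine ⟨P.map i, (Polynomial.map_ne_zero_iff hi).2 hP0, ?_⟩
  rw [Polynomial.aeval_def, Polynomial.eval₂_map]
  exact hP

/-- `f = F / (H q ^ 2)` and `g = G` with
`deg G + deg H + max (deg F) (deg H + 2 deg q) ≤ 4` -/
theorem geo_of_degree [IsAlgClosed Ω] (h2 : (2 : Ω) ≠ 0) (F H q G : MvPolynomial (Fin 2) Ω)
    (hd0 : G.totalDegree + H.totalDegree + F.totalDegree ≤ 4)
    (hd1 : G.totalDegree + H.totalDegree + (H.totalDegree + 2 * q.totalDegree) ≤ 4)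
    {f g x y : K} (hxy : AlgebraicIndependent Ω ![x, y])
    (hH : MvPolynomial.aeval ![x, y] H ≠ 0) (hq : MvPolynomial.aeval ![x, y] q ≠ 0)
    (hG : MvPolynomial.aeval ![x, y] G ≠ 0)
    (hf : f * (MvPolynomial.aeval ![x, y] H * MvPolynomial.aeval ![x, y] q ^ 2) =
      MvPolynomial.aeval ![x, y] F) (hg : g = MvPolynomial.aeval ![x, y] G) :
    Geo κ f g x y := by
  have hpow : ∀ (P : MvPolynomial (Fin 2) Ω) (j : ℕ), j ≤ 1 →
      (P ^ j).totalDegree ≤ P.totalDegree := by
    intro P j hj
    refine (MvPolynomial.totalDegree_pow P j).trans ?_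
    calc j * P.totalDegree ≤ 1 * P.totalDegree := Nat.mul_le_mul_right _ hj
      _ = P.totalDegree := one_mul _
  constructor
  · intro N _ _ a d s j hj hd hs
    have hxy' : AlgebraicIndependent Ω ![a x, a y] := by
      have h := hxy.map' (f := a) a.injective
      convert! h using 1
      ext i
      fin_cases i <;> rfl
    have e1 := MvPolynomial.totalDegree_mul (G ^ j) H
    have e2 := MvPolynomial.totalDegree_mul H (q ^ 2)
    have e3 := MvPolynomial.totalDegree_pow q 2
    have e4 := hpow G j hj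
    refine uniruled_three h2 (G ^ j * H) (H * q ^ 2) F (G ^ j * H * q) (by omega) (by omega)
      κ.c0 κ.c1 (a x) (a y) d s hxy' (transcendental_restrict a hd) ?_ ?_
    · rw [map_mul, map_mul, map_pow, ← map_aeval_of, ← map_aeval_of, ← map_aeval_of]
      exact mul_ne_zero (mul_ne_zero (pow_ne_zero _ ((map_ne_zero a).2 hG))
        ((map_ne_zero a).2 hH)) ((map_ne_zero a).2 hq)
    · rw [hg] at hs
      have e5 := congrArg a hf
      rw [map_mul, map_mul, map_pow] at e5
      simp only [map_mul, map_pow]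
      rw [← map_aeval_of a x y G, ← map_aeval_of a x y H, ← map_aeval_of a x y q,
        ← map_aeval_of a x y F, ← e5]
      linear_combination (a (MvPolynomial.aeval ![x, y] G)) ^ j *
        (a (MvPolynomial.aeval ![x, y] H)) ^ 2 * (a (MvPolynomial.aeval ![x, y] q)) ^ 2 * hs
  · intro r i j hi hj hr
    have e1 := MvPolynomial.totalDegree_mul (F ^ i * H ^ i) (G ^ j)
    have e2 := MvPolynomial.totalDegree_mul (F ^ i) (H ^ i)
    have e4 := hpow G j hj
    have e5 := hpow F i hi
    have e6 := hpow H i hi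
    refine uniruled_two h2 (F ^ i * H ^ i * G ^ j) (H ^ i * q ^ i) (by omega) x y r hxy ?_ ?_
    · rw [map_mul, map_pow, map_pow]
      exact mul_ne_zero (pow_ne_zero _ hH) (pow_ne_zero _ hq)
    · simp only [map_mul, map_pow]
      rw [← hf, ← hg, mul_pow, hr]
      ring

end

end Pool.Agent.Helper73.QW
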