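import Mathlib

/-!
# Kummer and Artin-Schreier coverings of the line by the line

A common description of `w ↦ w ^ n` and `w ↦ w ^ q - w`.
-/

open Polynomial

namespace Pool.Agent.Helper73.QW

/-- a covering `h` of the line by the line with its group `Γ`, the action `op` of `Γ`, the
difference `dif u w` of two points, its inverse `rec`, and the equation `s ^ 2 = D (u)` of the
auxiliary curve -/
structure Kind (p : ℕ) (Ω : Type) [Field Ω] where
  Γ : Type
  [grp : CommGroup Γ]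
  [fin : Finite Γ]
  op : ∀ {E : Type} [Field E] [Algebra Ω E], Γ → E → E
  rec' : ∀ {E : Type} [Field E] [Algebra Ω E], E → E → E
  dif : ∀ {E : Type} [Field E] [Algebra Ω E], E → E → E
  h : Polynomial Ω
  D : Polynomial Ω
  c0 : Polynomial Ω
  c1 : Polynomial Ω
  k : ℕ
  op_one : ∀ {E : Type} [Field E] [Algebra Ω E] (e : E), op 1 e = e
  op_mul : ∀ {E : Type} [Field E] [Algebra Ω E] (γ γ' : Γ) (e : E), op (γ * γ') e = op γ (op γ' e)
  op_inj : ∀ {E : Type} [Field E] [Algebra Ω E] (γ γ' : Γ) (e : E), e ≠ 0 → op γ e = op γ' e →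
    γ = γ'
  op_mem : ∀ {E : Type} [Field E] [Algebra Ω E] (M : IntermediateField Ω E) (γ : Γ) (e : E),
    e ∈ M → op γ e ∈ M
  map_op : ∀ {E E' : Type} [Field E] [Algebra Ω E] [Field E'] [Algebra Ω E'] (g : E →ₐ[Ω] E')
    (γ : Γ) (e : E), g (op γ e) = op γ (g e)
  map_rec : ∀ {E E' : Type} [Field E] [Algebra Ω E] [Field E'] [Algebra Ω E'] (g : E →ₐ[Ω] E')
    (d w : E), g (rec' d w) = rec' (g d) (g w)
  map_dif : ∀ {E E' : Type} [Field E] [Algebra Ω E] [Field E'] [Algebra Ω E'] (g : E →ₐ[Ω] E')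
    (u w : E), g (dif u w) = dif (g u) (g w)
  rec_dif : ∀ {E : Type} [Field E] [Algebra Ω E] (u w : E), w ≠ 0 → rec' (dif u w) w = u
  rec_op : ∀ {E : Type} [Field E] [Algebra Ω E] (γ : Γ) (d w : E),
    rec' d (op γ w) = op γ (rec' d w)
  rec_mem : ∀ {E : Type} [Field E] [Algebra Ω E] (M : IntermediateField Ω E) (d w : E),
    d ∈ M → w ∈ M → rec' d w ∈ M
  h_op : ∀ {E : Type} [Field E] [Algebra Ω E] (γ : Γ) (e : E), aeval (op γ e) h = aeval e h
  h_eq : ∀ {E : Type} [Field E] [Algebra Ω E] (e e' : E), aeval e h = aeval e' h →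
    ∃ γ, e' = op γ e
  h_sep : ∀ {E E' : Type} [Field E] [Algebra Ω E] [Field E'] [Algebra Ω E'] [Algebra E E']
    [IsScalarTower Ω E E'] (c : E) (w : E'), w ≠ 0 → aeval w h = algebraMap E E' c →
      (h.map (algebraMap Ω E) - C c).Separable ∧
        ((h.map (algebraMap Ω E) - C c).map (algebraMap E E')).Splits
  D_rec : ∀ {E : Type} [Field E] [Algebra Ω E] (d w : E),
    aeval (rec' d w) D = aeval d c0 + aeval d c1 * aeval w h
  D_op : ∀ {E : Type} [Field E] [Algebra Ω E] (γ : Γ) (e : E), aeval (op γ e) D = aeval e D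
  D_sqf : ∀ {E : Type} [Field E] [Algebra Ω E], Squarefree (D.map (algebraMap Ω E))
  D_deg : 0 < D.natDegree
  D_frob : ∀ {E : Type} [Field E] [Algebra Ω E] (e : E),
    aeval (e ^ p ^ k) D = aeval e D ^ p ^ k
  k_pos : 0 < k
  frob : ∀ {E : Type} [Field E] [Algebra Ω E] (γ : Γ) (e : E),
    op γ e ^ p ^ k = op γ (e ^ p ^ k)
  bad : ∀ {L : Type} [Field L] (ψ : Γ →* Lˣ), (∀ γ, ψ γ ^ 2 = 1) → ∃ m : ℕ,
    (m = 0 ∨ ∀ {E : Type} [Field E] [Algebra Ω E] (e : E), (e ^ m) ^ 2 = aeval e h) ∧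
      ∀ {E : Type} [Field E] [Algebra Ω E] (γ : Γ) (e : E),
        (ψ γ = 1 ∧ op γ e ^ m = e ^ m) ∨ (ψ γ = -1 ∧ op γ e ^ m = - e ^ m)

attribute [instance] Kind.grp Kind.fin

end Pool.Agent.Helper73.QW
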