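import Pool.Agent.Helper73.QU.Quartic
import Pool.Agent.Helper75.QC.Base

/-!
# Varieties which are double planes of degree at most four over a field
-/

open IntermediateField

namespace Pool.Agent.Helper73.QW

open Pool.Agent.Helper75.QC Pool.Agent.Helper73.QU

theorem acl_map {Ω E E' : Type} [Field Ω] [Field E] [Algebra Ω E] [Field E'] [Algebra Ω E']
    (g : E →ₐ[Ω] E') {S : Set E} {S' : Set E'} (hS : ∀ s ∈ S, g s ∈ S') {a : E}
    (ha : a ∈ Acl Ω S) : g a ∈ Acl Ω S' := by
  have h1 : ∀ z ∈ adjoin Ω S, g z ∈ adjoin Ω S' := by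
    intro z hz
    have h2 : adjoin Ω S ≤ (adjoin Ω S').comap g := by
      rw [adjoin_le_iff]
      intro s hs
      exact subset_adjoin _ _ (hS s hs)
    exact h2 hz
  let f : adjoin Ω S →+* adjoin Ω S' := (g.toRingHom.comp (algebraMap (adjoin Ω S) E)).codRestrict
    (adjoin Ω S').toSubfield.toSubring fun z => h1 z z.2
  exact IsAlgebraic.ringHom_of_comp_eq f g.toRingHom ha f.injective (by
    ext z
    rfl)

/-- a field of rational functions over a field of small transcendence degree -/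
theorem uniruled_of_ratFunc {Ω K K₁ : Type} [Field Ω] [Field K] [Algebra Ω K] [Field K₁]
    [Algebra Ω K₁] {d : ℕ} (hd : Algebra.trdeg Ω K₁ ≤ d) (g : K →ₐ[Ω] RatFunc K₁) :
    Uniruled Ω K (d + 1) := by
  classical
  obtain ⟨s, hs⟩ := exists_isTranscendenceBasis Ω K₁
  have hcard : Cardinal.mk s ≤ d := by
    have := hs.lift_cardinalMk_eq_trdeg
    simp only [Cardinal.lift_id] at this
    rw [this]
    exact hd
  have hfin : s.Finite := by
    rw [← Cardinal.lt_aleph0_iff_set_finite]
    exact hcard.trans_lt (Cardinal.natCast_lt_aleph0)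
  have hcard' : hfin.toFinset.card ≤ d := by
    rw [← Set.ncard_eq_toFinset_card s hfin]
    rw [← Set.cast_ncard hfin] at hcard
    exact_mod_cast hcard
  have halg := hs.isAlgebraic_field
  refine ⟨RatFunc K₁, inferInstance, inferInstance, g,
    hfin.toFinset.image (algebraMap K₁ (RatFunc K₁)), RatFunc.X, ?_, ?_⟩
  · exact Finset.card_image_le.trans_lt (Nat.lt_succ_of_le hcard')
  · intro k
    set M := adjoin Ω (Acl Ω ((hfin.toFinset.image (algebraMap K₁ (RatFunc K₁)) :
      Finset (RatFunc K₁)) : Set (RatFunc K₁)) ∪ {RatFunc.X}) with hM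
    have h1 : ∀ c : K₁, algebraMap K₁ (RatFunc K₁) c ∈ M := by
      intro c
      apply subset_adjoin
      left
      have h5 : c ∈ Acl Ω (Set.range (Subtype.val : s → K₁)) :=
        Algebra.IsAlgebraic.isAlgebraic c
      refine acl_map (IsScalarTower.toAlgHom Ω K₁ (RatFunc K₁)) ?_ h5
      rintro _ ⟨z, rfl⟩
      rw [Finset.coe_image]
      exact ⟨z, by simp, rfl⟩
    have h2 : (RatFunc.X : RatFunc K₁) ∈ M := subset_adjoin _ _ (Or.inr rfl)
    have h4 : ∀ P : Polynomial K₁, algebraMap (Polynomial K₁) (RatFunc K₁) P ∈ M := by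
      intro P
      induction P using Polynomial.induction_on' with
      | add p q hp hq => rw [map_add]; exact add_mem hp hq
      | monomial m c =>
        rw [← Polynomial.C_mul_X_pow_eq_monomial, map_mul, map_pow, RatFunc.algebraMap_X,
          RatFunc.algebraMap_C]
        exact mul_mem (h1 c) (pow_mem h2 m)
    rw [← RatFunc.num_div_denom (g k)]
    exact div_mem (h4 _) (h4 _)

theorem isAlgClosed_of {Ω E : Type} [Field Ω] [Field E] [Algebra Ω E] [IsAlgClosed E]
    (F : IntermediateField Ω E) (hF : ∀ a : E, IsAlgebraic F a → a ∈ F) : IsAlgClosed F := by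
  refine IsAlgClosed.of_exists_root F fun P hP hirr => ?_
  obtain ⟨a, ha⟩ := IsAlgClosed.exists_aeval_eq_zero E P hirr.degree_pos.ne'
  have h1 : a ∈ F := hF a ⟨P, hirr.ne_zero, ha⟩
  refine ⟨⟨a, h1⟩, ?_⟩
  apply Subtype.ext
  have h2 : Polynomial.aeval ((algebraMap F E) ⟨a, h1⟩) P = 0 := ha
  rw [Polynomial.aeval_algebraMap_apply] at h2
  exact h2

/-- double planes of degree at most four over an algebraically closed field -/
theorem uniruled_double {Ω K E : Type} [Field Ω] [Field K] [Algebra Ω K] [Field E] [Algebra Ω E]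
    [IsAlgClosed E] (h2 : (2 : E) ≠ 0) (F : IntermediateField Ω E)
    (hF : ∀ a : E, IsAlgebraic F a → a ∈ F) {d : ℕ} (hd : Algebra.trdeg Ω F ≤ d) (x y r : E)
    (hxy : AlgebraicIndependent F ![x, y]) (P : MvPolynomial (Fin 2) F)
    (hP : P.totalDegree ≤ 4) (hr : r ^ 2 = MvPolynomial.aeval ![x, y] P) (g : K →ₐ[Ω] E)
    (hg : ∀ k, g k ∈ adjoin F {x, y, r}) : Uniruled Ω K (d + 2) := by
  have : IsAlgClosed F := isAlgClosed_of F hF
  have h2F : (2 : F) ≠ 0 := by
    intro h
    apply h2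
    rw [← map_ofNat (algebraMap F E) 2, h, map_zero]
  obtain ⟨K', hK'⟩ : ∃ K' : IntermediateField F E, K' = adjoin F {x, y, r} := ⟨_, rfl⟩
  have hx : x ∈ K' := by
    rw [hK']
    exact subset_adjoin _ _ (by simp)
  have hy : y ∈ K' := by
    rw [hK']
    exact subset_adjoin _ _ (by simp)
  have hrm : r ∈ K' := by
    rw [hK']
    exact subset_adjoin _ _ (by simp)
  have hxy' : AlgebraicIndependent F ![(⟨x, hx⟩ : K'), ⟨y, hy⟩] := by
    apply AlgebraicIndependent.of_comp K'.val
    convert! hxy using 1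
    ext i
    fin_cases i <;> rfl
  have htop : adjoin F {(⟨x, hx⟩ : K'), ⟨y, hy⟩, ⟨r, hrm⟩} = ⊤ := by
    rw [eq_top_iff]
    rintro ⟨z, hz⟩ -
    have hz' : z ∈ adjoin F {x, y, r} := by rwa [← hK']
    have h3 : ∀ w ∈ adjoin F {x, y, r}, ∃ hw : w ∈ K', (⟨w, hw⟩ : K') ∈
        adjoin F {(⟨x, hx⟩ : K'), ⟨y, hy⟩, ⟨r, hrm⟩} := by
      intro w hw
      induction hw using adjoin_induction with
      | mem w hw =>
        rcases hw with rfl | rfl | hw
        · exact ⟨hx, subset_adjoin _ _ (by simp)⟩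
        · exact ⟨hy, subset_adjoin _ _ (by simp)⟩
        · rw [Set.mem_singleton_iff] at hw
          subst hw
          exact ⟨hrm, subset_adjoin _ _ (by simp)⟩
      | algebraMap c => exact ⟨K'.algebraMap_mem c, IntermediateField.algebraMap_mem _ c⟩
      | add a b _ _ ha hb =>
        obtain ⟨ha1, ha2⟩ := ha
        obtain ⟨hb1, hb2⟩ := hb
        exact ⟨add_mem ha1 hb1, add_mem ha2 hb2⟩
      | inv a _ ha =>
        obtain ⟨ha1, ha2⟩ := ha
        exact ⟨inv_mem ha1, inv_mem ha2⟩
      | mul a b _ _ ha hb =>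
        obtain ⟨ha1, ha2⟩ := ha
        obtain ⟨hb1, hb2⟩ := hb
        exact ⟨mul_mem ha1 hb1, mul_mem ha2 hb2⟩
    obtain ⟨_, h4⟩ := h3 z hz'
    exact h4
  have hr' : (⟨r, hrm⟩ : K') ^ 2 = MvPolynomial.aeval ![(⟨x, hx⟩ : K'), ⟨y, hy⟩] P := by
    apply Subtype.ext
    have h3 : algebraMap K' E (MvPolynomial.aeval ![(⟨x, hx⟩ : K'), ⟨y, hy⟩] P) =
        MvPolynomial.aeval ![x, y] P := by
      rw [← MvPolynomial.aeval_algebraMap_apply]
      congr 2
      ext i
      fin_cases i <;> rfl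
    exact hr.trans h3.symm
  obtain ⟨K₁, _, _, φ, htr, -⟩ := exists_ratFunc' h2F hxy' htop hr' (goodLine hP)
  let i : Algebra Ω K₁ := ((algebraMap F K₁).comp (algebraMap Ω F)).toAlgebra
  have : IsScalarTower Ω F K₁ := .of_algebraMap_eq fun _ => rfl
  have : FaithfulSMul F K₁ := (faithfulSMul_iff_algebraMap_injective F K₁).2
    (algebraMap F K₁).injective
  have htr2 : Algebra.trdeg Ω K₁ ≤ ((d + 1 : ℕ) : Cardinal) := by
    rw [← trdeg_add_eq Ω F (A := K₁)]
    push_cast
    gcongr
  let g' : K →ₐ[Ω] K' := 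
    { toFun := fun k => ⟨g k, by rw [hK']; exact hg k⟩
      map_one' := Subtype.ext (map_one g)
      map_mul' := fun a b => Subtype.ext (map_mul g a b)
      map_zero' := Subtype.ext (map_zero g)
      map_add' := fun a b => Subtype.ext (map_add g a b)
      commutes' := fun a => Subtype.ext (g.commutes a) }
  exact uniruled_of_ratFunc htr2 ((φ.restrictScalars Ω).comp g')

open scoped IntermediateField.algebraAdjoinAdjoin in
theorem indep_AF {Ω E : Type} [Field Ω] [Field E] [Algebra Ω E] {x y d : E}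
    (hxy : AlgebraicIndependent Ω ![x, y])
    (hd : Transcendental (Algebra.adjoin Ω (Set.range ![x, y])) d) :
    AlgebraicIndependent (AF Ω {d}) ![x, y] := by
  have h0 : AlgebraicIndependent (Algebra.adjoin Ω (Set.range ![x, y])) (fun _ : Unit => d) :=
    algebraicIndependent_unique_type_iff.2 hd
  have h1 : AlgebraicIndependent Ω (Sum.elim (fun _ : Unit => d) ![x, y]) := hxy.sumElim h0
  have h2 : AlgebraicIndependent Ω (Sum.elim ![x, y] (fun _ : Unit => d)) := by
    have := h1.comp Sum.swap Sum.swap_leftInverse.injective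
    convert! this using 1
    ext (i | i) <;> rfl
  have h3 := (AlgebraicIndependent.sumElim_iff.1 h2).2
  have h4 : Set.range (fun _ : Unit => d) = {d} := by
    ext z
    simp [eq_comm]
  rw [h4] at h3
  have h5 : AlgebraicIndependent (adjoin Ω {d}) ![x, y] := h3.extendScalars (adjoin Ω {d})
  exact h5.extendScalars (algebraicClosure (adjoin Ω {d}) E)

theorem faithful_of_field (F A : Type) [Field F] [Field A] [Algebra F A] : FaithfulSMul F A :=
  (faithfulSMul_iff_algebraMap_injective F A).2 (algebraMap F A).injective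

open scoped IntermediateField.algebraAdjoinAdjoin in
theorem trdeg_AF {Ω E : Type} [Field Ω] [Field E] [Algebra Ω E] (d : E) :
    Algebra.trdeg Ω (AF Ω {d}) ≤ 1 := by
  have h1 : Algebra.trdeg Ω (Polynomial Ω) = 1 := by simp
  have h2 : Algebra.trdeg Ω (Algebra.adjoin Ω {d}) ≤ 1 := by
    rw [← h1]
    refine trdeg_le_of_surjective
      ((Polynomial.aeval (⟨d, Algebra.self_mem_adjoin_singleton Ω d⟩ : Algebra.adjoin Ω {d}))) ?_
    rintro ⟨z, hz⟩
    rw [Algebra.adjoin_singleton_eq_range_aeval] at hz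
    obtain ⟨P, hP⟩ := hz
    refine ⟨P, ?_⟩
    apply Subtype.ext
    have := Polynomial.aeval_algebraMap_apply E
      (⟨d, Algebra.self_mem_adjoin_singleton Ω d⟩ : Algebra.adjoin Ω {d}) P
    exact this.symm.trans hP
  have h3 : Algebra.trdeg Ω (adjoin Ω {d}) ≤ 1 := by
    rw [← trdeg_add_eq Ω (Algebra.adjoin Ω {d}) (A := adjoin Ω {d}),
      trdeg_eq_zero (R := Algebra.adjoin Ω {d}) (A := adjoin Ω {d}), add_zero]
    exact h2
  have h4 : Algebra.trdeg Ω (algebraicClosure (adjoin Ω {d}) E) ≤ 1 := by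
    have i1 : FaithfulSMul (adjoin Ω {d}) (algebraicClosure (adjoin Ω {d}) E) :=
      faithful_of_field (adjoin Ω {d}) (algebraicClosure (adjoin Ω {d}) E)
    have i2 : Algebra.IsAlgebraic (adjoin Ω {d}) (algebraicClosure (adjoin Ω {d}) E) :=
      algebraicClosure.isAlgebraic _ _
    rw [← trdeg_add_eq Ω (adjoin Ω {d}) (A := algebraicClosure (adjoin Ω {d}) E),
      trdeg_eq_zero (R := adjoin Ω {d}) (A := algebraicClosure (adjoin Ω {d}) E), add_zero]
    exact h3
  exact h4

theorem aeval_mem_of {F E : Type} [Field F] [Field E] [Algebra F E] (M : IntermediateField F E)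
    {x y : E} (hx : x ∈ M) (hy : y ∈ M) (q : MvPolynomial (Fin 2) F) :
    MvPolynomial.aeval ![x, y] q ∈ M := by
  induction q using MvPolynomial.induction_on with
  | C a =>
    rw [MvPolynomial.aeval_C]
    exact M.algebraMap_mem _
  | add g h hg hh =>
    rw [map_add]
    exact add_mem hg hh
  | mul_X g i hg =>
    rw [map_mul, MvPolynomial.aeval_X]
    refine mul_mem hg ?_
    fin_cases i
    · exact hx
    · exact hy

theorem transcendental_map {Ω N E : Type} [Field Ω] [Field N] [Algebra Ω N] [Field E]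
    [Algebra Ω E] (ι : N →ₐ[Ω] E) {x y d : N}
    (hd : Transcendental (Algebra.adjoin Ω (Set.range ![x, y])) d) :
    Transcendental (Algebra.adjoin Ω (Set.range ![ι x, ι y])) (ι d) := by
  have h1 : Algebra.adjoin Ω (Set.range ![ι x, ι y]) =
      (Algebra.adjoin Ω (Set.range ![x, y])).map ι := by
    rw [AlgHom.map_adjoin]
    congr 1
    rw [← Set.range_comp]
    congr 1
    ext i
    fin_cases i <;> rfl
  rw [h1]
  let f : Algebra.adjoin Ω (Set.range ![x, y]) →+*
      ((Algebra.adjoin Ω (Set.range ![x, y])).map ι : Subalgebra Ω E) :=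
    (Subalgebra.equivMapOfInjective _ ι ι.injective).toRingEquiv.toRingHom
  refine hd.ringHom_of_comp_eq f ι.toRingHom
    (Subalgebra.equivMapOfInjective _ ι ι.injective).surjective ι.injective ?_
  ext z
  rfl

theorem totalDegree_map {R S : Type} [CommSemiring R] [CommSemiring S] (φ : R →+* S)
    (q : MvPolynomial (Fin 2) R) : (q.map φ).totalDegree ≤ q.totalDegree :=
  Finset.sup_mono (MvPolynomial.support_map_subset φ q)

theorem AF_alg {Ω E : Type} [Field Ω] [Field E] [Algebra Ω E] {S : Set E} (a : E)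
    (h : IsAlgebraic (AF Ω S) a) : a ∈ AF Ω S := AF_closed h

/-- the threefold `(s M) ^ 2 = G (c₀ (d) F₀ + c₁ (d) F₁)` -/
theorem uniruled_three {Ω N : Type} [Field Ω] [Field N] [Algebra Ω N] (h2 : (2 : Ω) ≠ 0)
    (G F0 F1 M : MvPolynomial (Fin 2) Ω) (hd0 : G.totalDegree + F0.totalDegree ≤ 4)
    (hd1 : G.totalDegree + F1.totalDegree ≤ 4)
    (c0 c1 : Polynomial Ω) (x y d s : N) (hxy : AlgebraicIndependent Ω ![x, y])
    (hd : Transcendental (Algebra.adjoin Ω (Set.range ![x, y])) d)
    (hM : MvPolynomial.aeval ![x, y] M ≠ 0)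
    (hs : (s * MvPolynomial.aeval ![x, y] M) ^ 2 = MvPolynomial.aeval ![x, y] G *
      (Polynomial.aeval d c0 * MvPolynomial.aeval ![x, y] F0 +
        Polynomial.aeval d c1 * MvPolynomial.aeval ![x, y] F1)) :
    Uniruled Ω (adjoin Ω {x, y, d, s} : IntermediateField Ω N) 3 := by
  let E := AlgebraicClosure N
  let ι : N →ₐ[Ω] E := IsScalarTower.toAlgHom Ω N E
  have h2E : (2 : E) ≠ 0 := by
    intro h
    apply h2
    apply (algebraMap Ω E).injective
    rw [map_ofNat, h, map_zero]
  have hxyE : AlgebraicIndependent Ω ![ι x, ι y] := by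
    have h := hxy.map' (f := ι) ι.injective
    convert! h using 1
    ext i
    fin_cases i <;> rfl
  have hdE : Transcendental (Algebra.adjoin Ω (Set.range ![ι x, ι y])) (ι d) :=
    transcendental_map ι hd
  have hmap : ∀ q : MvPolynomial (Fin 2) Ω, ι (MvPolynomial.aeval ![x, y] q) =
      MvPolynomial.aeval ![ι x, ι y] q := by
    intro q
    have h1 : MvPolynomial.aeval ![ι x, ι y] = ι.comp (MvPolynomial.aeval ![x, y]) := by
      apply MvPolynomial.algHom_ext
      intro i
      rw [AlgHom.comp_apply, MvPolynomial.aeval_X, MvPolynomial.aeval_X]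
      fin_cases i <;> rfl
    rw [h1]
    rfl
  let F := AF Ω {ι d}
  have hdF : ι d ∈ F := subset_AF _ rfl
  have hdF' : ∀ q : Polynomial Ω, algebraMap F E (Polynomial.aeval (⟨ι d, hdF⟩ : F) q) =
      ι (Polynomial.aeval d q) := by
    intro q
    rw [← Polynomial.aeval_algebraMap_apply, ← Polynomial.aeval_algHom_apply]
    rfl
  let P : MvPolynomial (Fin 2) F := G.map (algebraMap Ω F) *
    (MvPolynomial.C (Polynomial.aeval (⟨ι d, hdF⟩ : F) c0) * F0.map (algebraMap Ω F) +
      MvPolynomial.C (Polynomial.aeval (⟨ι d, hdF⟩ : F) c1) * F1.map (algebraMap Ω F))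
  have hP : P.totalDegree ≤ 4 := by
    refine (MvPolynomial.totalDegree_mul _ _).trans ?_
    have e1 : (G.map (algebraMap Ω F)).totalDegree ≤ G.totalDegree := totalDegree_map _ _
    have e2 : ∀ (c : F) (q : MvPolynomial (Fin 2) Ω), (MvPolynomial.C c *
        q.map (algebraMap Ω F)).totalDegree ≤ q.totalDegree := by
      intro c q
      refine (MvPolynomial.totalDegree_mul _ _).trans ?_
      rw [MvPolynomial.totalDegree_C, zero_add]
      exact totalDegree_map _ _
    have e3 := MvPolynomial.totalDegree_add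
      (MvPolynomial.C (Polynomial.aeval (⟨ι d, hdF⟩ : F) c0) * F0.map (algebraMap Ω F))
      (MvPolynomial.C (Polynomial.aeval (⟨ι d, hdF⟩ : F) c1) * F1.map (algebraMap Ω F))
    have e4 := e2 (Polynomial.aeval (⟨ι d, hdF⟩ : F) c0) F0
    have e5 := e2 (Polynomial.aeval (⟨ι d, hdF⟩ : F) c1) F1
    rcases le_max_iff.1 e3 with e6 | e6 <;> omega
  set r := ι s * MvPolynomial.aeval ![ι x, ι y] M with hr
  have hME : MvPolynomial.aeval ![ι x, ι y] M ≠ 0 := by
    rw [← hmap]
    exact (map_ne_zero ι).2 hM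
  have hr2 : r ^ 2 = MvPolynomial.aeval ![ι x, ι y] P := by
    have e := congrArg ι hs
    rw [map_pow, map_mul, hmap, map_mul, hmap, map_add, map_mul, map_mul, hmap, hmap] at e
    rw [map_mul, map_add, map_mul, map_mul, MvPolynomial.aeval_map_algebraMap,
      MvPolynomial.aeval_map_algebraMap, MvPolynomial.aeval_map_algebraMap, MvPolynomial.aeval_C,
      MvPolynomial.aeval_C, hdF', hdF', ← e, hr]
  refine uniruled_double (K := (adjoin Ω {x, y, d, s} : IntermediateField Ω N)) h2E F
    (fun a ha => AF_alg a ha) (d := 1) (by exact_mod_cast trdeg_AF (ι d)) (ι x) (ι y) r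
    (indep_AF hxyE hdE) P hP hr2 (ι.comp (adjoin Ω {x, y, d, s}).val) ?_
  intro k
  have hle : adjoin Ω {x, y, d, s} ≤
      ((adjoin F {ι x, ι y, r}).restrictScalars Ω).comap ι := by
    rw [adjoin_le_iff]
    have m1 : ι x ∈ adjoin F {ι x, ι y, r} := subset_adjoin _ _ (by simp)
    have m2 : ι y ∈ adjoin F {ι x, ι y, r} := subset_adjoin _ _ (by simp)
    have m3 : r ∈ adjoin F {ι x, ι y, r} := subset_adjoin _ _ (by simp)
    rintro z (rfl | rfl | rfl | rfl)
    · exact m1
    · exact m2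
    · exact (adjoin F {ι x, ι y, r}).algebraMap_mem ⟨ι z, hdF⟩
    · have e1 : ι z = r / MvPolynomial.aeval ![ι x, ι y] M := by
        rw [hr, mul_div_cancel_right₀ _ hME]
      have e2 : MvPolynomial.aeval ![ι x, ι y] M ∈ adjoin F {ι x, ι y, r} := by
        rw [← MvPolynomial.aeval_map_algebraMap F]
        exact aeval_mem_of _ m1 m2 _
      show ι z ∈ adjoin F {ι x, ι y, r}
      rw [e1]
      exact div_mem m3 e2
  exact hle k.2

theorem bot_alg {Ω E : Type} [Field Ω] [IsAlgClosed Ω] [Field E] [Algebra Ω E] (a : E)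
    (h : IsAlgebraic (⊥ : IntermediateField Ω E) a) : a ∈ (⊥ : IntermediateField Ω E) := by
  have h1 : IsAlgebraic Ω a := h.restrictScalars Ω
  have hmem : a ∈ adjoin Ω {a} := mem_adjoin_simple_self Ω _
  have := isAlgebraic_adjoin_simple h1.isIntegral
  rwa [eq_bot_of_isAlgClosed_of_isAlgebraic (adjoin Ω {a})] at hmem

/-- the surface `(r M) ^ 2 = f (x, y)` -/
theorem uniruled_two {Ω K : Type} [Field Ω] [IsAlgClosed Ω] [Field K] [Algebra Ω K]
    (h2 : (2 : Ω) ≠ 0) (f M : MvPolynomial (Fin 2) Ω) (hf : f.totalDegree ≤ 4) (x y r : K)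
    (hxy : AlgebraicIndependent Ω ![x, y]) (hM : MvPolynomial.aeval ![x, y] M ≠ 0)
    (hr : (r * MvPolynomial.aeval ![x, y] M) ^ 2 = MvPolynomial.aeval ![x, y] f) :
    Uniruled Ω (adjoin Ω {x, y, r} : IntermediateField Ω K) 2 := by
  let E := AlgebraicClosure K
  let ι : K →ₐ[Ω] E := IsScalarTower.toAlgHom Ω K E
  have h2E : (2 : E) ≠ 0 := by
    intro h
    apply h2
    apply (algebraMap Ω E).injective
    rw [map_ofNat, h, map_zero]
  have hxyE : AlgebraicIndependent Ω ![ι x, ι y] := by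
    have h := hxy.map' (f := ι) ι.injective
    convert! h using 1
    ext i
    fin_cases i <;> rfl
  have hmap : ∀ q : MvPolynomial (Fin 2) Ω, ι (MvPolynomial.aeval ![x, y] q) =
      MvPolynomial.aeval ![ι x, ι y] q := by
    intro q
    have h1 : MvPolynomial.aeval ![ι x, ι y] = ι.comp (MvPolynomial.aeval ![x, y]) := by
      apply MvPolynomial.algHom_ext
      intro i
      rw [AlgHom.comp_apply, MvPolynomial.aeval_X, MvPolynomial.aeval_X]
      fin_cases i <;> rfl
    rw [h1]
    rfl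
  let F : IntermediateField Ω E := ⊥
  have hF0 : Algebra.trdeg Ω F ≤ ((0 : ℕ) : Cardinal) := by
    have : Algebra.IsAlgebraic Ω F := inferInstance
    rw [trdeg_eq_zero (R := Ω) (A := F)]
    simp
  have hind : AlgebraicIndependent F ![ι x, ι y] := hxyE.extendScalars F
  have hP : (f.map (algebraMap Ω F)).totalDegree ≤ 4 := (totalDegree_map _ _).trans hf
  obtain ⟨v, hv⟩ : ∃ v, v = ι r * MvPolynomial.aeval ![ι x, ι y] M := ⟨_, rfl⟩
  have hME : MvPolynomial.aeval ![ι x, ι y] M ≠ 0 := by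
    rw [← hmap]
    exact (map_ne_zero ι).2 hM
  have hr2 : v ^ 2 = MvPolynomial.aeval ![ι x, ι y] (f.map (algebraMap Ω F)) := by
    rw [MvPolynomial.aeval_map_algebraMap, ← hmap, ← hr, map_pow, map_mul, hmap, hv]
  refine uniruled_double (K := (adjoin Ω {x, y, r} : IntermediateField Ω K)) h2E F
    (fun a ha => bot_alg a ha) (d := 0) hF0 (ι x) (ι y) v
    hind (f.map (algebraMap Ω F)) hP hr2 (ι.comp (adjoin Ω {x, y, r}).val) ?_
  intro k
  have hle : adjoin Ω {x, y, r} ≤
      ((adjoin F {ι x, ι y, v}).restrictScalars Ω).comap ι := by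
    rw [adjoin_le_iff]
    have m1 : ι x ∈ adjoin F {ι x, ι y, v} := subset_adjoin _ _ (by simp)
    have m2 : ι y ∈ adjoin F {ι x, ι y, v} := subset_adjoin _ _ (by simp)
    have m3 : v ∈ adjoin F {ι x, ι y, v} := subset_adjoin _ _ (by simp)
    rintro z (rfl | rfl | rfl)
    · exact m1
    · exact m2
    · have e1 : ι z = v / MvPolynomial.aeval ![ι x, ι y] M := by
        rw [hv, mul_div_cancel_right₀ _ hME]
      have e2 : MvPolynomial.aeval ![ι x, ι y] M ∈ adjoin F {ι x, ι y, v} := by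
        rw [← MvPolynomial.aeval_map_algebraMap F]
        exact aeval_mem_of _ m1 m2 _
      show ι z ∈ adjoin F {ι x, ι y, v}
      rw [e1]
      exact div_mem m3 e2
  exact hle k.2

end Pool.Agent.Helper73.QW
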