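import Pool.Agent.Helper73.QW.Cross
import Pool.Agent.Helper73.QW.Kind
import Pool.Agent.Helper73.QW.Lin
import Pool.Agent.Helper73.QW.Uni

/-!
# The group of the covering `h (w) = f (x, y)`, `z ^ 2 = g (x, y)` of the plane
-/

open IntermediateField

namespace Pool.Agent.Helper73.QW

open Pool.Agent.Helper75.QC

section

variable {p : ℕ} {Ω : Type} [Field Ω] (κ : Kind p Ω)

/-- the field generated by `x, y, w, z` with `h (w) = f`, `z ^ 2 = g` for functions `f, g` of
`x, y` -/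
structure Cover {K : Type} [Field K] [Algebra Ω K] (f g x y w z : K) : Prop where
  top : adjoin Ω {x, y, w, z} = ⊤
  indep : AlgebraicIndependent Ω ![x, y]
  hf : f ∈ adjoin Ω {x, y}
  hg : g ∈ adjoin Ω {x, y}
  hw : Polynomial.aeval w κ.h = f
  hz : z ^ 2 = g
  w_ne : w ≠ 0
  z_ne : z ≠ 0

/-- the quotients are uniruled -/
structure Geo {K : Type} [Field K] [Algebra Ω K] (f g x y : K) : Prop where
  three : ∀ (N : Type) [Field N] [Algebra Ω N] (a : K →ₐ[Ω] N) (d s : N) (j : ℕ), j ≤ 1 →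
    Transcendental a.fieldRange d →
    s ^ 2 * a g ^ j = Polynomial.aeval d κ.c0 + Polynomial.aeval d κ.c1 * a f →
    Uniruled Ω (adjoin Ω {a x, a y, d, s} : IntermediateField Ω N) 3
  two : ∀ (r : K) (i j : ℕ), i ≤ 1 → j ≤ 1 → r ^ 2 = f ^ i * g ^ j →
    Uniruled Ω (adjoin Ω {x, y, r} : IntermediateField Ω K) 2

variable {κ}

/-- a field over a field which contains `x, y` and is generated by `w, z` -/
theorem galois_of {K : Type} [Field K] [Algebra Ω K] {f g w z : K} (h2 : (2 : Ω) ≠ 0)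
    (hw : Polynomial.aeval w κ.h = f) (hz : z ^ 2 = g) (hw0 : w ≠ 0) (hz0 : z ≠ 0)
    (N0 : IntermediateField Ω K) (hfm : f ∈ N0) (hgm : g ∈ N0)
    (htop : ∀ M : IntermediateField Ω K, N0 ≤ M → w ∈ M → z ∈ M → M = ⊤) :
    FiniteDimensional N0 K ∧ IsGalois N0 K := by
  have h2N : (2 : N0) ≠ 0 := by
    intro h
    apply h2
    apply (algebraMap Ω N0).injective
    rw [map_ofNat, h, map_zero]
  have htop' : adjoin N0 {w, z} = ⊤ := by
    have h3 : (adjoin N0 {w, z}).restrictScalars Ω = ⊤ := by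
      apply htop
      · intro c hc
        exact (adjoin N0 {w, z}).algebraMap_mem ⟨c, hc⟩
      · exact subset_adjoin N0 {w, z} (by simp)
      · exact subset_adjoin N0 {w, z} (by simp)
    rw [eq_top_iff]
    intro c _
    have : c ∈ (adjoin N0 {w, z}).restrictScalars Ω := by
      rw [h3]
      exact mem_top
    exact this
  refine gal_of_roots {w, z} (Set.toFinite _) htop' ?_
  rintro c (rfl | hc)
  · obtain ⟨e1, e2⟩ := κ.h_sep (E := N0) (E' := K) ⟨_, hfm⟩ c hw0 hw
    refine ⟨_, e1, ?_, e2⟩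
    rw [map_sub, Polynomial.aeval_map_algebraMap, Polynomial.aeval_C, hw]
    exact sub_self _
  · rw [Set.mem_singleton_iff] at hc
    subst hc
    exact sqrt_poly h2N c hz0 ⟨_, hgm⟩ hz.symm

theorem map_aeval_of {K K' : Type} [Field K] [Algebra Ω K] [Field K'] [Algebra Ω K']
    (h : K →ₐ[Ω] K') (x y : K) (g : MvPolynomial (Fin 2) Ω) :
    h (MvPolynomial.aeval ![x, y] g) = MvPolynomial.aeval ![h x, h y] g := by
  have h1 : MvPolynomial.aeval ![h x, h y] = h.comp (MvPolynomial.aeval ![x, y]) := by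
    apply MvPolynomial.algHom_ext
    intro i
    rw [AlgHom.comp_apply, MvPolynomial.aeval_X, MvPolynomial.aeval_X]
    fin_cases i <;> rfl
  rw [h1]
  rfl

variable {K : Type} [Field K] [Algebra Ω K] {f g x y w z : K}

/-- two homomorphisms which agree on `x, y` -/
theorem eq_of_mem {K' : Type} [Field K'] [Algebra Ω K'] {x y : K} (σ τ : K →ₐ[Ω] K')
    (hx : σ x = τ x) (hy : σ y = τ y) {c : K} (hc : c ∈ adjoin Ω {x, y}) : σ c = τ c := by
  induction hc using adjoin_induction with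
  | mem c hc =>
    rcases hc with rfl | hc
    · exact hx
    · rw [Set.mem_singleton_iff] at hc
      rw [hc]
      exact hy
  | algebraMap c => rw [AlgHom.commutes, AlgHom.commutes]
  | add a b _ _ ha hb => rw [map_add, map_add, ha, hb]
  | inv a _ ha => rw [map_inv₀, map_inv₀, ha]
  | mul a b _ _ ha hb => rw [map_mul, map_mul, ha, hb]

theorem fix_of_mem {x y : K} (τ : K →ₐ[Ω] K) (hx : τ x = x) (hy : τ y = y) {c : K}
    (hc : c ∈ adjoin Ω {x, y}) : τ c = c := by
  have := eq_of_mem τ (AlgHom.id Ω K) (by rw [hx]; rfl) (by rw [hy]; rfl) hc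
  rw [this]
  rfl

theorem Cover.exists_op (hC : Cover κ f g x y w z) (τ : K →ₐ[Ω] K) (hx : τ x = x)
    (hy : τ y = y) : ∃ γ, τ w = κ.op γ w := by
  apply κ.h_eq w (τ w)
  rw [Polynomial.aeval_algHom_apply, hC.hw, fix_of_mem τ hx hy hC.hf]

theorem Cover.exists_sign (hC : Cover κ f g x y w z) (τ : K →ₐ[Ω] K) (hx : τ x = x)
    (hy : τ y = y) : ∃ ε : ℤˣ, τ z = ((ε : ℤ) : K) * z := by
  have h1 : τ z ^ 2 = z ^ 2 := by
    rw [← map_pow, hC.hz, fix_of_mem τ hx hy hC.hg]
  rcases sq_eq_sq_iff_eq_or_eq_neg.1 h1 with h | h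
  · exact ⟨1, by rw [h]; simp⟩
  · exact ⟨-1, by rw [h]; simp⟩

/-- the Galois group -/
abbrev Gp (Ω : Type) [Field Ω] {K : Type} [Field K] [Algebra Ω K] (x y : K) : Type :=
  K ≃ₐ[adjoin Ω {x, y}] K

/-- an element of the Galois group as an endomorphism over `Ω` -/
def toHom {x y : K} (τ : Gp Ω x y) : K →ₐ[Ω] K :=
  (τ.toAlgHom).restrictScalars Ω

theorem toHom_x (τ : Gp Ω x y) : toHom τ x = x :=
  τ.commutes ⟨x, subset_adjoin Ω _ (by simp)⟩

theorem toHom_y (τ : Gp Ω x y) : toHom τ y = y :=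
  τ.commutes ⟨y, subset_adjoin Ω _ (by simp)⟩

theorem toHom_mul (σ τ : Gp Ω x y) : toHom (σ * τ) = (toHom σ).comp (toHom τ) := rfl

theorem toHom_one : toHom (1 : Gp Ω x y) = AlgHom.id Ω K := rfl

theorem toHom_injective : Function.Injective (toHom : Gp Ω x y → (K →ₐ[Ω] K)) := by
  intro σ τ h
  ext k
  exact DFunLike.congr_fun h k

noncomputable def Cover.gam (hC : Cover κ f g x y w z) (τ : Gp Ω x y) : κ.Γ :=
  (hC.exists_op (toHom τ) (toHom_x τ) (toHom_y τ)).choose

theorem Cover.gam_spec (hC : Cover κ f g x y w z) (τ : Gp Ω x y) :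
    toHom τ w = κ.op (hC.gam τ) w :=
  (hC.exists_op (toHom τ) (toHom_x τ) (toHom_y τ)).choose_spec

noncomputable def Cover.sgn (hC : Cover κ f g x y w z) (τ : Gp Ω x y) : ℤˣ :=
  (hC.exists_sign (toHom τ) (toHom_x τ) (toHom_y τ)).choose

theorem Cover.sgn_spec (hC : Cover κ f g x y w z) (τ : Gp Ω x y) :
    toHom τ z = ((hC.sgn τ : ℤ) : K) * z :=
  (hC.exists_sign (toHom τ) (toHom_x τ) (toHom_y τ)).choose_spec

theorem sign_unique (h2 : (2 : K) ≠ 0) {z : K} (hz : z ≠ 0) {ε ε' : ℤˣ}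
    (h : ((ε : ℤ) : K) * z = ((ε' : ℤ) : K) * z) : ε = ε' := by
  have h1 := mul_right_cancel₀ hz h
  have h3 : (1 : K) ≠ -1 := by
    intro h4
    apply h2
    have : (1 : K) + 1 = 0 := by
      nth_rewrite 2 [h4]
      ring
    rw [← one_add_one_eq_two]
    exact this
  rcases Int.units_eq_one_or ε with rfl | rfl <;> rcases Int.units_eq_one_or ε' with rfl | rfl
  · rfl
  · exact absurd (by simpa using h1) h3
  · exact absurd (by simpa using h1.symm) h3
  · rfl

theorem Cover.comm (hC : Cover κ f g x y w z) (σ τ : Gp Ω x y) : σ * τ = τ * σ := by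
  apply toHom_injective
  rw [toHom_mul, toHom_mul]
  refine hom_ext {x, y, w, z} hC.top _ _ ?_
  rintro c (rfl | rfl | rfl | hc)
  · rw [AlgHom.comp_apply, AlgHom.comp_apply, toHom_x, toHom_x, toHom_x]
  · rw [AlgHom.comp_apply, AlgHom.comp_apply, toHom_y, toHom_y, toHom_y]
  · rw [AlgHom.comp_apply, AlgHom.comp_apply, hC.gam_spec, hC.gam_spec, κ.map_op, κ.map_op,
      hC.gam_spec, hC.gam_spec, ← κ.op_mul, ← κ.op_mul, mul_comm]
  · rw [Set.mem_singleton_iff] at hc
    subst hc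
    rw [AlgHom.comp_apply, AlgHom.comp_apply, hC.sgn_spec, hC.sgn_spec, map_mul, map_mul,
      hC.sgn_spec, hC.sgn_spec, map_intCast, map_intCast]
    ring

/-- the embedding of the Galois group in `Γ × {1, -1}` -/
noncomputable def Cover.iota (hC : Cover κ f g x y w z) (h2 : (2 : K) ≠ 0) :
    Gp Ω x y →* κ.Γ × ℤˣ where
  toFun := fun τ => (hC.gam τ, hC.sgn τ)
  map_one' := by
    have e1 := hC.gam_spec 1
    have e2 := hC.sgn_spec 1
    rw [toHom_one, AlgHom.id_apply] at e1 e2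
    refine Prod.ext ?_ ?_
    · exact κ.op_inj _ _ w hC.w_ne (by rw [← e1]; exact (κ.op_one w).symm)
    · refine sign_unique h2 hC.z_ne (ε' := 1) ?_
      rw [← e2]
      simp
  map_mul' := fun σ τ => by
    have e1 := hC.gam_spec (σ * τ)
    have e2 := hC.sgn_spec (σ * τ)
    rw [toHom_mul, AlgHom.comp_apply] at e1 e2
    refine Prod.ext ?_ ?_
    · refine κ.op_inj _ _ w hC.w_ne ?_
      rw [← e1, hC.gam_spec τ, κ.map_op, hC.gam_spec σ, ← κ.op_mul, Prod.fst_mul, mul_comm]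
    · refine sign_unique h2 hC.z_ne ?_
      rw [← e2, hC.sgn_spec τ, map_mul, map_intCast, hC.sgn_spec σ]
      simp only [Prod.snd_mul, Units.val_mul, Int.cast_mul]
      ring

theorem Cover.iota_injective (hC : Cover κ f g x y w z) (h2 : (2 : K) ≠ 0) :
    Function.Injective (hC.iota h2) := by
  intro σ τ h
  have e1 : hC.gam σ = hC.gam τ := congrArg Prod.fst h
  have e2 : hC.sgn σ = hC.sgn τ := congrArg Prod.snd h
  apply toHom_injective
  refine hom_ext {x, y, w, z} hC.top _ _ ?_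
  rintro c (rfl | rfl | rfl | hc)
  · rw [toHom_x, toHom_x]
  · rw [toHom_y, toHom_y]
  · rw [hC.gam_spec, hC.gam_spec, e1]
  · rw [Set.mem_singleton_iff] at hc
    subst hc
    rw [hC.sgn_spec, hC.sgn_spec, e2]

theorem Cover.galois (hC : Cover κ f g x y w z) (h2 : (2 : Ω) ≠ 0) :
    FiniteDimensional (adjoin Ω {x, y}) K ∧ IsGalois (adjoin Ω {x, y}) K := by
  refine galois_of h2 hC.hw hC.hz hC.w_ne hC.z_ne _ hC.hf hC.hg ?_
  intro M hM hw hz
  rw [eq_top_iff, ← hC.top, adjoin_le_iff]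
  rintro c (rfl | rfl | rfl | hc)
  · exact hM (subset_adjoin Ω _ (by simp))
  · exact hM (subset_adjoin Ω _ (by simp))
  · exact hw
  · rw [Set.mem_singleton_iff] at hc
    rw [hc]
    exact hz

/-- an endomorphism over `x, y` belongs to the Galois group -/
theorem Cover.exists_toHom (hC : Cover κ f g x y w z) (h2 : (2 : Ω) ≠ 0) (τ : K →ₐ[Ω] K)
    (hx : τ x = x) (hy : τ y = y) : ∃ σ : Gp Ω x y, toHom σ = τ := by
  have := (hC.galois h2).1
  have h1 : ∀ c ∈ adjoin Ω {x, y}, τ c = c := fun c hc => fix_of_mem τ hx hy hc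
  let τ' : K →ₐ[adjoin Ω {x, y}] K := { τ.toRingHom with commutes' := fun c => h1 c c.2 }
  refine ⟨AlgEquiv.ofBijective τ' τ'.bijective, ?_⟩
  ext k
  rfl

end

end Pool.Agent.Helper73.QW
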