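import Pool.Agent.Helper73.QW.Kind

/-!
# The covering `w ↦ w ^ n`
-/

open Polynomial

namespace Pool.Agent.Helper73.QW

section

variable {Ω : Type} [Field Ω] {p : ℕ} [hp : Fact p.Prime] [CharP Ω p] [IsAlgClosed Ω]

theorem exists_root_of {n : ℕ} (hn : 0 < n) (hn' : (n : Ω) ≠ 0) :
    ∃ ζ : rootsOfUnity n Ω, IsPrimitiveRoot ((ζ : Ωˣ) : Ω) n := by
  have : NeZero (n : Ω) := ⟨hn'⟩
  obtain ⟨ζ, hζ⟩ : ∃ ζ : Ω, IsPrimitiveRoot ζ n :=
    HasEnoughRootsOfUnity.exists_primitiveRoot Ω n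
  have hu : IsUnit ζ := hζ.isUnit hn.ne'
  refine ⟨⟨hu.unit, ?_⟩, ?_⟩
  · rw [mem_rootsOfUnity]
    ext
    rw [Units.val_pow_eq_pow_val, IsUnit.unit_spec, hζ.pow_eq_one, Units.val_one]
  · exact hζ

theorem root_pow {n : ℕ} (γ : rootsOfUnity n Ω) : (((γ : Ωˣ) : Ω)) ^ n = 1 := by
  have h := (mem_rootsOfUnity n (γ : Ωˣ)).1 γ.2
  have h1 := congrArg Units.val h
  rwa [Units.val_pow_eq_pow_val, Units.val_one] at h1

theorem root_eq_pow {n : ℕ} (hn : 0 < n) {ζ : rootsOfUnity n Ω}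
    (hζ : IsPrimitiveRoot ((ζ : Ωˣ) : Ω) n) (γ : rootsOfUnity n Ω) : ∃ j : ℕ, ζ ^ j = γ := by
  have : NeZero n := ⟨hn.ne'⟩
  obtain ⟨j, -, hj⟩ := hζ.eq_pow_of_pow_eq_one (root_pow γ)
  refine ⟨j, ?_⟩
  ext
  push_cast
  exact hj

theorem root_of_pow {n : ℕ} (hn : 0 < n) {ζ : rootsOfUnity n Ω}
    (hζ : IsPrimitiveRoot ((ζ : Ωˣ) : Ω) n) {E : Type} [Field E] [Algebra Ω E] {e e' : E}
    (h : e ^ n = e' ^ n) : ∃ γ : rootsOfUnity n Ω, e' = algebraMap Ω E ((γ : Ωˣ) : Ω) * e := by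
  have : NeZero n := ⟨hn.ne'⟩
  by_cases he : e = 0
  · refine ⟨1, ?_⟩
    rw [he, zero_pow hn.ne'] at h
    rw [he, mul_zero]
    exact (pow_eq_zero_iff hn.ne').1 h.symm
  · have hζE : IsPrimitiveRoot (algebraMap Ω E ((ζ : Ωˣ) : Ω)) n :=
      hζ.map_of_injective (algebraMap Ω E).injective
    have h1 : (e' / e) ^ n = 1 := by
      rw [div_pow, ← h]
      exact div_self (pow_ne_zero n he)
    obtain ⟨j, _, hj⟩ := hζE.eq_pow_of_pow_eq_one h1
    refine ⟨ζ ^ j, ?_⟩
    rw [Subgroup.coe_pow, Units.val_pow_eq_pow_val, map_pow, hj]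
    exact (div_mul_cancel₀ _ he).symm

theorem four_sqf (h2 : (2 : Ω) ≠ 0) {n : ℕ} (hn' : (n : Ω) ≠ 0) {E : Type} [Field E]
    [Algebra Ω E] : Squarefree (1 - C (4 : E) * X ^ n : E[X]) := by
  have h4 : (4 : E) ≠ 0 := by
    have : (4 : E) = algebraMap Ω E (2 * 2) := by
      rw [map_mul, map_ofNat]
      norm_num
    rw [this, Ne, map_eq_zero]
    exact mul_ne_zero h2 h2
  have hnE : (n : E) ≠ 0 := by
    rw [← map_natCast (algebraMap Ω E), Ne, map_eq_zero]
    exact hn'
  have h1 : (X ^ n - C (4⁻¹ : E) : E[X]).Separable :=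
    separable_X_pow_sub_C _ hnE (inv_ne_zero h4)
  have h5 : (1 - C (4 : E) * X ^ n : E[X]) = C (-4) * (X ^ n - C (4⁻¹ : E)) := by
    rw [mul_sub, ← C_mul, neg_mul, mul_inv_cancel₀ h4, C_neg, C_neg, C_1]
    ring
  rw [h5]
  have hu : IsUnit (C (-4 : E)) := isUnit_C.2 (isUnit_iff_ne_zero.2 (neg_ne_zero.2 h4))
  exact (Associated.squarefree_iff ⟨hu.unit, by rw [IsUnit.unit_spec, mul_comm]⟩).1 h1.squarefree

/-- the covering `w ↦ w ^ n` -/
noncomputable def kummer (Ω : Type) [Field Ω] (p : ℕ) [hp : Fact p.Prime] [CharP Ω p]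
    [IsAlgClosed Ω] (h2 : (2 : Ω) ≠ 0) {n : ℕ} (hn : 0 < n) (hn' : (n : Ω) ≠ 0) : Kind p Ω where
  Γ := rootsOfUnity n Ω
  grp := inferInstance
  fin := by
    have : NeZero n := ⟨hn.ne'⟩
    infer_instance
  op := fun {E} _ _ γ e => algebraMap Ω E ((γ : Ωˣ) : Ω) * e
  rec' := fun d w => d * w
  dif := fun u w => u / w
  h := X ^ n
  D := 1 - C 4 * X ^ n
  c0 := 1
  c1 := - (C 4 * X ^ n)
  k := n.totient
  op_one := fun e => by simp
  op_mul := fun γ γ' e => by
    rw [Subgroup.coe_mul, Units.val_mul, map_mul, mul_assoc]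
  op_inj := fun {E} _ _ γ γ' e he h => by
    have h1 := mul_right_cancel₀ he h
    have h3 := (algebraMap Ω E).injective h1
    exact Subtype.ext (Units.ext h3)
  op_mem := fun M γ e he => M.mul_mem (M.algebraMap_mem _) he
  map_op := fun g γ e => by
    rw [map_mul, AlgHom.commutes]
  map_rec := fun g d w => map_mul g d w
  map_dif := fun g u w => map_div₀ g u w
  rec_dif := fun u w hw => div_mul_cancel₀ u hw
  rec_op := fun γ d w => by ring
  rec_mem := fun M d w hd hw => M.mul_mem hd hw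
  h_op := fun γ e => by
    rw [map_pow, map_pow, aeval_X, aeval_X, mul_pow, ← map_pow, root_pow, map_one, one_mul]
  h_eq := fun e e' h => by
    rw [map_pow, map_pow, aeval_X, aeval_X] at h
    obtain ⟨ζ, hζ⟩ := exists_root_of hn hn'
    exact root_of_pow hn hζ h
  h_sep := fun {E E'} _ _ _ _ _ _ c w hw h => by
    rw [map_pow, aeval_X] at h
    have hnE : (n : E) ≠ 0 := by
      rw [← map_natCast (algebraMap Ω E), Ne, map_eq_zero]
      exact hn'
    have hc : c ≠ 0 := by
      rintro rfl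
      rw [map_zero] at h
      exact hw ((pow_eq_zero_iff hn.ne').1 h)
    obtain ⟨ζ, hζ⟩ := exists_root_of hn hn'
    have hζE : IsPrimitiveRoot (algebraMap Ω E' ((ζ : Ωˣ) : Ω)) n :=
      hζ.map_of_injective (algebraMap Ω E').injective
    rw [Polynomial.map_pow, map_X]
    refine ⟨separable_X_pow_sub_C c hnE hc, ?_⟩
    rw [Polynomial.map_sub, Polynomial.map_pow, map_X, map_C]
    exact X_pow_sub_C_splits_of_isPrimitiveRoot hζE h
  D_rec := fun {E} _ _ d w => by
    simp only [map_sub, map_one, map_mul, map_pow, aeval_X, aeval_C, map_neg, mul_pow]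
    ring
  D_op := fun {E} _ _ γ e => by
    simp only [map_sub, map_one, map_mul, map_pow, aeval_X, aeval_C, mul_pow]
    rw [← map_pow, root_pow, map_one, one_mul]
  D_sqf := fun {E} _ _ => by
    rw [Polynomial.map_sub, Polynomial.map_one, Polynomial.map_mul, Polynomial.map_pow, map_X,
      map_C, map_ofNat]
    exact four_sqf h2 hn'
  D_deg := by
    have h4 : (4 : Ω) ≠ 0 := by
      have : (4 : Ω) = 2 * 2 := by norm_num
      rw [this]
      exact mul_ne_zero h2 h2
    have h1 : (1 - C 4 * X ^ n : Polynomial Ω).coeff n ≠ 0 := by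
      rw [coeff_sub, coeff_C_mul, coeff_X_pow, if_pos rfl, mul_one, coeff_one, if_neg hn.ne',
        zero_sub]
      exact neg_ne_zero.2 h4
    exact hn.trans_le (le_natDegree_of_ne_zero h1)
  D_frob := fun {E} _ _ e => by
    have : CharP E p := charP_of_injective_algebraMap (algebraMap Ω E).injective p
    have h4 : (4 : E) ^ p ^ n.totient = 4 := by
      have h := map_natCast (iterateFrobenius E p n.totient) 4
      rw [iterateFrobenius_def] at h
      exact_mod_cast h
    simp only [map_sub, map_one, map_mul, map_pow, aeval_X, aeval_C, map_ofNat]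
    rw [sub_pow_char_pow, one_pow, mul_pow, h4, ← pow_mul, ← pow_mul, mul_comm (p ^ n.totient) n]
  k_pos := Nat.totient_pos.2 hn
  frob := fun {E} _ _ γ e => by
    have hcop : Nat.Coprime p n := by
      rw [Nat.Prime.coprime_iff_not_dvd Fact.out]
      intro h
      exact hn' ((CharP.cast_eq_zero_iff Ω p n).2 h)
    have h1 : p ^ n.totient ≡ 1 [MOD n] := Nat.ModEq.pow_totient hcop
    have h2 : n ∣ p ^ n.totient - 1 :=
      (Nat.modEq_iff_dvd' (Nat.one_le_iff_ne_zero.2 (pow_ne_zero _ hp.out.ne_zero))).1 h1.symm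
    obtain ⟨r, hr⟩ := h2
    have h3 : p ^ n.totient = n * r + 1 := by
      have := Nat.one_le_iff_ne_zero.2 (pow_ne_zero n.totient hp.out.ne_zero)
      omega
    rw [mul_pow, ← map_pow]
    congr 2
    rw [h3, pow_succ, pow_mul, root_pow, one_pow, one_mul]
  bad := fun {L} _ ψ hψ => by
    obtain ⟨ζ, hζ⟩ := exists_root_of hn hn'
    by_cases h1 : ψ ζ = 1
    · refine ⟨0, Or.inl rfl, ?_⟩
      intro E _ _ γ e
      left
      refine ⟨?_, by rw [pow_zero, pow_zero]⟩
      obtain ⟨j, rfl⟩ := root_eq_pow hn hζ γ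
      rw [map_pow, h1, one_pow]
    · have h3 : ψ ζ = -1 := by
        have h4 := congrArg Units.val (hψ ζ)
        rw [Units.val_pow_eq_pow_val, Units.val_one] at h4
        rcases eq_or_eq_neg_of_sq_eq_sq _ _ (h4.trans (one_pow 2).symm) with h | h
        · exact absurd (Units.ext h) h1
        · exact Units.ext h
      have hζn : ζ ^ n = 1 := by
        ext
        rw [Subgroup.coe_pow, Units.val_pow_eq_pow_val, root_pow]
        rfl
      obtain ⟨m, hm⟩ : Even n := by
        rw [← Nat.not_odd_iff_even]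
        intro ho
        apply h1
        have h4 : ψ ζ ^ n = 1 := by rw [← map_pow, hζn, map_one]
        rw [h3, ho.neg_one_pow] at h4
        rw [h3, h4]
      have hm0 : 0 < m := by omega
      have hζm : (((ζ : Ωˣ) : Ω)) ^ m = -1 := by
        have h4 : ((((ζ : Ωˣ) : Ω)) ^ m) ^ 2 = 1 := by
          rw [← pow_mul, mul_two, ← hm, hζ.pow_eq_one]
        rcases eq_or_eq_neg_of_sq_eq_sq _ _ (h4.trans (one_pow 2).symm) with h | h
        · exfalso
          have h5 := hζ.dvd_of_pow_eq_one m h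
          have h6 := Nat.le_of_dvd hm0 h5
          omega
        · exact h
      refine ⟨m, Or.inr ?_, ?_⟩
      · intro E _ _ e
        rw [map_pow, aeval_X, ← pow_mul, mul_two, ← hm]
      · intro E _ _ γ e
        obtain ⟨j, rfl⟩ := root_eq_pow hn hζ γ
        rw [map_pow, h3, mul_pow, Subgroup.coe_pow, Units.val_pow_eq_pow_val, map_pow, ← pow_mul,
          mul_comm j m, pow_mul, ← map_pow, hζm, map_neg, map_one]
        rcases Nat.even_or_odd j with hj | hj
        · left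
          rw [hj.neg_one_pow, hj.neg_one_pow, one_mul]
          exact ⟨rfl, rfl⟩
        · right
          rw [hj.neg_one_pow, hj.neg_one_pow, neg_one_mul]
          exact ⟨rfl, rfl⟩

end

end Pool.Agent.Helper73.QW
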