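import Pool.Agent.Helper40.SD.Tower
import Pool.Agent.Helper73.QW.GeoDeg
import Pool.Agent.Helper73.QW.Defs

/-!
# Double planes of degree at most `2 k + 2` for the weights `1, k`, `k ≤ 2`
-/

set_option autoImplicit false

open IntermediateField

namespace Pool.Agent.Helper73.QW

open Pool.Agent.Helper75.QC

section

variable {R : Type} [CommRing R] {k a b : ℕ} {P Q : MvPolynomial (Fin 2) R}

theorem wdeg_le_iff : wdeg k P ≤ a ↔ ∀ m ∈ P.support, m 0 + k * m 1 ≤ a := Finset.sup_le_iff

theorem wdeg_add (hP : wdeg k P ≤ a) (hQ : wdeg k Q ≤ a) : wdeg k (P + Q) ≤ a := by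
  classical
  rw [wdeg_le_iff] at *
  intro m hm
  rcases Finset.mem_union.1 (MvPolynomial.support_add hm) with h | h
  · exact hP m h
  · exact hQ m h

theorem wdeg_mul (hP : wdeg k P ≤ a) (hQ : wdeg k Q ≤ b) : wdeg k (P * Q) ≤ a + b := by
  classical
  rw [wdeg_le_iff] at *
  intro m hm
  obtain ⟨u, hu, v, hv, rfl⟩ := Finset.mem_add.1 (MvPolynomial.support_mul P Q hm)
  have h1 := hP u hu
  have h2 := hQ v hv
  simp only [Finsupp.add_apply]
  calc u 0 + v 0 + k * (u 1 + v 1) = (u 0 + k * u 1) + (v 0 + k * v 1) := by ring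
    _ ≤ a + b := add_le_add h1 h2

theorem wdeg_C (c : R) : wdeg k (MvPolynomial.C c : MvPolynomial (Fin 2) R) ≤ 0 := by
  classical
  rw [wdeg_le_iff]
  intro m hm
  have h1 : m = 0 := by
    by_contra h
    rw [MvPolynomial.mem_support_iff, MvPolynomial.coeff_C, if_neg (Ne.symm h)] at hm
    exact hm rfl
  subst h1
  simp

theorem wdeg_one : wdeg k (1 : MvPolynomial (Fin 2) R) ≤ 0 := by
  rw [← MvPolynomial.C_1]
  exact wdeg_C 1

theorem wdeg_pow (hP : wdeg k P ≤ a) (j : ℕ) : wdeg k (P ^ j) ≤ j * a := by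
  induction j with
  | zero =>
    rw [pow_zero, zero_mul]
    exact wdeg_one
  | succ j ih =>
    rw [pow_succ, Nat.succ_mul]
    exact wdeg_mul ih hP

theorem wdeg_map {R' : Type} [CommRing R'] (f : R →+* R') (hP : wdeg k P ≤ a) :
    wdeg k (MvPolynomial.map f P) ≤ a := by
  rw [wdeg_le_iff] at *
  exact fun m hm => hP m (MvPolynomial.support_map_subset _ _ hm)

end

/-- conic bundles -/
theorem uni_conic_bundle {Ω N : Type} [Field Ω] [Field N] [Algebra Ω N]
    (B : MvPolynomial (Fin 2) Ω) (hB : wdeg 0 B ≤ 2) (x y r : N)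
    (hr : r ^ 2 = MvPolynomial.aeval ![x, y] B) :
    Uniruled Ω (adjoin Ω {x, y, r} : IntermediateField Ω N) 2 := by
  classical
  let E := AlgebraicClosure N
  let ι : N →ₐ[Ω] E := IsScalarTower.toAlgHom Ω N E
  obtain ⟨M, hM⟩ : ∃ M : IntermediateField Ω E, M = AF Ω {ι y} := ⟨_, rfl⟩
  have my : ι y ∈ M := by
    rw [hM]
    exact subset_AF _ rfl
  have hroot : ∀ c : E, c ^ 2 ∈ M → c ∈ M := by
    intro c hc
    rw [hM] at hc ⊢
    exact AF_root two_pos hc
  -- the coefficients
  let co : ℕ → E := fun j => ∑ m ∈ B.support.filter (fun m => m 0 = j),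
    algebraMap Ω E (B.coeff m) * ι y ^ m 1
  have hco : ∀ j, co j ∈ M := fun j => sum_mem fun m _ =>
    mul_mem (M.algebraMap_mem _) (pow_mem my _)
  have hr' : ι r ^ 2 = co 2 * ι x ^ 2 + co 1 * ι x + co 0 := by
    have h1 : MvPolynomial.aeval ![ι x, ι y] B = ∑ j ∈ Finset.range 3, co j * ι x ^ j := by
      rw [MvPolynomial.aeval_def, MvPolynomial.eval₂_eq']
      rw [← Finset.sum_fiberwise_of_maps_to (g := fun m => m 0) (t := Finset.range 3)]
      · refine Finset.sum_congr rfl fun j _ => ?_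
        rw [Finset.sum_mul]
        refine Finset.sum_congr rfl fun m hm => ?_
        rw [Finset.mem_filter] at hm
        rw [Fin.prod_univ_two, ← hm.2]
        show _ * (ι x ^ m 0 * ι y ^ m 1) = _
        ring
      · intro m hm
        have := wdeg_le_iff.1 hB m hm
        rw [Finset.mem_range]
        omega
    rw [← map_pow, hr, map_aeval_of, h1, Finset.sum_range_succ, Finset.sum_range_succ,
      Finset.sum_range_succ, Finset.sum_range_zero]
    ring
  obtain ⟨θ, h1, h2⟩ : ∃ θ : E, ι x ∈ adjoin Ω ((M : Set E) ∪ {θ}) ∧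
      ι r ∈ adjoin Ω ((M : Set E) ∪ {θ}) := by
    have hle : ∀ (θ c : E), c ∈ M → c ∈ adjoin Ω ((M : Set E) ∪ {θ}) := fun θ c hc =>
      subset_adjoin _ _ (Or.inl hc)
    have hθ : ∀ θ : E, θ ∈ adjoin Ω ((M : Set E) ∪ {θ}) := fun θ =>
      subset_adjoin _ _ (Or.inr rfl)
    obtain ⟨α, hα⟩ := IsAlgClosed.exists_pow_nat_eq (co 2) two_pos
    have hαM : α ∈ M := hroot α (by rw [hα]; exact hco 2)
    have key : (ι r - α * ι x) * (ι r - α * ι x + 2 * α * ι x) = co 1 * ι x + co 0 := by
      rw [← hα] at hr'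
      linear_combination hr'
    by_cases hd : 2 * α * (ι r - α * ι x) - co 1 = 0
    · by_cases h2α : 2 * α = 0
      · -- `co 1 = 0`, `r ^ 2 - α ^ 2 x ^ 2 ∈ M`
        refine ⟨ι x, hθ _, ?_⟩
        have h3 : co 1 = 0 := by
          rw [h2α, zero_mul, zero_sub, neg_eq_zero] at hd
          exact hd
        have h4 : (ι r - α * ι x) ^ 2 ∈ M := by
          have : (ι r - α * ι x) ^ 2 = co 0 := by
            rw [h3] at key
            linear_combination key - (ι r - α * ι x) * ι x * h2α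
          rw [this]
          exact hco 0
        have h5 := hroot _ h4
        have h6 : ι r = (ι r - α * ι x) + α * ι x := by ring
        rw [h6]
        exact add_mem (hle _ _ h5) (mul_mem (hle _ _ hαM) (hθ _))
      · refine ⟨ι x, hθ _, ?_⟩
        have h5 : ι r - α * ι x ∈ M := by
          have : ι r - α * ι x = co 1 / (2 * α) := by
            rw [eq_div_iff h2α]
            linear_combination hd
          rw [this]
          have h2m : (2 : E) ∈ M := by
            rw [← map_ofNat (algebraMap Ω E) 2]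
            exact M.algebraMap_mem _
          exact div_mem (hco 1) (mul_mem h2m hαM)
        have h6 : ι r = (ι r - α * ι x) + α * ι x := by ring
        rw [h6]
        exact add_mem (hle _ _ h5) (mul_mem (hle _ _ hαM) (hθ _))
    · obtain ⟨θ, hθd⟩ : ∃ θ, θ = ι r - α * ι x := ⟨_, rfl⟩
      rw [← hθd] at key hd
      have h2m : (2 : E) ∈ M := by
        rw [← map_ofNat (algebraMap Ω E) 2]
        exact M.algebraMap_mem _
      have hx : ι x = (co 0 - θ ^ 2) / (2 * α * θ - co 1) := by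
        rw [eq_div_iff hd]
        linear_combination key
      have hxm : ι x ∈ adjoin Ω ((M : Set E) ∪ {θ}) := by
        rw [hx]
        exact div_mem (sub_mem (hle _ _ (hco 0)) (pow_mem (hθ _) 2))
          (sub_mem (mul_mem (mul_mem (hle _ _ h2m) (hle _ _ hαM)) (hθ _)) (hle _ _ (hco 1)))
      refine ⟨θ, hxm, ?_⟩
      have h6 : ι r = θ + α * ι x := by
        rw [hθd]
        ring
      rw [h6]
      exact add_mem (hθ _) (mul_mem (hle _ _ hαM) hxm)
  refine ⟨E, inferInstance, inferInstance, ι.comp (adjoin Ω {x, y, r}).val, {ι y}, θ, by simp, ?_⟩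
  intro k
  have hle : (adjoin Ω {x, y, r} : IntermediateField Ω N) ≤
      (adjoin Ω (Acl Ω (({ι y} : Finset E) : Set E) ∪ {θ})).comap ι := by
    rw [Finset.coe_singleton, ← coe_AF, ← hM, adjoin_le_iff]
    rintro c (rfl | rfl | hc)
    · exact h1
    · exact subset_adjoin _ _ (Or.inl my)
    · rw [Set.mem_singleton_iff] at hc
      rw [hc]
      exact h2
  exact hle k.2

/-- double planes of degree at most `2 k + 2` for the weights `1, k`, `k ≤ 2` -/
theorem uni_weighted {Ω N : Type} [Field Ω] [IsAlgClosed Ω] [Field N] [Algebra Ω N]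
    (h2 : (2 : Ω) ≠ 0) {k : ℕ} (hk : k ≤ 2) (B : MvPolynomial (Fin 2) Ω)
    (hB : wdeg k B ≤ 2 * k + 2) (x y r : N) (hr : r ^ 2 = MvPolynomial.aeval ![x, y] B) :
    Uniruled Ω (adjoin Ω {x, y, r} : IntermediateField Ω N) 2 := by
  have hk' : k = 0 ∨ k = 1 ∨ k = 2 := by omega
  rcases hk' with rfl | rfl | rfl
  · exact uni_conic_bundle B hB x y r hr
  · refine uni_double75 h2 B ?_ x y r hr
    rw [wdeg_le_iff] at hB
    refine Finset.sup_le fun m hm => ?_
    have h1 := hB m hm
    rw [Finsupp.sum_fintype _ _ (by simp), Fin.sum_univ_two]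
    omega
  · exact Pool.Agent.Helper40.SD.uni_cone_adjoin h2 B (fun m hm => wdeg_le_iff.1 hB m hm) x y r hr

section

variable {p : ℕ} {Ω : Type} [Field Ω] (κ : Kind p Ω) {K : Type} [Field K] [Algebra Ω K]

/-- `f = F / (H q ^ 2)` and `g = G` with `deg G + deg H + max (deg F) (deg H + 2 deg q) ≤ 2 k + 2`
for the weights `1, k`, `k ≤ 2` -/
theorem geo_of_wdeg [IsAlgClosed Ω] (h2 : (2 : Ω) ≠ 0) {k : ℕ} (hk : k ≤ 2)
    (F H q G : MvPolynomial (Fin 2) Ω)
    (hd0 : wdeg k G + wdeg k H + wdeg k F ≤ 2 * k + 2)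
    (hd1 : wdeg k G + wdeg k H + (wdeg k H + 2 * wdeg k q) ≤ 2 * k + 2)
    {f g x y : K}
    (hH : MvPolynomial.aeval ![x, y] H ≠ 0) (hq : MvPolynomial.aeval ![x, y] q ≠ 0)
    (hG : MvPolynomial.aeval ![x, y] G ≠ 0)
    (hf : f * (MvPolynomial.aeval ![x, y] H * MvPolynomial.aeval ![x, y] q ^ 2) =
      MvPolynomial.aeval ![x, y] F) (hg : g = MvPolynomial.aeval ![x, y] G) :
    Geo κ f g x y := by
  have hpow : ∀ (P : MvPolynomial (Fin 2) Ω) (j : ℕ), j ≤ 1 → wdeg k (P ^ j) ≤ wdeg k P := by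
    intro P j hj
    refine (wdeg_pow le_rfl j).trans ?_
    calc j * wdeg k P ≤ 1 * wdeg k P := Nat.mul_le_mul_right _ hj
      _ = wdeg k P := one_mul _
  constructor
  · intro N _ _ a d s j hj _ hs
    obtain ⟨ι, -⟩ : ∃ i : N →ₐ[Ω] AlgebraicClosure N,
        i = IsScalarTower.toAlgHom Ω N (AlgebraicClosure N) := ⟨_, rfl⟩
    have h2' : (2 : AF Ω {ι d}) ≠ 0 := by
      intro h
      apply h2
      apply (algebraMap Ω (AF Ω {ι d})).injective
      rw [map_ofNat, map_zero, h]
    obtain ⟨M, hM⟩ : ∃ M, M = a (MvPolynomial.aeval ![x, y] (G ^ j * H * q)) := ⟨_, rfl⟩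
    have hM0 : M ≠ 0 := by
      rw [hM, map_ne_zero, map_mul, map_mul, map_pow]
      exact mul_ne_zero (mul_ne_zero (pow_ne_zero _ hG) hH) hq
    have md : ι d ∈ AF Ω {ι d} := subset_AF _ rfl
    obtain ⟨δ, hδ⟩ : ∃ δ : AF Ω {ι d}, δ = ⟨ι d, md⟩ := ⟨_, rfl⟩
    have hδ' : ∀ c : Polynomial Ω, algebraMap (AF Ω {ι d}) (AlgebraicClosure N)
        (Polynomial.aeval δ c) = ι (Polynomial.aeval d c) := by
      intro c
      rw [← Polynomial.aeval_algebraMap_apply, ← Polynomial.aeval_algHom_apply, hδ]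
      rfl
    have hU : Uniruled Ω (adjoin Ω (insert d {a x, a y, s * M}) : IntermediateField Ω N) 3 := by
      refine Pool.Agent.Helper40.SD.uni_family ι d {a x, a y, s * M} ?_
      have himg : ι '' {a x, a y, s * M} = {ι (a x), ι (a y), ι (s * M)} := by
        rw [Set.image_insert_eq, Set.image_insert_eq, Set.image_singleton]
      rw [himg]
      have e1 : wdeg k (G ^ j * H) ≤ wdeg k G + wdeg k H := wdeg_mul (hpow G j hj) le_rfl
      have e2 : wdeg k (H * q ^ 2) ≤ wdeg k H + 2 * wdeg k q := wdeg_mul le_rfl (wdeg_pow le_rfl 2)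
      have e3 : ∀ (c : AF Ω {ι d}) (Q : MvPolynomial (Fin 2) Ω) (b : ℕ), wdeg k Q ≤ b →
          wdeg k (MvPolynomial.C c * MvPolynomial.map (algebraMap Ω (AF Ω {ι d})) Q) ≤ b := by
        intro c Q b hQ
        have h := wdeg_mul (wdeg_C (k := k) c) (wdeg_map (algebraMap Ω (AF Ω {ι d})) hQ)
        rwa [zero_add] at h
      refine uni_weighted h2' hk (MvPolynomial.map (algebraMap Ω (AF Ω {ι d})) (G ^ j * H) *
        (MvPolynomial.C (Polynomial.aeval δ κ.c0) *
          MvPolynomial.map (algebraMap Ω (AF Ω {ι d})) (H * q ^ 2) +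
        MvPolynomial.C (Polynomial.aeval δ κ.c1) *
          MvPolynomial.map (algebraMap Ω (AF Ω {ι d})) F)) ?_ _ _ _ ?_
      · have e4 := wdeg_mul (wdeg_map (algebraMap Ω (AF Ω {ι d})) e1)
          (wdeg_add (e3 (Polynomial.aeval δ κ.c0) (H * q ^ 2)
            (max (wdeg k F) (wdeg k H + 2 * wdeg k q)) (e2.trans (le_max_right _ _)))
            (e3 (Polynomial.aeval δ κ.c1) F (max (wdeg k F) (wdeg k H + 2 * wdeg k q))
              (le_max_left _ _)))
        refine e4.trans ?_
        rcases le_total (wdeg k F) (wdeg k H + 2 * wdeg k q) with h | h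
        · rw [max_eq_right h]
          exact hd1
        · rw [max_eq_left h]
          exact hd0
      · have hKeq : (s * M) ^ 2 = a (MvPolynomial.aeval ![x, y] (G ^ j * H)) *
            (Polynomial.aeval d κ.c0 * a (MvPolynomial.aeval ![x, y] (H * q ^ 2)) +
              Polynomial.aeval d κ.c1 * a (MvPolynomial.aeval ![x, y] F)) := by
          rw [hM, ← hf]
          rw [hg] at hs
          simp only [map_mul, map_pow]
          linear_combination (a (MvPolynomial.aeval ![x, y] G)) ^ j *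
            (a (MvPolynomial.aeval ![x, y] H)) ^ 2 *
            (a (MvPolynomial.aeval ![x, y] q)) ^ 2 * hs
        have hι := congrArg ι hKeq
        rw [map_pow ι, map_mul ι (a _), map_add ι, map_mul ι (Polynomial.aeval d κ.c0),
          map_mul ι (Polynomial.aeval d κ.c1), map_aeval_of a, map_aeval_of a, map_aeval_of a,
          map_aeval_of ι, map_aeval_of ι, map_aeval_of ι] at hι
        rw [hι]
        simp only [map_mul (MvPolynomial.aeval (R := AF Ω {ι d}) ![ι (a x), ι (a y)]),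
          map_add (MvPolynomial.aeval (R := AF Ω {ι d}) ![ι (a x), ι (a y)]),
          MvPolynomial.aeval_map_algebraMap, MvPolynomial.aeval_C, hδ']
    refine Pool.Agent.Helper40.SD.uniruled_adjoin (AlgHom.id Ω N) {a x, a y, d, s}
      (insert d {a x, a y, s * M}) ?_ hU
    have m1 : a x ∈ adjoin Ω (insert d {a x, a y, s * M}) := subset_adjoin _ _ (by simp)
    have m2 : a y ∈ adjoin Ω (insert d {a x, a y, s * M}) := subset_adjoin _ _ (by simp)
    have m3 : d ∈ adjoin Ω (insert d {a x, a y, s * M}) := subset_adjoin _ _ (by simp)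
    have m4 : s * M ∈ adjoin Ω (insert d {a x, a y, s * M}) := subset_adjoin _ _ (by simp)
    rintro c (rfl | rfl | rfl | hc)
    · exact m1
    · exact m2
    · exact m3
    · rw [Set.mem_singleton_iff] at hc
      rw [hc]
      have m5 : M ∈ adjoin Ω (insert d {a x, a y, s * M}) := by
        have h := aeval_mem_of _ m1 m2 (G ^ j * H * q)
        rwa [← map_aeval_of, ← hM] at h
      have h := div_mem m4 m5
      rw [mul_div_cancel_right₀ _ hM0] at h
      exact h
  · intro r i j hi hj hr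
    obtain ⟨M, hM⟩ : ∃ M, M = MvPolynomial.aeval ![x, y] (H ^ i * q ^ i) := ⟨_, rfl⟩
    have hM0 : M ≠ 0 := by
      rw [hM, map_mul, map_pow, map_pow]
      exact mul_ne_zero (pow_ne_zero _ hH) (pow_ne_zero _ hq)
    have hU : Uniruled Ω (adjoin Ω {x, y, r * M} : IntermediateField Ω K) 2 := by
      refine uni_weighted h2 hk (F ^ i * H ^ i * G ^ j) ?_ x y (r * M) ?_
      · refine (wdeg_mul (wdeg_mul (hpow F i hi) (hpow H i hi)) (hpow G j hj)).trans ?_
        omega
      · simp only [map_mul, map_pow]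
        rw [← hf, ← hg, mul_pow, hr, hM]
        simp only [map_mul, map_pow]
        ring
    refine Pool.Agent.Helper40.SD.uniruled_adjoin (AlgHom.id Ω K) {x, y, r} {x, y, r * M} ?_ hU
    have m1 : x ∈ adjoin Ω {x, y, r * M} := subset_adjoin _ _ (by simp)
    have m2 : y ∈ adjoin Ω {x, y, r * M} := subset_adjoin _ _ (by simp)
    have m4 : r * M ∈ adjoin Ω {x, y, r * M} := subset_adjoin _ _ (by simp)
    rintro c (rfl | rfl | hc)
    · exact m1
    · exact m2
    · rw [Set.mem_singleton_iff] at hc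
      rw [hc]
      have m5 : M ∈ adjoin Ω {x, y, r * M} := by
        have h := aeval_mem_of _ m1 m2 (H ^ i * q ^ i)
        rwa [← hM] at h
      have h := div_mem m4 m5
      rw [mul_div_cancel_right₀ _ hM0] at h
      exact h

end

end Pool.Agent.Helper73.QW
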